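import Pool.Agent.Helper97.T1.Tc
import Pool.Agent.Helper19.S12.Win

/-! ALMOST EVERY WINDOW IS TYPICAL, along one subsequence of the scales, for countably many systems. -/

set_option autoImplicit false

namespace Pool.Agent.Helper97.T1

open Finset Filter Topology Pool.Agent.Helper69.RK Pool.Agent.Helper31.EC Pool.Agent.Helper60.CS
open Pool.Agent.Helper82.TP Pool.Agent.Helper40.EL Pool.Agent.Helper98.FR Pool.Agent.Helper80.HCI
open Pool.Agent.Helper79.NF Pool.Agent.Helper31.NSB Pool.Agent.Helper19.S12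

noncomputable section

open Sp QS Pool.Agent.Helper80.MX MeasureTheory

/-- good data of the family -/
def Gd {S : Sp} (s : Sys S 3) (lam eta : ℝ → ℝ) (p : ℚ × ℚ × Fin 3 × ℕ) : Prop :=
  Adm s lam eta (p.1 : ℝ) (p.2.1 : ℝ) ∧ (0 : ℝ) < p.1 ∧ (p.1 : ℝ) < p.2.1 ∧ (p.2.2.1 = 1 ∨ p.2.2.1 = 2)

open Classical in
/-- the limit functions -/
def sgf {S : Sp} (s : Sys S 3) (lam eta : ℝ → ℝ) (p : ℚ × ℚ × Fin 3 × ℕ) (c : ℝ) : ℝ :=
  if Gd s lam eta p then dep lam eta p.2.2.1 (cl p.1 p.2.1 c) - cl p.1 p.2.1 c else 0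

open Classical in
/-- the monotone functions -/
def gf {S : Sp} (s : Sys S 3) (lam eta : ℝ → ℝ) (p : ℚ × ℚ × Fin 3 × ℕ) (e c : ℝ) : ℝ :=
  if Gd s lam eta p ∧ e ≤ p.1 then Mf s (dep lam eta p.2.2.1) p.2.2.1 p.2.2.2 e (cl p.1 p.2.1 c)
  else p.2.2.2 * sgf s lam eta p c

section one

variable {S : Sp} (s : Sys S 3) (lam eta : ℝ → ℝ) (p : ℚ × ℚ × Fin 3 × ℕ)

theorem sgf_mono : Monotone (sgf s lam eta p) := by
  intro c c' h
  unfold sgf
  split_ifs with hg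
  · obtain ⟨hA, h0, h1, -⟩ := hg
    exact dep_mono hA _ (cl_mem h1.le c) (cl_mem h1.le c') (cl_mono h)
  · exact le_rfl

theorem gf_mono {e : ℝ} (he : 0 ≤ e) : Monotone (gf s lam eta p e) := by
  intro c c' h
  unfold gf
  split_ifs with hg
  · obtain ⟨⟨hA, h0, h1, hj⟩, hea⟩ := hg
    exact Mf_mono hA hj (Nat.cast_nonneg _) he hea (cl_mem h1.le c) (cl_mem h1.le c') (cl_mono h)
  · exact mul_le_mul_of_nonneg_left (sgf_mono s lam eta p h) (Nat.cast_nonneg _)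

theorem gf_abs {e : ℝ} (he : 0 ≤ e) (c : ℝ) : |gf s lam eta p e c - p.2.2.2 * sgf s lam eta p c| ≤ 2 * e := by
  unfold gf
  split_ifs with hg
  · obtain ⟨hG, hea⟩ := hg
    have hG' := hG
    obtain ⟨hA, h0, h1, hj⟩ := hG
    have h2 := cl_mem (a := (p.1 : ℝ)) (b := (p.2.1 : ℝ)) h1.le c
    have h3 := Mf_abs hA hj h2 (N := (p.2.2.2 : ℝ)) (Nat.cast_nonneg _) he (hea.trans h2.1)
    unfold sgf
    rw [if_pos hG']
    exact h3
  · rw [sub_self, abs_zero]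
    positivity

end one

/-- ALMOST EVERY WINDOW IS TYPICAL -/
theorem ae_TCw {ι : Type*} [Countable ι] {S : ι → Sp} (s : ∀ i, Sys (S i) 3) (lam eta : ι → ℝ → ℝ) {E : ℕ → ℝ}
    (hE : ∀ n, 0 < E n) (hE0 : Tendsto E atTop (𝓝 0)) : ∃ φ : ℕ → ℕ, StrictMono φ ∧ (Summable fun n => E (φ n)) ∧
      ∀ᵐ c : ℝ, c ∈ Set.Ioo (0 : ℝ) 1 → ∀ i, TCw (s i) (lam i) (eta i) (fun n => E (φ n)) c := by
  obtain ⟨σ, hσ⟩ : ∃ σ : ι ⊕ (ι × (ℚ × ℚ × Fin 3 × ℕ)) → ℝ → ℝ,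
    σ = Sum.elim (fun _ _ => 0) (fun x => sgf (s x.1) (lam x.1) (eta x.1) x.2) := ⟨_, rfl⟩
  obtain ⟨g, hg⟩ : ∃ g : ι ⊕ (ι × (ℚ × ℚ × Fin 3 × ℕ)) → ℕ → ℝ → ℝ,
    g = Sum.elim (fun i n c => - fx (s i) (E n) c) (fun x n => gf (s x.1) (lam x.1) (eta x.1) x.2 (E n)) := ⟨_, rfl⟩
  obtain ⟨N, hN⟩ : ∃ N : ι ⊕ (ι × (ℚ × ℚ × Fin 3 × ℕ)) → ℝ, N = Sum.elim (fun _ => 0) (fun x => (x.2.2.2.2 : ℝ)) :=
    ⟨_, rfl⟩
  obtain ⟨C, hC⟩ : ∃ C : ι ⊕ (ι × (ℚ × ℚ × Fin 3 × ℕ)) → ℝ, C = Sum.elim (fun _ => 3) (fun _ => 2) := ⟨_, rfl⟩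
  have q1 : ∀ i j, MonotoneOn (g i j) (Set.Icc (0 : ℝ) 1) := by
    rw [hg]
    rintro (i | ⟨i, p⟩) n
    · intro c _ c' _ h
      exact neg_le_neg (fx_anti (s i) (E n) h)
    · exact (gf_mono (s i) (lam i) (eta i) p (hE n).le).monotoneOn _
  have q2 : ∀ i, 0 ≤ N i := by
    rw [hN]
    rintro (i | ⟨i, p⟩)
    · exact le_rfl
    · exact Nat.cast_nonneg _
  have q3 : ∀ i, 0 ≤ C i := by
    rw [hC]
    rintro (i | ⟨i, p⟩)
    · show (0 : ℝ) ≤ 3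
      norm_num
    · show (0 : ℝ) ≤ 2
      norm_num
  have q4 : ∀ i j, ∀ c ∈ Set.Icc (0 : ℝ) 1, |g i j c - N i * σ i c| ≤ C i * E j := by
    rw [hg, hN, hC, hσ]
    rintro (i | ⟨i, p⟩) n c _
    · show |- fx (s i) (E n) c - 0 * 0| ≤ 3 * E n
      rw [mul_zero, sub_zero, abs_neg, abs_of_nonneg (fx_nonneg _ _ _)]
      have h1 := fx_le (s i) (hE n).le c
      push_cast at h1
      exact h1
    · exact gf_abs (s i) (lam i) (eta i) p (hE n).le c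
  obtain ⟨φ, hφ, hsum, hae⟩ := r1off (a := 0) (b := 1) zero_le_one q1 q2 q3 hE hE0 q4
  rw [hσ, hg] at hae
  refine ⟨φ, hφ, hsum, ?_⟩
  have hic : ∀ᵐ c : ℝ, ∀ i, c ∈ Set.Icc (0 : ℝ) 1 →
      DifferentiableWithinAt ℝ (Helper40.EL.ic (s i)) (Set.Icc (0 : ℝ) 1) c := by
    rw [ae_all_iff]
    intro i
    have hm : MonotoneOn (Helper40.EL.ic (s i)) (Set.Icc (0 : ℝ) 1) := fun c hc c' hc' h =>
      Helper40.EL.ic_mono hc.1 h hc'.2
    exact hm.ae_differentiableWithinAt_of_mem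
  have hE0' : Tendsto (fun n => E (φ n)) atTop (𝓝 0) := hE0.comp hφ.tendsto_atTop
  filter_upwards [hae, hic] with c h1 h2 hc i
  have h3 := h1 hc
  refine ⟨?_, ?_, ?_⟩
  · -- the direction
    intro A
    have h4 := h3 (Sum.inl i) (hasDerivAt_const c (0 : ℝ)) A
    refine h4.congr fun n => ?_
    show (- fx (s i) (E (φ n)) (c + A * E (φ n)) - - fx (s i) (E (φ n)) (c - A * E (φ n))) / E (φ n) = _
    congr 1
    ring
  · exact (h2 i ⟨hc.1.le, hc.2.le⟩).differentiableAt (Icc_mem_nhds hc.1 hc.2)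
  · intro a b hA ha hab j hj hd N A
    obtain ⟨a', ha1, ha2⟩ := exists_rat_btwn hab.1
    obtain ⟨b', hb1, hb2⟩ := exists_rat_btwn hab.2
    have hA' := hA.mono ha1.le hb2.le
    have hG : Gd (s i) (lam i) (eta i) (a', b', j, N) := ⟨hA', ha.trans ha1, ha2.trans hb1, hj⟩
    have hcI : Set.Icc (a' : ℝ) (b' : ℝ) ∈ 𝓝 c := Icc_mem_nhds ha2 hb1
    have hd' : HasDerivAt (sgf (s i) (lam i) (eta i) (a', b', j, N)) 0 c := by
      refine hd.congr_of_eventuallyEq ?_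
      filter_upwards [hcI] with x hx
      unfold sgf
      rw [if_pos hG]
      show dep (lam i) (eta i) j (cl a' b' x) - cl a' b' x = dep (lam i) (eta i) j x - x
      rw [cl_eq hx]
    have h4 := h3 (Sum.inr (i, (a', b', j, N))) hd' A
    refine h4.congr' ?_
    filter_upwards [TCw.ev_near (c := c) (ha.trans ha1) ⟨ha2, hb1⟩ hE0' A] with n hn
    have hEn := hE (φ n)
    have hAE : 0 ≤ A * E (φ n) := by positivity
    have key : ∀ x ∈ Set.Icc (a' : ℝ) (b' : ℝ),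
        gf (s i) (lam i) (eta i) (a', b', j, N) (E (φ n)) x = Mf (s i) (dep (lam i) (eta i) j) j N (E (φ n)) x := by
      intro x hx
      unfold gf
      rw [if_pos ⟨hG, hn.1⟩]
      show Mf (s i) (dep (lam i) (eta i) j) j N (E (φ n)) (cl a' b' x) = _
      rw [cl_eq hx]
    show (gf (s i) (lam i) (eta i) (a', b', j, N) (E (φ n)) (c + A * E (φ n)) -
      gf (s i) (lam i) (eta i) (a', b', j, N) (E (φ n)) (c - A * E (φ n))) / E (φ n) = _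
    rw [key _ ⟨by linarith [hn.2.2], hn.2.1⟩, key _ ⟨hn.2.2, by linarith [hn.2.1]⟩]

/-- TYPICAL WINDOW of a system with the names `y = 0`, `R = 1`, `z = 2` -/
def TC {S : Sp} (s : Sys S 3) (E : ℕ → ℝ) (c : ℝ) : Prop := TCw s (la s 1 {0, 1}) (la s 2 {0, 1, 2}) E c

/-- ALMOST EVERY WINDOW IS TYPICAL, countable families of systems -/
theorem ae_TC {ι : Type*} [Countable ι] {S : ι → Sp} (s : ∀ i, Sys (S i) 3) {E : ℕ → ℝ}
    (hE : ∀ n, 0 < E n) (hE0 : Tendsto E atTop (𝓝 0)) : ∃ φ : ℕ → ℕ, StrictMono φ ∧ (Summable fun n => E (φ n)) ∧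
      ∀ᵐ c : ℝ, c ∈ Set.Ioo (0 : ℝ) 1 → ∀ i, TC (s i) (fun n => E (φ n)) c :=
  ae_TCw s (fun i => la (s i) 1 {0, 1}) (fun i => la (s i) 2 {0, 1, 2}) hE hE0

/-- linear growth at a point of differentiability -/
theorem lip_of_diff {f : ℝ → ℝ} {c : ℝ} (h : DifferentiableAt ℝ f c) (σ : ℝ) : ∃ C : ℝ, ∀ᶠ e in 𝓝[>] (0 : ℝ),
    f (c + e * σ) - f c ≤ C * e := by
  refine ⟨|deriv f c * σ| + 1, ?_⟩
  have h1 : HasDerivAt (fun e : ℝ => f (c + e * σ)) (deriv f c * σ) 0 := by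
    have h2 : HasDerivAt (fun e : ℝ => c + e * σ) σ 0 := by
      have h3 := ((hasDerivAt_id (0 : ℝ)).mul_const σ).const_add c
      rwa [one_mul] at h3
    have h4 : HasDerivAt f (deriv f c) ((fun e : ℝ => c + e * σ) 0) := by
      show HasDerivAt f (deriv f c) (c + 0 * σ)
      rw [zero_mul, add_zero]
      exact h.hasDerivAt
    exact h4.comp (0 : ℝ) h2
  have h5 := h1.isLittleO.def one_pos
  have h6 : ∀ᶠ e in 𝓝[>] (0 : ℝ), ‖f (c + e * σ) - f (c + 0 * σ) - (e - 0) • (deriv f c * σ)‖ ≤ 1 * ‖e - 0‖ :=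
    h5.filter_mono nhdsWithin_le_nhds
  filter_upwards [h6, self_mem_nhdsWithin] with e he he0
  have he0' : (0 : ℝ) < e := he0
  rw [zero_mul, add_zero, sub_zero, Real.norm_eq_abs, Real.norm_eq_abs, abs_of_pos he0', one_mul, smul_eq_mul] at he
  have h7 := (abs_le.mp he).2
  have h8 : e * (deriv f c * σ) ≤ e * |deriv f c * σ| := mul_le_mul_of_nonneg_left (le_abs_self _) he0'.le
  nlinarith

end

end Pool.Agent.Helper97.T1
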