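import Pool.Agent.Helper97.T1.Fl
import Pool.Agent.Helper98.LV.Fld

/-! The fields `T1`, `tF`, `tv` of the sequence of boxes: boxes with a good base label and frame exist at typical windows
and have these fields. -/

set_option autoImplicit false

namespace Pool.Agent.Helper97.T1

open Finset Filter Topology Pool.Agent.Helper69.RK Pool.Agent.Helper31.EC Pool.Agent.Helper60.CS
open Pool.Agent.Helper82.TP Pool.Agent.Helper40.EL Pool.Agent.Helper98.FR Pool.Agent.Helper80.HCI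
open Pool.Agent.Helper79.NF Pool.Agent.Helper31.NSB Pool.Agent.Helper52.KP Pool.Agent.Helper98.LV

noncomputable section

open Sp QS Pool.Agent.Helper80.MX

variable {S : Sp} {σ A : ℝ} {s : Sys S 3} {lam eta : ℝ → ℝ} {N : Scl σ A} {c w1 w : ℝ}

/-- the box has the independence of the direction (and of the velocity of `R` or of `z` if `w1 = 1` or `w = 1`) over
everything known over the window `c + e` -/
def PT (w1 w e ε : ℝ) {tol : ℝ} (X : Cb s lam eta N c e tol) : Prop :=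
  ∀ i, N.ν i = 1 → ∀ (he : 0 < e) (ηn : ℝ) (hηn : ηn ≤ X.b.bd.eta 0) (ix : ℝ → ℕ)
    (K : (X.b.bd.Sj 0 e he).L), kn X.b.bd 0 i he K →
      I (dg (X.b.ld.rd 0 e he ηn hηn ix).x 1) K ⊥ ≤ ε ∧
      (w1 = 1 → I (dg (X.b.ld.rd 0 e he ηn hηn ix).x 1 ⊔ dg (X.b.ld.rd 0 e he ηn hηn ix).F 1) K ⊥ ≤ ε) ∧
      (w = 1 → 1 < w1 → I (dg (X.b.ld.rd 0 e he ηn hηn ix).x 1 ⊔ dg (X.b.ld.rd 0 e he ηn hηn ix).v 1) K ⊥ ≤ ε)

theorem one_mem (N : Scl σ A) (hA : 1 < A) : ∃ i, N.ν i = 1 := by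
  obtain ⟨i, hi⟩ := N.rat 1 (by norm_num) (by rw [Rat.cast_one]; exact hA)
  exact ⟨i, by rw [hi, Rat.cast_one]⟩

/-- the windows up to `c + e` are dense -/
theorem dn_one {tol e : ℝ} (hA : 1 < A) (X : Cb s lam eta N c e tol) (he : 0 < e) : X.b.bd.Dn 0 (c + e) := by
  intro a a' h1 h2 h3
  have h4 : X.b.bd.q 0 = c := Cb.q0
  rw [h4] at h1
  exact N.dnw he hA.le a a' h1 h2 (by rw [mul_one]; exact h3)

/-- the labels of the windows may be prescribed (to be dominated) -/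
theorem exists_cb {a b : ℝ} (Ad : Adm s lam eta a b) (ha : 0 < a) (hc : c ∈ Set.Ioo a b) {E : ℕ → ℝ}
    (hE : ∀ n, 0 < E n) (hE0 : Tendsto E atTop (𝓝 0)) (T : TCw s lam eta E c) (h1 : HasDerivAt lam w1 c)
    (h2 : HasDerivAt eta w c) (hA : 1 < A) (N : Scl σ A) {ε : ℝ} (hε : 0 < ε) : ∀ᶠ n in atTop,
    ∃ X : Cb s lam eta N c (E n) (ε * E n / 8), PT w1 w (E n) ε X := by
  have h3 : Tendsto (fun n => E n * A) atTop (𝓝 0) := by
    have := hE0.mul_const A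
    rwa [zero_mul] at this
  filter_upwards [exists_T1d Ad ha hc hE hE0 T h1 h2 (show 0 < ε / 8 by positivity),
    h3.eventually (gt_mem_nhds (show 0 < b - c by linarith [hc.2]))] with n hn hb
  have hEn := hE n
  obtain ⟨l, f, η', hdm, hT⟩ := hn (kap s c) (kap_isKap s c).dm
  have hq : ∀ i, c + E n * N.ν i ∈ Set.Icc a b := fun i => by
    have g1 := mul_le_mul_of_nonneg_left (N.le i) hEn.le
    have g2 := mul_nonneg hEn.le (N.nn i)
    exact ⟨by linarith [hc.1], by linarith⟩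
  have hq0 : c + E n * N.ν 0 = c := Cb.q0
  obtain ⟨L, B, g1, g2, -⟩ := hT.box Ad (fun i => c + E n * N.ν i) hq (i0 := 0) hq0 (fun i hi => by
    show c + E n * N.ν 0 < c + E n * N.ν i
    rw [hq0]
    have := mul_pos hEn (N.pos i hi)
    linarith) (fun i => kap s (c + E n * N.ν i)) (fun i => (kap_isKap s _).dm)
  refine ⟨⟨L, _, B, fun i hi => Function.update_of_ne hi _ _, ?_, ?_⟩, ?_⟩
  · rw [Function.update_self]
    exact hT.hi
  · rw [Function.update_self]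
    have := hT.lo
    linarith
  · intro i hi he ηn hηn ix K hK
    have hqi : c + E n * N.ν i = c + E n := by rw [hi, mul_one]
    have t := hT.ind _ _ _ L B 0 i (fun _ => rfl) (fun k => ?_) hq0 hqi ?_ g1 (Function.update_self ..) g2 he ηn hηn ix K
      hK
    · exact ⟨t.1.trans (by linarith), fun g => (t.2.1 g).trans (by linarith), fun g g' => (t.2.2 g g').trans (by linarith)⟩
    · by_cases hk : k = 0
      · subst hk
        rw [Function.update_self, hq0]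
        exact hT.hi
      · rw [Function.update_of_ne hk]
    · intro x x' g3 g4 g5
      have g6 : B.bd.q 0 = c := hq0
      rw [g6] at g3
      exact N.dnw he hA.le x x' g3 g4 (by rw [mul_one]; exact g5)

/-- the information of the maximal label is Lipschitz at typical windows -/
theorem TCw.icL {E : ℕ → ℝ} (T : TCw s lam eta E c) :
    ∃ L : ℝ, 0 ≤ L ∧ ∀ᶠ x in 𝓝 c, |Helper40.EL.ic s x - Helper40.EL.ic s c| ≤ L * |x - c| := by
  obtain ⟨L, hL, h4⟩ := T.ic.isBigO_sub.exists_nonneg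
  refine ⟨L, hL, ?_⟩
  filter_upwards [h4.bound] with x hx
  simpa [Real.norm_eq_abs] using hx

section fields

variable (Q : Sq s lam eta c w1 w N) (hA : 1 < A) (hP : ∀ j, PT w1 w (Q.e j) (Q.ε j) (Q.X j))

include hA hP in
theorem fld_all (hl1 : lam c < 1) (he1 : eta c < 1) (hσ : σ ≤ 1) {ε : ℝ} (hε : 0 < ε) : ∀ᶠ j in atTop,
    ∀ r ∈ N.Sc, I (dg (Q.H j).x 1) ((Q.rin.inp.H j).κ r ⊔ (Q.H j).B) ⊥ ≤ ε ∧
      (w1 = 1 → I (dg (Q.H j).x 1 ⊔ dg (Q.H j).F 1) ((Q.rin.inp.H j).κ r ⊔ (Q.H j).B) ⊥ ≤ ε) ∧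
      (w = 1 → 1 < w1 → I (dg (Q.H j).x 1 ⊔ dg (Q.H j).v 1) ((Q.rin.inp.H j).κ r ⊔ (Q.H j).B) ⊥ ≤ ε) := by
  obtain ⟨i, hi⟩ := one_mem N hA
  filter_upwards [Q.small hl1 he1 1 one_pos, Q.ε0.eventually (gt_mem_nhds hε)] with j hj hj' r hr
  obtain ⟨k1, k2, k3⟩ := hj
  have hqi : c + Q.e j * N.ν i = c + Q.e j := by rw [hi, mul_one]
  have hq0 : c + Q.e j * N.ν 0 = c := Cb.q0
  have hlam := Q.lam0 j
  have t := hP j i hi (Q.he j) (lvt eta c (Q.ε j) (Q.e j)) (Cb.lvt_le (Q.hε j) (Q.he j) (Q.X j)) N.ix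
    ((Q.rin.inp.H j).κ r ⊔ (Q.H j).B) (kn_KB (Q.X j).b (Q.he j) (Cb.lvt_le (Q.hε j) (Q.he j) (Q.X j)) N.ix
      (by
        show c + Q.e j * N.ν 0 + Q.e j ≤ c + Q.e j * N.ν i
        rw [hq0, hqi])
      (by
        have h5 : c + Q.e j * N.ν i = c + Q.e j := hqi
        show (Q.X j).b.bd.Dn 0 (c + Q.e j * N.ν i)
        rw [h5]
        exact dn_one hA (Q.X j) (Q.he j))
      (by
        have h5 : lam (c + Q.e j * N.ν 0) + Q.e j ≤ 1 := by
          rw [hq0]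
          exact k2
        exact h5) k3
      (by
        show c + Q.e j * N.ν (N.ix r) ≤ c + Q.e j * N.ν i
        rw [N.ix_eq hr, hi]
        have := mul_le_mul_of_nonneg_left ((N.Sc_le hr).trans hσ) (Q.he j).le
        linarith) (Q.rin.bdd hr j))
  exact ⟨t.1.trans hj'.le, fun g => (t.2.1 g).trans hj'.le, fun g g' => (t.2.2 g g').trans hj'.le⟩

include hA hP in
/-- field `T1` -/
theorem fld_T1 (hl1 : lam c < 1) (he1 : eta c < 1) (hσ : σ ≤ 1) : ∀ ε : ℝ, 0 < ε → ∀ᶠ j in atTop, ∀ r ∈ N.Sc,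
    I (dg (Q.H j).x 1) ((Q.rin.inp.H j).κ r ⊔ (Q.H j).B) ⊥ ≤ ε :=
  fun _ hε => (fld_all Q hA hP hl1 he1 hσ hε).mono fun _ h r hr => (h r hr).1

include hA hP in
/-- field `tF` -/
theorem fld_tF (hl1 : lam c < 1) (he1 : eta c < 1) (hσ : σ ≤ 1) : w1 = 1 → ∀ ε : ℝ, 0 < ε → ∀ᶠ j in atTop,
    ∀ r ∈ N.Sc, I (dg (Q.H j).x 1 ⊔ dg (Q.H j).F 1) ((Q.rin.inp.H j).κ r ⊔ (Q.H j).B) ⊥ ≤ ε :=
  fun g _ hε => (fld_all Q hA hP hl1 he1 hσ hε).mono fun _ h r hr => (h r hr).2.1 g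

include hA hP in
/-- field `tv` -/
theorem fld_tv (hl1 : lam c < 1) (he1 : eta c < 1) (hσ : σ ≤ 1) : w = 1 → 1 < w1 → ∀ ε : ℝ, 0 < ε → ∀ᶠ j in atTop,
    ∀ r ∈ N.Sc, I (dg (Q.H j).x 1 ⊔ dg (Q.H j).v 1) ((Q.rin.inp.H j).κ r ⊔ (Q.H j).B) ⊥ ≤ ε :=
  fun g g' _ hε => (fld_all Q hA hP hl1 he1 hσ hε).mono fun _ h r hr => (h r hr).2.2 g g'

end fields

end

end Pool.Agent.Helper97.T1
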