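import Pool.Agent.Helper80.HCI.Lk
import Pool.Agent.Helper98.FR.Vel

/-! Information about functions of a finer label, in the space over a label with the depth `e n`: general form. -/

set_option autoImplicit false

namespace Pool.Agent.Helper97.T1

open Finset Filter Topology Pool.Agent.Helper69.RK Pool.Agent.Helper31.EC Pool.Agent.Helper40.EL
open Pool.Agent.Helper98.FR Pool.Agent.Helper80.HCI

noncomputable section

open Sp QS

variable {U : Sp} (Z : ∀ k, Setoid (U.F k).Ω) {Z' : ∀ k, Setoid (U.F k).Ω}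

/-- entropies at the depth `e n` -/
theorem H_chg_e {e : ℝ} (he : 0 < e) (x : U.L) : H (chgL Z e he x) = H (chgL Z 1 one_pos x) / e := by
  induction x using Sp.cl_ind with | h A
  rw [chgL_cl, chgL_cl, H_cl, H_cl]
  have key : (U.chg Z e he).rt (chgI Z e he A).1 (U.chg Z e he).tr =
      fun k => e⁻¹ * (U.chg Z 1 one_pos).rt (chgI Z 1 one_pos A).1 (U.chg Z 1 one_pos).tr k := by
    funext k
    have h1 : (U.chg Z e he).rt (chgI Z e he A).1 (U.chg Z e he).tr k =
        (U.F k).e (A.1 k) (⊤ ⊓ (Z k ⊓ (U.F k).Z)) / (e * (U.F k).n) := rfl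
    have h2 : (U.chg Z 1 one_pos).rt (chgI Z 1 one_pos A).1 (U.chg Z 1 one_pos).tr k =
        (U.F k).e (A.1 k) (⊤ ⊓ (Z k ⊓ (U.F k).Z)) / (1 * (U.F k).n) := rfl
    rw [h1, h2, one_mul]
    have := (U.F k).pos
    field_simp
  rw [key, ul_const_mul _ (UB_rt _ _), div_eq_inv_mul]

/-- INFORMATION: a function `K` of the finer label `Z'` has on `x` at most the information `H_Z(x) - H_Z'(x)` -/
theorem I_fine (hZ : ∀ k ω ω', (U.F k).μ ω ≠ 0 → (U.F k).μ ω' ≠ 0 → (U.F k).Z ω ω' → Z' k ω ω' → Z k ω ω')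
    {e : ℝ} (he : 0 < e) (x : U.L) {K : (U.chg Z e he).L} (hK : chgL (zc Z he Z') 1 one_pos K = ⊥) :
    I (chgL Z e he x) K ⊥ ≤ (H (chgL Z 1 one_pos x) - H (chgL Z' 1 one_pos x)) / e := by
  rw [I_eq, h_bot, sup_bot_eq, H_chg_e, sub_div]
  have e1 : H (chgL Z' 1 one_pos x) / e ≤ h (chgL Z e he x) K := by
    have e2 := h_chg_le_sup (S := U.chg Z e he) (zc Z he Z') (x := K) (u := chgL Z e he x) (y := ⊥) hK
    rw [chgL_bot, h_bot, chg_chg_H hZ he, sup_bot_eq] at e2
    exact e2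
  linarith

end

end Pool.Agent.Helper97.T1
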