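import Pool.Agent.Helper97.T1.Dt
import Pool.Agent.Helper97.T1.Ifo

/-! THE MONOTONE POTENTIAL of the windows: the largest value of `N ν - H(x_e, v_(ν+e) | l)` over all maximal labels `l`
of the window `c` and all frames of depth `ν + c` over them. -/

set_option autoImplicit false

namespace Pool.Agent.Helper97.T1

open Finset Filter Topology Pool.Agent.Helper69.RK Pool.Agent.Helper31.EC Pool.Agent.Helper60.CS
open Pool.Agent.Helper82.TP Pool.Agent.Helper40.EL Pool.Agent.Helper98.FR Pool.Agent.Helper80.HCI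
open Pool.Agent.Helper42.NS Pool.Agent.Helper91.GR Pool.Agent.Helper52.KP

noncomputable section

open Sp QS Pool.Agent.Helper80.MX

variable {S : Sp}

/-! ### preliminaries -/

/-- small functions have few digits -/
theorem H_dgo_le (B : BD S) (i : ℕ) {f : TR S} {r e : ℝ} (hr : r ≤ 1) (he : 0 ≤ e) (hre : r + e ≤ 1)
    (hf : QS.mk f ∈ Id S r) : H (dgo B i f (r + e)) ≤ e := by
  rw [← dgo_eq B i f hre]
  have h1 : dg (qc (B.V i) (QS.mk f)) r = ⊥ := dg_of_mem_Id ((qc_mem_Id (B.V i)).mpr hf) le_rfl hr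
  have h2 := H_dg_le_sub h1 (show r ≤ r + e by linarith)
  linarith

/-- entropies over a finer base -/
theorem H_fine_le {Z Z' : ∀ k, Setoid (S.F k).Ω}
    (hZ : ∀ k ω ω', (S.F k).μ ω ≠ 0 → (S.F k).μ ω' ≠ 0 → (S.F k).Z ω ω' → Z' k ω ω' → Z k ω ω') (x : S.L) :
    H (chgL Z' 1 one_pos x) ≤ H (chgL Z 1 one_pos x) := by
  have h1 := I_fine Z hZ one_pos x (K := ⊥) (chgL_bot _ 1 one_pos)
  have h2 := I_nonneg (chgL Z 1 one_pos x) ⊥ ⊥
  rw [div_one] at h1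
  linarith

/-! ### windows -/

/-- ADMISSIBLE WINDOWS: the hypotheses of `exists_box` on the interval `[a, b]` -/
structure Adm (s : Sys S 3) (lam eta : ℝ → ℝ) (a b : ℝ) : Prop where
  a0 : 0 ≤ a
  b1 : b ≤ 1
  lam1 : ∀ c ∈ Set.Icc a b, lam c ≤ 1
  eta0 : ∀ c ∈ Set.Icc a b, 0 ≤ eta c
  eta1 : ∀ c ∈ Set.Icc a b, eta c ≤ 1
  clam : ∀ c ∈ Set.Icc a b, c ≤ lam c
  slam : ∀ c ∈ Set.Icc a b, ∀ c' ∈ Set.Icc a b, c ≤ c' → lam c - c ≤ lam c' - c'
  seta : ∀ c ∈ Set.Icc a b, ∀ c' ∈ Set.Icc a b, c ≤ c' → eta c - c ≤ eta c' - c'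
  hR : ∀ c ∈ Set.Icc a b, HH (SJ 1 {0, 1}) s c (lam c)
  hz : ∀ c ∈ Set.Icc a b, HH (SJ 2 {0, 1, 2}) s c (eta c)
  full : ∀ c ∈ Set.Icc a b, ∀ l : Lab S, IsKap s c l → (1 - c) + (1 - lam c) ≤
    h (up1 l (TR.dg (TR.cor s.P 0) 1 ⊔ TR.dg (TR.cor s.P 1) 1)) (up1 l s.T)

namespace Adm

variable {s : Sys S 3} {lam eta : ℝ → ℝ} {a b : ℝ}

theorem mono (A : Adm s lam eta a b) {a' b' : ℝ} (ha : a ≤ a') (hb : b' ≤ b) : Adm s lam eta a' b' := by
  have h1 : ∀ c ∈ Set.Icc a' b', c ∈ Set.Icc a b := fun c hc => ⟨ha.trans hc.1, hc.2.trans hb⟩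
  exact ⟨A.a0.trans ha, hb.trans A.b1, fun c hc => A.lam1 c (h1 c hc), fun c hc => A.eta0 c (h1 c hc),
    fun c hc => A.eta1 c (h1 c hc), fun c hc => A.clam c (h1 c hc),
    fun c hc c' hc' => A.slam c (h1 c hc) c' (h1 c' hc'), fun c hc c' hc' => A.seta c (h1 c hc) c' (h1 c' hc'),
    fun c hc => A.hR c (h1 c hc), fun c hc => A.hz c (h1 c hc), fun c hc => A.full c (h1 c hc)⟩

/-- boxes with admissible windows -/
theorem box (A : Adm s lam eta a b) (q : ℕ → ℝ) (hq : ∀ i, q i ∈ Set.Icc a b) (L : ℕ → Lab S)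
    (hL : ∀ i, DMc s (q i) (L i)) : Nonempty (Bx s q (fun i => lam (q i)) (fun i => eta (q i)) L) :=
  exists_box s q _ _ L (fun i => A.a0.trans (hq i).1) (fun i => (hq i).2.trans A.b1) (fun i => A.lam1 _ (hq i))
    (fun i => A.eta0 _ (hq i)) (fun i => A.eta1 _ (hq i)) (fun i => A.clam _ (hq i))
    (fun i j h => A.slam _ (hq i) _ (hq j) h) (fun i j h => A.seta _ (hq i) _ (hq j) h) (fun i => A.hR _ (hq i))
    (fun i => A.hz _ (hq i)) hL (fun i => A.full _ (hq i))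

/-- a box which dominates a label of the window `c` and contains the window `c'`, windows dense between them -/
theorem box2 (A : Adm s lam eta a b) {c c' : ℝ} (hc : c ∈ Set.Icc a b) (hc' : c' ∈ Set.Icc a b)
    {l : Lab S} (hl : DMc s c l) : ∃ (q : ℕ → ℝ) (L : ℕ → Lab S) (B : Bx s q (fun i => lam (q i)) (fun i => eta (q i)) L),
      q 0 = c ∧ q 1 = c' ∧ Dom (B.M.lab 0) l ∧ B.bd.Dn 0 c' := by
  obtain ⟨q, hq⟩ : ∃ q : ℕ → ℝ, q = fun i => if i = 0 then c else if i = 1 then c' else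
    max c (min c' (TopologicalSpace.denseSeq ℝ (i - 2))) := ⟨_, rfl⟩
  have q0 : q 0 = c := by rw [hq]; simp
  have q1 : q 1 = c' := by rw [hq]; simp
  have hqn : ∀ n, q (n + 2) = max c (min c' (TopologicalSpace.denseSeq ℝ n)) := fun n => by
    rw [hq]
    simp
  have hq' : ∀ i, q i ∈ Set.Icc a b := by
    intro i
    rw [hq]
    simp only
    split_ifs
    · exact hc
    · exact hc'
    · exact ⟨hc.1.trans (le_max_left _ _), max_le hc.2 ((min_le_left _ _).trans hc'.2)⟩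
  obtain ⟨L, hL⟩ : ∃ L : ℕ → Lab S, L = fun i => if i = 0 then l else kap s (q i) := ⟨_, rfl⟩
  have hL0 : L 0 = l := by rw [hL]; simp
  have hL' : ∀ i, DMc s (q i) (L i) := by
    intro i
    by_cases hi : i = 0
    · subst hi
      rw [q0, hL0]
      exact hl
    · rw [hL]
      simp only
      rw [if_neg hi]
      exact (kap_isKap s (q i)).dm
  obtain ⟨B⟩ := A.box q hq' L hL'
  refine ⟨q, L, B, q0, q1, ?_, ?_⟩
  · rw [← hL0]
    exact B.dom 0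
  · intro x x' h1 h2 h3
    obtain ⟨u, hu1, hu2⟩ : ∃ u ∈ Set.range (TopologicalSpace.denseSeq ℝ), u ∈ Set.Ioo x x' :=
      (TopologicalSpace.denseRange_denseSeq ℝ).exists_mem_open isOpen_Ioo (Set.nonempty_Ioo.mpr h2) |>.imp
        (fun _ h => h) |> fun ⟨n, hn⟩ => ⟨_, ⟨n, rfl⟩, hn⟩
    obtain ⟨n, rfl⟩ := hu1
    refine ⟨n + 2, ?_⟩
    have h4 : B.bd.q (n + 2) = TopologicalSpace.denseSeq ℝ n := by
      have h5 : B.bd.q (n + 2) = q (n + 2) := rfl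
      rw [h5, hqn, min_eq_right (hu2.2.le.trans h3), max_eq_right]
      have h6 : B.bd.q 0 = c := q0
      rw [← h6]
      exact h1.trans hu2.1.le
    rw [h4]
    exact ⟨hu2.1, hu2.2⟩

end Adm

/-! ### the potential -/

/-- depth of the frames of the coordinate `j` -/
def dep (lam eta : ℝ → ℝ) (j : Fin 3) (c : ℝ) : ℝ := if j = 1 then lam c else eta c

/-- THE POTENTIAL -/
def Mf (s : Sys S 3) (dp : ℝ → ℝ) (j : Fin 3) (N e c : ℝ) : ℝ :=
  sSup {v | ∃ (ν : ℝ) (l : Lab S) (f : Fin 4 → TR l.sp), ν ≤ dp c - c ∧ IsKap s c l ∧ Frz s j (ν + c) l f ∧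
    v = N * ν - Hv s j e (ν + e) l f}

theorem Mf_bdd (s : Sys S 3) (dp : ℝ → ℝ) (j : Fin 3) {N : ℝ} (hN : 0 ≤ N) (e c : ℝ) :
    BddAbove {v | ∃ (ν : ℝ) (l : Lab S) (f : Fin 4 → TR l.sp), ν ≤ dp c - c ∧ IsKap s c l ∧ Frz s j (ν + c) l f ∧
      v = N * ν - Hv s j e (ν + e) l f} := by
  refine ⟨N * (dp c - c), ?_⟩
  rintro v ⟨ν, l, f, h1, -, -, rfl⟩
  have h2 := Hv_nonneg s j e (ν + e) l f
  have h3 := mul_le_mul_of_nonneg_left h1 hN
  linarith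

theorem le_Mf {s : Sys S 3} {dp : ℝ → ℝ} {j : Fin 3} {N : ℝ} (hN : 0 ≤ N) {e c ν : ℝ} {l : Lab S} {f : Fin 4 → TR l.sp}
    (h1 : ν ≤ dp c - c) (h2 : IsKap s c l) (h3 : Frz s j (ν + c) l f) :
    N * ν - Hv s j e (ν + e) l f ≤ Mf s dp j N e c := le_csSup (Mf_bdd s dp j hN e c) ⟨ν, l, f, h1, h2, h3, rfl⟩

/-! ### frames along the windows of a box -/

section box

variable {s : Sys S 3} {q lamv etav : ℕ → ℝ} {L : ℕ → Lab S} (b : Bx s q lamv etav L)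

theorem Hv_eq (j : Fin 3) (e r : ℝ) (i : ℕ) (F : Fin 4 → TR b.M.sp) : Hv s j e r (b.M.lab i) F =
    H (dgo b.bd i (b.ld.x 0) e ⊔ dgo b.bd i (b.ld.x j - (F 1 + F 2 * b.ld.x 0 + F 3 * b.ld.x 1)) r) := by
  unfold dgo
  rw [← chgL_sup]
  rfl

/-- entropies over finer windows -/
theorem Hv_fine (j : Fin 3) (e r : ℝ) {i0 i : ℕ} (h : q i0 ≤ q i) (F : Fin 4 → TR b.M.sp) :
    Hv s j e r (b.M.lab i) F ≤ Hv s j e r (b.M.lab i0) F :=
  H_fine_le (S := b.M.sp) (Z := fun k => (b.M k).V i0) (Z' := fun k => (b.M k).V i)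
    (fun k _ _ _ _ _ h' => b.nest i0 i h k h') _

/-- FORWARD TRANSPORT of frames of `z` -/
theorem step2 {i0 i : ℕ} (h : q i0 ≤ q i) (hd : b.bd.Dn i0 (q i)) {ν e : ℝ} (he : e ≤ 1) (hνe : ν + e ≤ 1)
    {F : Fin 4 → TR b.M.sp} (hF : Frz s 2 (ν + q i0) (b.M.lab i0) F) (hν : ν + q i0 ≤ etav i0) :
    Frz s 2 (ν + q i) (b.M.lab i) (fw b.bd F i) ∧
      Hv s 2 e (ν + e) (b.M.lab i) (fw b.bd F i) = Hv s 2 e (ν + e) (b.M.lab i) F := by
  have lf : ∀ a, Lt (b.bd.V i0) (F a) := hF.lt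
  have m0 : QS.mk b.bd.z - (QS.mk (F 0) + QS.mk (F 1) * QS.mk b.bd.t + QS.mk (F 2) * QS.mk b.bd.y +
      QS.mk (F 3) * QS.mk b.bd.R) ∈ Id b.M.sp (ν + b.bd.q i0) := hF.mem
  refine ⟨⟨?_, fun h => absurd h (by decide), ?_⟩, ?_⟩
  · exact fw_lt b.bd (fun a => (lf a).mono (b.bd.nest i0 i h))
  · exact fw_mem b.bd hd lf hν m0 h le_rfl
  · refine (Hv_eq b 2 e (ν + e) i (fw b.bd F i)).trans (Eq.trans ?_ (Hv_eq b 2 e (ν + e) i F).symm)
    have h1 := fw_vf b.bd b.ld hd lf hν m0 h le_rfl he hνe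
    exact congrArg H h1

/-- FORWARD TRANSPORT of frames of `R` -/
theorem step1 {i0 i : ℕ} (h : q i0 ≤ q i) (hd : b.bd.Dn i0 (q i)) {ν e : ℝ} (he : e ≤ 1) (hνe : ν + e ≤ 1)
    {F : Fin 4 → TR b.M.sp} (hF : Frz s 1 (ν + q i0) (b.M.lab i0) F) (hν : ν + q i0 ≤ lamv i0) :
    Frz s 1 (ν + q i) (b.M.lab i) ![b.bd.r i 0, b.bd.r i 1, b.bd.r i 2, 0] ∧
      Hv s 1 e (ν + e) (b.M.lab i) ![b.bd.r i 0, b.bd.r i 1, b.bd.r i 2, 0] = Hv s 1 e (ν + e) (b.M.lab i) F := by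
  have h3 : F 3 = 0 := hF.tl rfl
  have hs := b.slam i0 i h
  have m0 : QS.mk b.bd.R - (QS.mk (F 0) + QS.mk (F 1) * QS.mk b.bd.t + QS.mk (F 2) * QS.mk b.bd.y) ∈
      Id b.M.sp (ν + b.bd.q i0) := by
    have h1 : QS.mk b.bd.R - (QS.mk (F 0) + QS.mk (F 1) * QS.mk b.bd.t + QS.mk (F 2) * QS.mk b.bd.y +
      QS.mk (F 3) * QS.mk b.bd.R) ∈ Id b.M.sp (ν + b.bd.q i0) := hF.mem
    rw [h3, map_zero, zero_mul, add_zero] at h1
    exact h1
  have m1 : QS.mk b.bd.R - (QS.mk (b.bd.r i 0) + QS.mk (b.bd.r i 1) * QS.mk b.bd.t + QS.mk (b.bd.r i 2) * QS.mk b.bd.y +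
      QS.mk (0 : TR b.M.sp) * QS.mk b.bd.R) ∈ Id b.M.sp (ν + q i) := by
    have h1 : ν + q i ≤ b.bd.lam i := by
      show ν + q i ≤ lamv i
      linarith
    rw [map_zero, zero_mul, add_zero]
    exact Id_anti h1 (b.bd.hr i)
  have l0 : Lt (b.bd.V i) (0 : TR b.M.sp) := Eventually.of_forall fun k ω ω' _ _ _ _ => rfl
  refine ⟨⟨?_, fun _ => rfl, m1⟩, ?_⟩
  · intro a
    fin_cases a
    · exact b.bd.lr i 0
    · exact b.bd.lr i 1
    · exact b.bd.lr i 2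
    · exact l0
  · refine (Hv_eq b 1 e (ν + e) i ![b.bd.r i 0, b.bd.r i 1, b.bd.r i 2, 0]).trans
      (Eq.trans ?_ (Hv_eq b 1 e (ν + e) i F).symm)
    have h1 := vr_gen b.bd b.ld hd h le_rfl he hνe (show ν ≤ b.bd.lam i0 - b.bd.q i0 by
      show ν ≤ lamv i0 - q i0
      linarith) (f := fun a => F a.castSucc) (fun a => hF.lt _) m0
    have e1 : b.ld.x 1 - (b.bd.r i 1 + b.bd.r i 2 * b.ld.x 0 + 0 * b.ld.x 1) = b.ld.vr i := by
      rw [zero_mul, add_zero]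
      rfl
    have e2 : b.ld.x 1 - (F 1 + F 2 * b.ld.x 0 + F 3 * b.ld.x 1) =
        b.ld.x 1 - (F (Fin.castSucc 1) + F (Fin.castSucc 2) * b.ld.x 0) := by
      rw [h3, zero_mul, add_zero]
      rfl
    have e3 : dgo b.bd i (b.ld.x 0) e ⊔ dgo b.bd i (b.ld.x 1 - (b.bd.r i 1 + b.bd.r i 2 * b.ld.x 0 + 0 * b.ld.x 1)) (ν + e) =
        dgo b.bd i (b.ld.x 0) e ⊔ dgo b.bd i (b.ld.x 1 - (F 1 + F 2 * b.ld.x 0 + F 3 * b.ld.x 1)) (ν + e) := by
      rw [e1, e2]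
      exact h1
    exact congrArg H e3

variable {lam eta : ℝ → ℝ}

/-- the potential of a finer window of a box -/
theorem bx_le {j : Fin 3} (hj : j = 1 ∨ j = 2) (hl : ∀ i, lamv i ≤ lam (q i)) (hη : ∀ i, etav i ≤ eta (q i)) {i0 i : ℕ}
    (h : q i0 ≤ q i) (hd : b.bd.Dn i0 (q i)) {ν e N : ℝ} (hN : 0 ≤ N) (he : e ≤ 1) (hνe : ν + e ≤ 1)
    {F : Fin 4 → TR b.M.sp} (hF : Frz s j (ν + q i0) (b.M.lab i0) F) (hν : ν + q i0 ≤ if j = 1 then lamv i0 else etav i0) :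
    N * ν - Hv s j e (ν + e) (b.M.lab i) F ≤ Mf s (dep lam eta j) j N e (q i) := by
  rcases hj with rfl | rfl
  · have e1 : (if (1 : Fin 3) = 1 then lamv i0 else etav i0) = lamv i0 := if_pos rfl
    have e2 : dep lam eta 1 (q i) = lam (q i) := if_pos rfl
    rw [e1] at hν
    obtain ⟨h1, h2⟩ := step1 b h hd he hνe hF hν
    rw [← h2]
    refine le_Mf hN ?_ (b.kap i) h1
    rw [e2]
    have := b.slam i0 i h
    have := hl i
    linarith
  · have e1 : (if (2 : Fin 3) = 1 then lamv i0 else etav i0) = etav i0 := if_neg (by decide)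
    have e2 : dep lam eta 2 (q i) = eta (q i) := if_neg (by decide)
    rw [e1] at hν
    obtain ⟨h1, h2⟩ := step2 b h hd he hνe hF hν
    rw [← h2]
    refine le_Mf hN ?_ (b.kap i) h1
    rw [e2]
    have := b.seta i0 i h
    have := hη i
    linarith

/-- frames of full depth in a box -/
theorem fr_box {j : Fin 3} (hj : j = 1 ∨ j = 2) (hl : ∀ i, lamv i = lam (q i)) (hη : ∀ i, etav i = eta (q i)) (i : ℕ)
    {e : ℝ} (he : 0 ≤ e) (hei : e ≤ q i) : ∃ F : Fin 4 → TR b.M.sp,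
      Frz s j (dep lam eta j (q i)) (b.M.lab i) F ∧ Hv s j e (dep lam eta j (q i) - q i + e) (b.M.lab i) F ≤ 2 * e := by
  have hq1 := b.q1 i
  have hx : H (dgo b.bd i (b.ld.x 0) e) ≤ e := by
    have h1 := H_dgo_le b.bd i (f := b.ld.x 0) (r := 0) zero_le_one he (by linarith) (mem_Id_nonpos le_rfl)
    rwa [zero_add] at h1
  rcases hj with rfl | rfl
  · have e2 : dep lam eta 1 (q i) = lamv i := (if_pos rfl).trans (hl i).symm
    have hl1 := b.lam1 i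
    rw [e2]
    refine ⟨![b.bd.r i 0, b.bd.r i 1, b.bd.r i 2, 0], ⟨?_, fun _ => rfl, ?_⟩, ?_⟩
    · have l0 : Lt (b.bd.V i) (0 : TR b.M.sp) := Eventually.of_forall fun k ω ω' _ _ _ _ => rfl
      intro a
      fin_cases a
      · exact b.bd.lr i 0
      · exact b.bd.lr i 1
      · exact b.bd.lr i 2
      · exact l0
    · have m1 : QS.mk b.bd.R - (QS.mk (b.bd.r i 0) + QS.mk (b.bd.r i 1) * QS.mk b.bd.t +
          QS.mk (b.bd.r i 2) * QS.mk b.bd.y + QS.mk (0 : TR b.M.sp) * QS.mk b.bd.R) ∈ Id b.M.sp (lamv i) := by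
        rw [map_zero, zero_mul, add_zero]
        exact b.bd.hr i
      exact m1
    · rw [Hv_eq]
      have e1 : b.ld.x 1 - (b.bd.r i 1 + b.bd.r i 2 * b.ld.x 0 + 0 * b.ld.x 1) = b.ld.vr i := by
        rw [zero_mul, add_zero]
        rfl
      have h2 := H_dgo_le b.bd i (f := b.ld.vr i) (r := lamv i - q i) (by linarith [b.q0 i]) he (by linarith)
        (b.ld.vr_mem i)
      have h3 : H (dgo b.bd i (b.ld.x 0) e ⊔ dgo b.bd i (b.ld.x 1 - (b.bd.r i 1 + b.bd.r i 2 * b.ld.x 0 + 0 * b.ld.x 1))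
          (lamv i - q i + e)) ≤ 2 * e := by
        rw [e1]
        have h4 := H_sup_le (dgo b.bd i (b.ld.x 0) e) (dgo b.bd i (b.ld.vr i) (lamv i - q i + e))
        linarith
      exact h3
  · have e2 : dep lam eta 2 (q i) = etav i := (if_neg (by decide)).trans (hη i).symm
    have hl1 := b.eta1 i
    rw [e2]
    refine ⟨b.bd.c i, ⟨b.bd.lc i, fun h => absurd h (by decide), b.bd.hc i⟩, ?_⟩
    rw [Hv_eq]
    have h2 := H_dgo_le b.bd i (f := b.ld.vz i) (r := etav i - q i) (by linarith [b.q0 i]) he (by linarith)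
        (b.ld.vz_mem i le_rfl)
    have h4 := H_sup_le (dgo b.bd i (b.ld.x 0) e) (dgo b.bd i (b.ld.vz i) (etav i - q i + e))
    have h5 : H (dgo b.bd i (b.ld.x 0) e ⊔ dgo b.bd i (b.ld.vz i) (etav i - q i + e)) ≤ 2 * e := by linarith
    exact h5

end box

/-! ### properties of the potential -/

section pot

variable {s : Sys S 3} {lam eta : ℝ → ℝ} {a b : ℝ}

theorem dep_le (A : Adm s lam eta a b) (j : Fin 3) {c : ℝ} (hc : c ∈ Set.Icc a b) : dep lam eta j c ≤ 1 := by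
  unfold dep
  split_ifs
  · exact A.lam1 c hc
  · exact A.eta1 c hc

theorem dep_mono (A : Adm s lam eta a b) (j : Fin 3) {c c' : ℝ} (hc : c ∈ Set.Icc a b) (hc' : c' ∈ Set.Icc a b)
    (h : c ≤ c') : dep lam eta j c - c ≤ dep lam eta j c' - c' := by
  unfold dep
  split_ifs
  · exact A.slam c hc c' hc' h
  · exact A.seta c hc c' hc' h

/-- labels with frames of full depth -/
theorem exists_fr (A : Adm s lam eta a b) {j : Fin 3} (hj : j = 1 ∨ j = 2) {c : ℝ} (hc : c ∈ Set.Icc a b) {e : ℝ}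
    (he : 0 ≤ e) (hec : e ≤ c) {l0 : Lab S} (hl0 : DMc s c l0) : ∃ (l : Lab S) (f : Fin 4 → TR l.sp), IsKap s c l ∧
      Dom l l0 ∧ Frz s j (dep lam eta j c) l f ∧ Hv s j e (dep lam eta j c - c + e) l f ≤ 2 * e := by
  obtain ⟨q, L, B, h0, -, h2, -⟩ := A.box2 hc hc hl0
  obtain ⟨F, h3, h4⟩ := fr_box B hj (fun _ => rfl) (fun _ => rfl) 0 he (by rw [h0]; exact hec)
  have h5 := B.kap 0
  rw [h0] at h3 h4 h5
  exact ⟨B.M.lab 0, F, h5, h2, h3, h4⟩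

theorem Mf_ge (A : Adm s lam eta a b) {j : Fin 3} (hj : j = 1 ∨ j = 2) {c : ℝ} (hc : c ∈ Set.Icc a b) {N e : ℝ}
    (hN : 0 ≤ N) (he : 0 ≤ e) (hec : e ≤ c) : N * (dep lam eta j c - c) - 2 * e ≤ Mf s (dep lam eta j) j N e c := by
  obtain ⟨l, f, h1, -, h2, h3⟩ := exists_fr A hj hc he hec (kap_isKap s c).dm
  have h4 := le_Mf (dp := dep lam eta j) hN (e := e) (ν := dep lam eta j c - c) le_rfl h1 (by
    rw [sub_add_cancel]
    exact h2)
  linarith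

theorem Mf_le (A : Adm s lam eta a b) {j : Fin 3} (hj : j = 1 ∨ j = 2) {c : ℝ} (hc : c ∈ Set.Icc a b) {N e : ℝ}
    (hN : 0 ≤ N) (he : 0 ≤ e) (hec : e ≤ c) : Mf s (dep lam eta j) j N e c ≤ N * (dep lam eta j c - c) := by
  apply csSup_le
  · obtain ⟨l, f, h1, -, h2, -⟩ := exists_fr A hj hc he hec (kap_isKap s c).dm
    exact ⟨_, dep lam eta j c - c, l, f, le_rfl, h1, by rw [sub_add_cancel]; exact h2, rfl⟩
  · rintro v ⟨ν, l, f, h1, -, -, rfl⟩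
    have h2 := Hv_nonneg s j e (ν + e) l f
    have h3 := mul_le_mul_of_nonneg_left h1 hN
    linarith

theorem Mf_abs (A : Adm s lam eta a b) {j : Fin 3} (hj : j = 1 ∨ j = 2) {c : ℝ} (hc : c ∈ Set.Icc a b) {N e : ℝ}
    (hN : 0 ≤ N) (he : 0 ≤ e) (hec : e ≤ c) :
    |Mf s (dep lam eta j) j N e c - N * (dep lam eta j c - c)| ≤ 2 * e := by
  have h1 := Mf_ge A hj hc hN he hec
  have h2 := Mf_le A hj hc hN he hec
  rw [abs_le]
  constructor <;> linarith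

/-- THE POTENTIAL IS MONOTONE -/
theorem Mf_mono (A : Adm s lam eta a b) {j : Fin 3} (hj : j = 1 ∨ j = 2) {N e : ℝ} (hN : 0 ≤ N) (he : 0 ≤ e)
    (hea : e ≤ a) : MonotoneOn (Mf s (dep lam eta j) j N e) (Set.Icc a b) := by
  intro c hc c' hc' h
  have hec := hea.trans hc.1
  apply csSup_le
  · obtain ⟨l, f, h1, -, h2, -⟩ := exists_fr A hj hc he hec (kap_isKap s c).dm
    exact ⟨_, dep lam eta j c - c, l, f, le_rfl, h1, by rw [sub_add_cancel]; exact h2, rfl⟩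
  · rintro v ⟨ν, l, f, h1, h2, h3, rfl⟩
    obtain ⟨q, L, B, q0, q1, hd, hn⟩ := A.box2 hc hc' h2.dm
    have hνe : ν + e ≤ 1 := by
      have := dep_le A j hc
      linarith
    have he1 : e ≤ 1 := hec.trans (hc.2.trans A.b1)
    have h4 := h3.tr hd
    have h5 := Hv_tr_le s j he1 hνe f hd
    rw [← q0] at h4
    rw [← q1] at hn
    have hqq : q 0 ≤ q 1 := by rw [q0, q1]; exact h
    have h1' : ν + q 0 ≤ if j = 1 then lam (q 0) else eta (q 0) := by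
      unfold dep at h1
      rw [q0]
      linarith
    have h6 := bx_le B hj (fun _ => le_rfl) (fun _ => le_rfl) hqq hn hN he1 hνe h4 h1'
    have h7 := Hv_fine B j e (ν + e) hqq (fun a => Dom.tr (B.M.lab 0) l (f a))
    rw [q1] at h6
    refine le_trans ?_ h6
    have h8 : Hv s j e (ν + e) (B.M.lab 1) (fun a => Dom.tr (B.M.lab 0) l (f a)) ≤ Hv s j e (ν + e) l f := h7.trans h5
    linarith

/-- NEAR MAXIMISERS -/
theorem near_max (A : Adm s lam eta a b) {j : Fin 3} (hj : j = 1 ∨ j = 2) {c : ℝ} (hc : c ∈ Set.Icc a b) {N e δ : ℝ}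
    (hN : 0 < N) (he : 0 ≤ e) (hec : e ≤ c) (hδ : 0 < δ) : ∃ (ν : ℝ) (l : Lab S) (f : Fin 4 → TR l.sp),
      ν ≤ dep lam eta j c - c ∧ dep lam eta j c - c - (2 * e + δ) / N ≤ ν ∧ IsKap s c l ∧ Frz s j (ν + c) l f ∧
      Mf s (dep lam eta j) j N e c - δ ≤ N * ν - Hv s j e (ν + e) l f := by
  obtain ⟨v, ⟨ν, l, f, h1, h2, h3, rfl⟩, h4⟩ := exists_lt_of_lt_csSup (b := Mf s (dep lam eta j) j N e c - δ) (by
    obtain ⟨l, f, h1, -, h2, -⟩ := exists_fr A hj hc he hec (kap_isKap s c).dm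
    exact ⟨_, dep lam eta j c - c, l, f, le_rfl, h1, by rw [sub_add_cancel]; exact h2, rfl⟩)
    (show Mf s (dep lam eta j) j N e c - δ < Mf s (dep lam eta j) j N e c by linarith)
  refine ⟨ν, l, f, h1, ?_, h2, h3, h4.le⟩
  have h5 := Mf_ge A hj hc hN.le he hec
  have h6 := Hv_nonneg s j e (ν + e) l f
  have h7 : N * (dep lam eta j c - c) - (2 * e + δ) ≤ N * ν := by linarith
  have h8 : (2 * e + δ) / N * N = 2 * e + δ := by field_simp
  nlinarith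

end pot

end

end Pool.Agent.Helper97.T1
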