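import Pool.Agent.Helper97.T1.Kb

/-! DIRECTION (T1) in a box with a base label and a base frame which are nearly maximal for the potential. -/

set_option autoImplicit false

namespace Pool.Agent.Helper97.T1

open Finset Filter Topology Pool.Agent.Helper69.RK Pool.Agent.Helper31.EC Pool.Agent.Helper60.CS
open Pool.Agent.Helper82.TP Pool.Agent.Helper40.EL Pool.Agent.Helper98.FR Pool.Agent.Helper80.HCI
open Pool.Agent.Helper79.NF Pool.Agent.Helper31.NSB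

noncomputable section

open Sp QS Pool.Agent.Helper80.MX

variable {S : Sp}

section setf

variable {s : Sys S 3} {q lamv etav : ℕ → ℝ} {L : ℕ → Lab S} (b : Bx s q lamv etav L)

/-- REPLACEMENT of the frame of `z` of the base window of a box -/
def setf (i0 : ℕ) {F : Fin 4 → TR b.M.sp} {η' : ℝ} (hF : Frz s 2 η' (b.M.lab i0) F) (hη : η' ≤ etav i0)
    (hq : ∀ i, i ≠ i0 → q i0 < q i) : Bx s q lamv (Function.update etav i0 η') L :=
  { b with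
    c := Function.update b.c i0 F
    eta1 := (b.bd.setc i0 F η' hF.lt hη hF.mem hq).eta1
    seta := (b.bd.setc i0 F η' hF.lt hη hF.mem hq).seta
    lc := (b.bd.setc i0 F η' hF.lt hη hF.mem hq).lc
    hc := (b.bd.setc i0 F η' hF.lt hη hF.mem hq).hc }

variable {i0 : ℕ} {F : Fin 4 → TR b.M.sp} {η' : ℝ} (hF : Frz s 2 η' (b.M.lab i0) F) (hη : η' ≤ etav i0)
    (hq : ∀ i, i ≠ i0 → q i0 < q i)

theorem setf_bd : (setf b i0 hF hη hq).bd = b.bd.setc i0 F η' hF.lt hη hF.mem hq := rfl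
theorem setf_M : (setf b i0 hF hη hq).M = b.M := rfl
theorem setf_c : (setf b i0 hF hη hq).c i0 = F := Function.update_self ..

end setf

section T1

variable {s : Sys S 3} {q lamv etav : ℕ → ℝ} {L : ℕ → Lab S} (b : Bx s q lamv etav L) {i0 i : ℕ}

theorem fin_bx (h : q i0 ≤ q i) : Fin' b.bd i0 i := fun k _ _ _ _ _ h' => b.nest i0 i h k h'

/-- the velocity of `y` alone -/
theorem T1x_bx (h : q i0 ≤ q i) {e : ℝ} (he : 0 < e) {ηn : ℝ} (hη : ηn ≤ b.bd.eta i0) (ix : ℝ → ℕ)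
    {K : (b.bd.Sj i0 e he).L} (hK : kn b.bd i0 i he K) :
    I (dg (b.ld.rd i0 e he ηn hη ix).x 1) K ⊥ ≤ (fx s e (q i0) - fx s e (q i)) / e :=
  Pool.Agent.Helper71.AGR.T1x_rd b i0 he hη ix h hK

variable {lam eta : ℝ → ℝ}

/-- the velocities of `y` and of `z` -/
theorem T1v_bx (hl : ∀ i, lamv i ≤ lam (q i)) (hη : ∀ i, etav i ≤ eta (q i)) (h : q i0 ≤ q i) (hd : b.bd.Dn i0 (q i))
    {e N δ : ℝ} (hN : 0 ≤ N) (he : 0 < e) (hei : e ≤ q i0)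
    (hm : Mf s (dep lam eta 2) 2 N e (q i0) - δ ≤
      N * (etav i0 - q i0) - Hv s 2 e (etav i0 - q i0 + e) (b.M.lab i0) (b.c i0))
    {ηn : ℝ} (hηn : ηn ≤ b.bd.eta i0) (ix : ℝ → ℕ) {K : (b.bd.Sj i0 e he).L} (hK : kn b.bd i0 i he K) :
    I (dg (b.ld.rd i0 e he ηn hηn ix).x 1 ⊔ dg (b.ld.rd i0 e he ηn hηn ix).v 1) K ⊥ ≤
      (Mf s (dep lam eta 2) 2 N e (q i) - Mf s (dep lam eta 2) 2 N e (q i0) + δ) / e := by
  have hq1 := b.q1 i0
  have he1 := b.eta1 i0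
  have hηn' : ηn ≤ etav i0 := hηn
  have h1 := I_xv b.bd b.ld (fin_bx b h) he hηn (ν := etav i0 - q i0) (by
    show ηn - q i0 ≤ etav i0 - q i0
    linarith) ix hK
  refine h1.trans (div_le_div_of_nonneg_right ?_ he.le)
  have hF : Frz s 2 (etav i0 - q i0 + q i0) (b.M.lab i0) (b.c i0) := by
    rw [sub_add_cancel]
    exact ⟨b.bd.lc i0, fun h => absurd h (by decide), b.bd.hc i0⟩
  have h2 := bx_le b (Or.inr rfl) hl hη h hd hN (e := e) (by linarith) (show etav i0 - q i0 + e ≤ 1 by linarith) hF (by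
    rw [sub_add_cancel, if_neg (by decide)])
  have e1 : H (chgL (b.bd.V i0) 1 one_pos (TR.dg (b.ld.x 0) e ⊔ TR.dg (b.ld.vz i0) (etav i0 - q i0 + e))) =
      Hv s 2 e (etav i0 - q i0 + e) (b.M.lab i0) (b.c i0) := rfl
  have e2 : H (chgL (b.bd.V i) 1 one_pos (TR.dg (b.ld.x 0) e ⊔ TR.dg (b.ld.vz i0) (etav i0 - q i0 + e))) =
      Hv s 2 e (etav i0 - q i0 + e) (b.M.lab i) (b.c i0) := rfl
  rw [e1, e2]
  linarith

/-- the velocities of `y` and of `R` -/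
theorem T1F_bx (hl : ∀ i, lamv i ≤ lam (q i)) (hη : ∀ i, etav i ≤ eta (q i)) (h : q i0 ≤ q i) (hd : b.bd.Dn i0 (q i))
    {e N δ ν : ℝ} (hN : 0 ≤ N) (he : 0 < e) (hei : e ≤ q i0) {F : Fin 4 → TR b.M.sp}
    (hF : Frz s 1 (ν + q i0) (b.M.lab i0) F) (hν : ν + q i0 ≤ lamv i0)
    (hm : Mf s (dep lam eta 1) 1 N e (q i0) - δ ≤ N * ν - Hv s 1 e (ν + e) (b.M.lab i0) F)
    {ηn : ℝ} (hηn : ηn ≤ b.bd.eta i0) (ix : ℝ → ℕ) {K : (b.bd.Sj i0 e he).L} (hK : kn b.bd i0 i he K) :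
    I (dg (b.ld.rd i0 e he ηn hηn ix).x 1 ⊔ dg (b.ld.rd i0 e he ηn hηn ix).F 1) K ⊥ ≤
      (Mf s (dep lam eta 1) 1 N e (q i) - Mf s (dep lam eta 1) 1 N e (q i0) + δ) / e + (lamv i0 - q i0 - ν) / e := by
  have hq1 := b.q1 i0
  have he1 := b.lam1 i0
  have he' : e ≤ 1 := by linarith
  have hνe : ν + e ≤ 1 := by linarith
  have hσ : ν ≤ b.bd.lam i0 - b.bd.q i0 := by
    show ν ≤ lamv i0 - q i0
    linarith
  have h3 : F 3 = 0 := hF.tl rfl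
  have m0 : QS.mk b.bd.R - (QS.mk (F 0) + QS.mk (F 1) * QS.mk b.bd.t + QS.mk (F 2) * QS.mk b.bd.y) ∈
      Id b.M.sp (ν + b.bd.q i0) := by
    have h1 : QS.mk b.bd.R - (QS.mk (F 0) + QS.mk (F 1) * QS.mk b.bd.t + QS.mk (F 2) * QS.mk b.bd.y +
      QS.mk (F 3) * QS.mk b.bd.R) ∈ Id b.M.sp (ν + b.bd.q i0) := hF.mem
    rw [h3, map_zero, zero_mul, add_zero] at h1
    exact h1
  have hd0 : b.bd.Dn i0 (q i0) := Dn_mono b.bd hd h
  have hw := vr_gen b.bd b.ld (i := i0) hd0 le_rfl le_rfl he' hνe hσ (f := fun a => F a.castSucc) (fun a => hF.lt _) m0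
  have e2 : b.ld.x 1 - (F 1 + F 2 * b.ld.x 0 + F 3 * b.ld.x 1) =
      b.ld.x 1 - (F (Fin.castSucc 1) + F (Fin.castSucc 2) * b.ld.x 0) := by
    rw [h3, zero_mul, add_zero]
    rfl
  have h4 := I_xF b.bd b.ld (fin_bx b h) he hηn hσ ix (w := b.ld.x 1 - (F 1 + F 2 * b.ld.x 0 + F 3 * b.ld.x 1)) (by
    rw [e2]
    exact hw) hK
  have h5 := bx_le b (Or.inl rfl) hl hη h hd hN he' hνe hF (by rw [if_pos rfl]; exact hν)
  have e3 : H (chgL (b.bd.V i0) 1 one_pos (TR.dg (b.ld.x 0) e ⊔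
      TR.dg (b.ld.x 1 - (F 1 + F 2 * b.ld.x 0 + F 3 * b.ld.x 1)) (ν + e))) = Hv s 1 e (ν + e) (b.M.lab i0) F := rfl
  have e4 : H (chgL (b.bd.V i) 1 one_pos (TR.dg (b.ld.x 0) e ⊔
      TR.dg (b.ld.x 1 - (F 1 + F 2 * b.ld.x 0 + F 3 * b.ld.x 1)) (ν + e))) = Hv s 1 e (ν + e) (b.M.lab i) F := rfl
  rw [e3, e4] at h4
  refine h4.trans (add_le_add (div_le_div_of_nonneg_right ?_ he.le) le_rfl)
  linarith

end T1

end

end Pool.Agent.Helper97.T1
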