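import Pool.Agent.Helper98.FR.Ex
import Pool.Agent.Helper80.HCI.Lk

/-! Transport of tame functions along a domination of labels. -/

set_option autoImplicit false

namespace Pool.Agent.Helper97.T1

open Finset Filter Topology Pool.Agent.Helper69.RK Pool.Agent.Helper31.EC Pool.Agent.Helper40.EL
open Pool.Agent.Helper82.TP Pool.Agent.Helper98.FR Pool.Agent.Helper80.HCI
open Pool.Agent.Helper3.LF (sp_dl sp_Sub sp_n)

noncomputable section

open Sp QS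

variable {S : Sp} {l l' : Lab S}

/-- the good indices of a domination -/
def DP (l' l : Lab S) (k : ℕ) : Prop := ∃ r : FPj (l' k).T (l k).T,
  (l' k).V ≤ Setoid.comap r.π (l k).V ∧ ∀ ω, (l' k).T.μ ω ≠ 0 → (l' k).p.π ω = (l k).p.π (r.π ω)

/-- the projection of a domination -/
def dr {k : ℕ} (h : DP l' l k) : FPj (l' k).T (l k).T := h.choose

theorem dr_V {k : ℕ} (h : DP l' l k) : (l' k).V ≤ Setoid.comap (dr h).π (l k).V := h.choose_spec.1

theorem dr_p {k : ℕ} (h : DP l' l k) (ω : (l' k).T.Ω) (hω : (l' k).T.μ ω ≠ 0) :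
    (l' k).p.π ω = (l k).p.π ((dr h).π ω) := h.choose_spec.2 ω hω

theorem ev_DP (hd : Dom l' l) : ∀ᶠ k in UF, DP l' l k := hd

theorem fsp_ne (F : FSp) : Nonempty F.Ω := by
  by_contra h
  rw [not_nonempty_iff] at h
  have h1 := F.ms
  unfold mass at h1
  rw [Finset.univ_eq_empty, Finset.sum_empty] at h1
  exact zero_ne_one h1

open Classical in
/-- the map of the points -/
def dp (l' l : Lab S) (k : ℕ) (ω : (l' k).T.Ω) : (l k).T.Ω :=
  if h : DP l' l k then (dr h).π ω else (fsp_ne (l k).T).some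

theorem dp_eq {k : ℕ} (h : DP l' l k) (ω : (l' k).T.Ω) : dp l' l k ω = (dr h).π ω := dif_pos h

theorem dE_typ (hd : Dom l' l) {E : ∀ k, (l.sp.F k).Ω → Prop} (h : Typ (S := l.sp) E) :
    Typ (S := l'.sp) (fun k ω => E k (dp l' l k ω)) := by
  have h1 := (Pool.Agent.Helper3.LF.typ_iff l E).mp h
  refine (Pool.Agent.Helper3.LF.typ_iff l' _).mpr ?_
  refine squeeze_zero' (Eventually.of_forall fun k => (l' k).T.pb_nonneg _) ?_ h1
  filter_upwards [ev_DP hd] with k hk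
  have e1 := Pool.Agent.Helper42.NS.pb_comp (dr hk) (fun ω => ¬ E k ω)
  rw [← e1]
  apply FSp.pb_mono
  intro ω _ a b
  apply a
  show E k (dp l' l k ω)
  rw [dp_eq hk]
  exact b

theorem sub_lab (l l' : Lab S) {K : ℕ → ℝ} (h : l.sp.Sub K) : l'.sp.Sub K := (sp_Sub l').mpr ((sp_Sub l).mp h)

theorem dp_supp {k : ℕ} (h : DP l' l k) {ω : (l' k).T.Ω} (hω : (l' k).T.μ ω ≠ 0) : (l k).T.μ (dp l' l k ω) ≠ 0 := by
  rw [dp_eq h]
  exact (dr h).supp ω hω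

theorem dp_V {k : ℕ} (h : DP l' l k) {ω ω' : (l' k).T.Ω} (c : (l' k).V ω ω') : (l k).V (dp l' l k ω) (dp l' l k ω') := by
  rw [dp_eq h, dp_eq h]
  exact dr_V h c

theorem dp_Z {k : ℕ} (h : DP l' l k) {ω ω' : (l' k).T.Ω} (a : (l' k).T.μ ω ≠ 0) (b : (l' k).T.μ ω' ≠ 0)
    (c : (l' k).T.Z ω ω') : (l k).T.Z (dp l' l k ω) (dp l' l k ω') := by
  rw [dp_eq h, dp_eq h]
  exact ((dr h).hZ ω ω' a b).mp c

/-- transport of tame functions -/
def dtr (hd : Dom l' l) : TR l.sp →+* TR l'.sp where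
  toFun f := ⟨fun k ω => f.1 k (dp l' l k ω), by
    obtain ⟨K, hK, hb⟩ := f.2
    refine ⟨K, sub_lab l l' hK, ?_⟩
    filter_upwards [hb, ev_DP hd] with k hk h ω hω
    exact hk _ (dp_supp h hω)⟩
  map_one' := rfl
  map_mul' := fun _ _ => rfl
  map_zero' := rfl
  map_add' := fun _ _ => rfl

variable (hd : Dom l' l)

theorem dtr_ev (f : TR l.sp) (k : ℕ) (ω : (l' k).T.Ω) : (dtr hd f).1 k ω = f.1 k (dp l' l k ω) := rfl

theorem dtr_ag {f g : TR l.sp} {r : ℝ} (h : TR.Ag r f g) : TR.Ag r (dtr hd f) (dtr hd g) := by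
  obtain ⟨E, K, hE, hK, hh⟩ := h
  refine ⟨_, K, dE_typ hd hE, sub_lab l l' hK, ?_⟩
  filter_upwards [hh, ev_DP hd] with k hk h ω hω hE'
  have h1 := hk (dp l' l k ω) (dp_supp h hω) hE'
  rw [sp_dl] at h1 ⊢
  exact h1

theorem dtr_mem {f : TR l.sp} {r : ℝ} (h : QS.mk f ∈ Id l.sp r) : QS.mk (dtr hd f) ∈ Id l'.sp r := by
  rw [mk_mem_Id'] at h ⊢
  have h1 := dtr_ag hd h
  rwa [map_zero] at h1

/-- functions of the space -/
theorem dtr_pull (g : TR S) : TR.Te (dtr hd (l.pj.tr g)) (l'.pj.tr g) := by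
  refine ⟨fun _ _ => True, Typ_true, ?_⟩
  filter_upwards [ev_DP hd] with k h (ω : (l' k).T.Ω) hω _
  have e : (l k).p.π (dp l' l k ω) = (l' k).p.π ω := by rw [dp_eq h, dr_p h ω hω]
  exact congrArg (g.1 k) e

theorem dtr_lt {f : TR l.sp} (h : Lt (S := l.sp) l.V f) : Lt (S := l'.sp) l'.V (dtr hd f) := by
  filter_upwards [h, ev_DP hd] with k hk hP (ω : (l' k).T.Ω) (ω' : (l' k).T.Ω) a b c d
  apply hk (dp l' l k ω) (dp l' l k ω') (dp_supp hP a) (dp_supp hP b)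
  · exact dp_V hP c
  · exact dp_Z hP a b d

/-! ### entropies -/

theorem e_dp {k : ℕ} (h : DP l' l k) (A B : Setoid (l k).T.Ω) :
    (l' k).T.e (Setoid.comap (dp l' l k) A) (Setoid.comap (dp l' l k) B ⊓ (l' k).T.Z) = (l k).T.e A (B ⊓ (l k).T.Z) := by
  have h1 : dp l' l k = (dr h).π := funext fun ω => dp_eq h ω
  rw [h1]
  exact (dr h).e_comap_base A B

/-- the partition of the digits of two functions -/
def c2 {U : Sp} (f g : TR U) (r r' : ℝ) (k : ℕ) : Setoid (U.F k).Ω :=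
  Setoid.ker ((TR.vec (fun _ : Fin 1 => f)).cellv r k) ⊓ Setoid.ker ((TR.vec (fun _ : Fin 1 => g)).cellv r' k)

theorem H_c2 {U : Sp} (Z : ∀ k, Setoid (U.F k).Ω) (f g : TR U) (r r' : ℝ) :
    UB (fun k => (U.F k).e (c2 f g r r' k) (Z k ⊓ (U.F k).Z) / (U.F k).n) ∧
    H (chgL Z 1 one_pos (TR.dg f r ⊔ TR.dg g r')) = ul (fun k => (U.F k).e (c2 f g r r' k) (Z k ⊓ (U.F k).Z) / (U.F k).n) := by
  have e1 : TR.dg f r = cl ((TR.vec (fun _ : Fin 1 => f)).bdd r).toInf := io_eq _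
  have e2 : TR.dg g r' = cl ((TR.vec (fun _ : Fin 1 => g)).bdd r').toInf := io_eq _
  have key : (U.chg Z 1 one_pos).rt (chgI Z 1 one_pos (Inf.sup ((TR.vec (fun _ : Fin 1 => f)).bdd r).toInf
      ((TR.vec (fun _ : Fin 1 => g)).bdd r').toInf)).1 (U.chg Z 1 one_pos).tr =
      fun k => (U.F k).e (c2 f g r r' k) (Z k ⊓ (U.F k).Z) / (U.F k).n := by
    funext k
    have h1 : (U.chg Z 1 one_pos).rt (chgI Z 1 one_pos (Inf.sup ((TR.vec (fun _ : Fin 1 => f)).bdd r).toInf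
      ((TR.vec (fun _ : Fin 1 => g)).bdd r').toInf)).1 (U.chg Z 1 one_pos).tr k =
        (U.F k).e (c2 f g r r' k) (⊤ ⊓ (Z k ⊓ (U.F k).Z)) / (1 * (U.F k).n) := rfl
    rw [h1, one_mul, top_inf_eq]
  constructor
  · rw [← key]
    exact UB_rt _ _
  · rw [e1, e2, ← cl_sup, chgL_cl, H_cl, key]

/-- ENTROPIES over a dominating label are smaller -/
theorem H_dtr_le (f g : TR l.sp) (r r' : ℝ) :
    H (chgL (S := l'.sp) l'.V 1 one_pos (TR.dg (dtr hd f) r ⊔ TR.dg (dtr hd g) r')) ≤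
      H (chgL (S := l.sp) l.V 1 one_pos (TR.dg f r ⊔ TR.dg g r')) := by
  obtain ⟨u1, h1⟩ := H_c2 (U := l'.sp) l'.V (dtr hd f) (dtr hd g) r r'
  obtain ⟨u2, h2⟩ := H_c2 (U := l.sp) l.V f g r r'
  rw [h1, h2]
  apply ul_mono u1 u2
  filter_upwards [ev_DP hd] with k hk
  have e1 : (l'.sp.F k).n = (l.sp.F k).n := (l' k).hn.trans (l k).hn.symm
  rw [e1]
  apply div_le_div_of_nonneg_right _ (l.sp.F k).pos.le
  have e2 : c2 (dtr hd f) (dtr hd g) r r' k = Setoid.comap (dp l' l k) (c2 f g r r' k) := by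
    have e3 : ∀ (u : TR l.sp) (ρ : ℝ), Setoid.ker ((TR.vec (fun _ : Fin 1 => dtr hd u)).cellv ρ k) =
        Setoid.comap (dp l' l k) (Setoid.ker ((TR.vec (fun _ : Fin 1 => u)).cellv ρ k)) := by
      intro u ρ
      have e4 : (TR.vec (fun _ : Fin 1 => dtr hd u)).cellv ρ k =
          fun ω => (TR.vec (fun _ : Fin 1 => u)).cellv ρ k (dp l' l k ω) := by
        funext ω i
        have e5 : l'.sp.dl ρ k = l.sp.dl ρ k := by rw [sp_dl, sp_dl]
        show ⌊(u.1 k (dp l' l k ω)) / l'.sp.dl ρ k⌋ = ⌊(u.1 k (dp l' l k ω)) / l.sp.dl ρ k⌋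
        rw [e5]
      rw [e4]
      rfl
    unfold c2
    rw [e3, e3]
    rfl
  rw [e2]
  have e6 : (l' k).T.e (Setoid.comap (dp l' l k) (c2 f g r r' k)) (l'.V k ⊓ (l' k).T.Z) ≤
      (l' k).T.e (Setoid.comap (dp l' l k) (c2 f g r r' k)) (Setoid.comap (dp l' l k) (l.V k) ⊓ (l' k).T.Z) :=
    (l' k).T.e_anti fun ω ω' _ _ h => ⟨dp_V hk h.1, h.2⟩
  exact e6.trans (e_dp hk _ _).le

end

end Pool.Agent.Helper97.T1
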