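import Pool.Agent.Helper98.FR.Vel
import Pool.Agent.Helper57.TA.Sc

/-! Velocities relative to the frames of nested windows: over the label of the fine window the first digits of the
direction and the velocity relative to the frame of the coarse window are equivalent to the first digits of the direction
and the velocity relative to the frame of the fine window. -/

set_option autoImplicit false

namespace Pool.Agent.Helper97.T1

open Finset Filter Topology Pool.Agent.Helper69.RK Pool.Agent.Helper31.EC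
open Pool.Agent.Helper82.TP Pool.Agent.Helper40.EL Pool.Agent.Helper60.CS Pool.Agent.Helper98.FR

noncomputable section

open Sp QS Pool.Agent.Helper80.MX

variable {S : Sp} (B : BD S)

/-- two frames of one window -/
theorem two {i : ℕ} {ρ : ℝ} (hρ : ρ ≤ 1) {Y : TR S} {u w : Fin 3 → TR S} (lu : ∀ a, Lt (B.V i) (u a))
    (lw : ∀ a, Lt (B.V i) (w a))
    (mu : QS.mk Y - (QS.mk (u 0) + QS.mk (u 1) * QS.mk B.t + QS.mk (u 2) * QS.mk B.y) ∈ Id S ρ)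
    (mw : QS.mk Y - (QS.mk (w 0) + QS.mk (w 1) * QS.mk B.t + QS.mk (w 2) * QS.mk B.y) ∈ Id S ρ) (a : Fin 3) (ha : a ≠ 0) :
    QS.mk (w a) - QS.mk (u a) ∈ Id S (ρ - B.q i) := by
  have hm : QS.mk (w 0 - u 0) + QS.mk (w 1 - u 1) * QS.mk B.t + QS.mk (w 2 - u 2) * QS.mk B.y +
      QS.mk (0 : TR S) * QS.mk B.R ∈ Id S ρ := by
    have h1 := (Id S ρ).sub_mem mu mw
    have e : QS.mk Y - (QS.mk (u 0) + QS.mk (u 1) * QS.mk B.t + QS.mk (u 2) * QS.mk B.y) -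
        (QS.mk Y - (QS.mk (w 0) + QS.mk (w 1) * QS.mk B.t + QS.mk (w 2) * QS.mk B.y)) =
        QS.mk (w 0 - u 0) + QS.mk (w 1 - u 1) * QS.mk B.t + QS.mk (w 2 - u 2) * QS.mk B.y +
        QS.mk (0 : TR S) * QS.mk B.R := by
      simp only [map_sub, map_zero]; ring
    rwa [e] at h1
  have l0 : Lt (B.V i) (0 : TR S) := Eventually.of_forall fun k ω ω' _ _ _ _ => rfl
  obtain ⟨-, h2, h3, -⟩ := box_small (B.V i) (B.lt i) (B.ly i) (B.lr i 0) (B.lr i 1) (B.lr i 2) (B.q0 i) (B.q1 i)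
    (B.lam0 i) (B.lam1 i) (B.ht i) (B.hy i) (B.hr i) (B.full i) ((lw 0).sub (lu 0)) ((lw 1).sub (lu 1))
    ((lw 2).sub (lu 2)) l0 hρ hm
  rw [map_zero, zero_mul, add_zero, map_sub] at h2 h3
  fin_cases a
  · exact absurd rfl ha
  · exact h2
  · exact h3

/-- SLOPES of the frames over `(t, y)` of a function `Y` whose depth grows at least with the windows -/
theorem slopes {i0 : ℕ} {b ν : ℝ} (hd : B.Dn i0 b) {Y : TR S} {f : Fin 3 → TR S} {g : ℕ → Fin 3 → TR S}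
    (hν : ν + b ≤ 1) (hi0 : B.q i0 ≤ b) (l0 : ∀ a, Lt (B.V i0) (f a))
    (hl : ∀ j, B.q i0 ≤ B.q j → B.q j ≤ b → ∀ a, Lt (B.V j) (g j a))
    (m0 : QS.mk Y - (QS.mk (f 0) + QS.mk (f 1) * QS.mk B.t + QS.mk (f 2) * QS.mk B.y) ∈ Id S (ν + B.q i0))
    (hm : ∀ j, B.q i0 ≤ B.q j → B.q j ≤ b →
      QS.mk Y - (QS.mk (g j 0) + QS.mk (g j 1) * QS.mk B.t + QS.mk (g j 2) * QS.mk B.y) ∈ Id S (ν + B.q j))
    {i : ℕ} (h : B.q i0 ≤ B.q i) (hb : B.q i ≤ b) (a : Fin 3) (ha : a ≠ 0) : QS.mk (g i a) - QS.mk (f a) ∈ Id S ν := by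
  apply mem_Id_of_forall
  intro ε hε
  revert i
  have := chain (q := B.q) (i0 := i0) (b := b) hε hd (fun i => QS.mk (g i a) - QS.mk (f a) ∈ Id S (ν - ε)) ?_ ?_
  · intro i h1 h2
    exact this i h1 h2
  · have h1 := two B (i := i0) (ρ := ν + B.q i0) (by linarith) l0 (hl i0 le_rfl hi0) m0 (hm i0 le_rfl hi0) a ha
    exact Id_anti (by linarith) h1
  · intro j i h1 h2 h3 h4 h5
    have h6 := two B (i := i) (ρ := ν + B.q j) (by linarith) (fun a => (hl j h1 (h2.trans h3) a).mono (B.nest j i h2))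
      (hl i (h1.trans h2) h3) (hm j h1 (h2.trans h3)) (Id_anti (by linarith) (hm i (h1.trans h2) h3)) a ha
    have h7 := (Id S (ν - ε)).add_mem (Id_anti (by linarith) h6) h5
    have e : QS.mk (g i a) - QS.mk (g j a) + (QS.mk (g j a) - QS.mk (f a)) = QS.mk (g i a) - QS.mk (f a) := by ring
    rwa [e] at h7

/-- TILTS: the tilt of the sheet of a window and the tilt of a given frame of a coarser window -/
theorem tilts {i0 : ℕ} {b ν : ℝ} (hd : B.Dn i0 b) {f : Fin 4 → TR S} (lf : ∀ a, Lt (B.V i0) (f a))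
    (hν : ν + B.q i0 ≤ B.eta i0)
    (m0 : QS.mk B.z - (QS.mk (f 0) + QS.mk (f 1) * QS.mk B.t + QS.mk (f 2) * QS.mk B.y + QS.mk (f 3) * QS.mk B.R) ∈
      Id S (ν + B.q i0)) {i : ℕ} (h : B.q i0 ≤ B.q i) (hb : B.q i ≤ b) :
    QS.mk (B.c i 3) - QS.mk (f 3) ∈ Id S (ν + B.q i - B.lam i) := by
  apply mem_Id_of_forall
  intro ε hε
  revert i
  have := chain (q := B.q) (i0 := i0) (b := b) hε hd
    (fun i => QS.mk (B.c i 3) - QS.mk (f 3) ∈ Id S (ν + B.q i - B.lam i - ε)) ?_ ?_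
  · intro i h1 h2
    exact this i h1 h2
  · have hρ : ν + B.q i0 ≤ 1 := hν.trans (B.eta1 i0)
    have hm : QS.mk (B.c i0 0 - f 0) + QS.mk (B.c i0 1 - f 1) * QS.mk B.t + QS.mk (B.c i0 2 - f 2) * QS.mk B.y +
        QS.mk (B.c i0 3 - f 3) * QS.mk B.R ∈ Id S (ν + B.q i0) := by
      have h1 := (Id S _).sub_mem m0 (Id_anti hν (B.hc i0))
      have e : QS.mk B.z - (QS.mk (f 0) + QS.mk (f 1) * QS.mk B.t + QS.mk (f 2) * QS.mk B.y + QS.mk (f 3) * QS.mk B.R) -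
          (QS.mk B.z - (QS.mk (B.c i0 0) + QS.mk (B.c i0 1) * QS.mk B.t + QS.mk (B.c i0 2) * QS.mk B.y +
            QS.mk (B.c i0 3) * QS.mk B.R)) =
          QS.mk (B.c i0 0 - f 0) + QS.mk (B.c i0 1 - f 1) * QS.mk B.t + QS.mk (B.c i0 2 - f 2) * QS.mk B.y +
          QS.mk (B.c i0 3 - f 3) * QS.mk B.R := by
        simp only [map_sub]; ring
      rwa [e] at h1
    obtain ⟨h1, -, -, -⟩ := box_small (B.V i0) (B.lt i0) (B.ly i0) (B.lr i0 0) (B.lr i0 1) (B.lr i0 2) (B.q0 i0) (B.q1 i0)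
      (B.lam0 i0) (B.lam1 i0) (B.ht i0) (B.hy i0) (B.hr i0) (B.full i0) ((B.lc i0 0).sub (lf 0)) ((B.lc i0 1).sub (lf 1))
      ((B.lc i0 2).sub (lf 2)) ((B.lc i0 3).sub (lf 3)) hρ hm
    rw [map_sub] at h1
    exact Id_anti (by linarith) h1
  · intro j i h1 h2 h3 h4 h5
    have h6 := (B.step_c h2).1
    have h7 := B.seta i0 j h1
    have h8 := B.slam j i h2
    have h9 := (Id S (ν + B.q i - B.lam i - ε)).add_mem (Id_anti (by linarith) h6) (Id_anti (by linarith) h5)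
    have e : QS.mk (B.c i 3) - QS.mk (B.c j 3) + (QS.mk (B.c j 3) - QS.mk (f 3)) = QS.mk (B.c i 3) - QS.mk (f 3) := by ring
    rwa [e] at h9

/-- the frame of the window `i` with a given tilt -/
def tf (f3 : TR S) (i : ℕ) (a : Fin 3) : TR S := B.c i a.castSucc + (B.c i 3 - f3) * B.r i a

theorem tf_lt {f3 : TR S} {i : ℕ} (h : Lt (B.V i) f3) (a : Fin 3) : Lt (B.V i) (tf B f3 i a) :=
  (B.lc i _).add (((B.lc i 3).sub h).mul (B.lr i a))

/-- the frame with a given tilt is as deep as the given frame -/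
theorem tf_mem {i0 : ℕ} {b ν : ℝ} (hd : B.Dn i0 b) {f : Fin 4 → TR S} (lf : ∀ a, Lt (B.V i0) (f a))
    (hν : ν + B.q i0 ≤ B.eta i0)
    (m0 : QS.mk B.z - (QS.mk (f 0) + QS.mk (f 1) * QS.mk B.t + QS.mk (f 2) * QS.mk B.y + QS.mk (f 3) * QS.mk B.R) ∈
      Id S (ν + B.q i0)) {i : ℕ} (h : B.q i0 ≤ B.q i) (hb : B.q i ≤ b) :
    QS.mk (B.z - f 3 * B.R) - (QS.mk (tf B (f 3) i 0) + QS.mk (tf B (f 3) i 1) * QS.mk B.t +
      QS.mk (tf B (f 3) i 2) * QS.mk B.y) ∈ Id S (ν + B.q i) := by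
  have h1 := tilts B hd lf hν m0 h hb
  have h2 := B.hr i
  have h3 := B.hc i
  have hs := B.seta i0 i h
  have hl := B.lam1 i
  have hq := B.qlam i
  have hν1 : ν + B.q i - B.lam i ≤ 1 := by
    have := B.eta1 i
    have := B.lam0 i
    linarith
  have h4 := Id_mul hν1 hl h1 h2
  rw [sub_add_cancel] at h4
  have h5 := (Id S _).add_mem (Id_anti (show ν + B.q i ≤ B.eta i by linarith) h3) h4
  have e : QS.mk B.z - (QS.mk (B.c i 0) + QS.mk (B.c i 1) * QS.mk B.t + QS.mk (B.c i 2) * QS.mk B.y +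
      QS.mk (B.c i 3) * QS.mk B.R) + (QS.mk (B.c i 3) - QS.mk (f 3)) *
      (QS.mk B.R - (QS.mk (B.r i 0) + QS.mk (B.r i 1) * QS.mk B.t + QS.mk (B.r i 2) * QS.mk B.y)) =
      QS.mk (B.z - f 3 * B.R) - (QS.mk (tf B (f 3) i 0) + QS.mk (tf B (f 3) i 1) * QS.mk B.t +
      QS.mk (tf B (f 3) i 2) * QS.mk B.y) := by
    have e0 : QS.mk (tf B (f 3) i 0) = QS.mk (B.c i 0) + (QS.mk (B.c i 3) - QS.mk (f 3)) * QS.mk (B.r i 0) := rfl
    have e1 : QS.mk (tf B (f 3) i 1) = QS.mk (B.c i 1) + (QS.mk (B.c i 3) - QS.mk (f 3)) * QS.mk (B.r i 1) := rfl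
    have e2 : QS.mk (tf B (f 3) i 2) = QS.mk (B.c i 2) + (QS.mk (B.c i 3) - QS.mk (f 3)) * QS.mk (B.r i 2) := rfl
    rw [e0, e1, e2, map_sub, map_mul]
    ring
  rwa [e] at h5

/-! ### digits over a label -/

/-- digits of a function over the label `i` -/
abbrev dgo (i : ℕ) (f : TR S) (r : ℝ) : (S.chg (B.V i) 1 one_pos).L := chgL (B.V i) 1 one_pos (TR.dg f r)

theorem dgo_eq (i : ℕ) (f : TR S) {r : ℝ} (hr : r ≤ 1) : dg (qc (B.V i) (QS.mk f)) r = dgo B i f r := by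
  rw [qc_dg, dg_mk _ hr]

/-- two velocities which differ by a known affine function of the direction -/
theorem dgo_le {i : ℕ} {u v x δ1 δ2 : TR S} {ν e : ℝ} (l1 : Lt (B.V i) δ1) (l2 : Lt (B.V i) δ2)
    (m2 : QS.mk δ2 ∈ Id S ν) (he : e ≤ 1) (hν : ν ≤ 1) (hνe : ν + e ≤ 1)
    (huv : QS.mk u - QS.mk v = QS.mk δ1 + QS.mk δ2 * QS.mk x) :
    dgo B i u (ν + e) ≤ dgo B i x e ⊔ dgo B i v (ν + e) := by
  rw [← dgo_eq B i u hνe, ← dgo_eq B i v hνe, ← dgo_eq B i x he]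
  have e1 : qc (B.V i) (QS.mk u) = qc (B.V i) (QS.mk v) + (qc (B.V i) (QS.mk δ1) +
      qc (B.V i) (QS.mk x) * qc (B.V i) (QS.mk δ2)) := by
    rw [← map_mul, ← map_add, ← map_add]
    congr 1
    rw [mul_comm (QS.mk x), ← huv]
    ring
  rw [e1]
  refine (dg_add_le _ _ hνe).trans (sup_le le_sup_right ((dg_add_le _ _ hνe).trans (sup_le ?_ ?_)))
  · rw [l1.qc_bot (B.V i)]
    exact bot_le
  · refine (dg_mul_small _ _ hνe he hν ((qc_mem_Id (B.V i)).mpr m2)).trans (sup_le le_sup_left ?_)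
    rw [l2.qc_bot (B.V i)]
    exact bot_le

theorem Dn_mono {i0 : ℕ} {b b' : ℝ} (hd : B.Dn i0 b) (h : b' ≤ b) : B.Dn i0 b' := fun a a' h1 h2 h3 =>
  hd a a' h1 h2 (h3.trans h)

/-- velocities relative to a frame of the window `i0` and to the frames of finer windows: equivalent digits -/
theorem vel_eq {i0 : ℕ} {b ν e : ℝ} (hd : B.Dn i0 b) {Y : TR S} {f : Fin 3 → TR S} {g : ℕ → Fin 3 → TR S}
    (l0 : ∀ a, Lt (B.V i0) (f a))
    (hl : ∀ j, B.q i0 ≤ B.q j → B.q j ≤ b → ∀ a, Lt (B.V j) (g j a))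
    (m0 : QS.mk Y - (QS.mk (f 0) + QS.mk (f 1) * QS.mk B.t + QS.mk (f 2) * QS.mk B.y) ∈ Id S (ν + B.q i0))
    (hm : ∀ j, B.q i0 ≤ B.q j → B.q j ≤ b →
      QS.mk Y - (QS.mk (g j 0) + QS.mk (g j 1) * QS.mk B.t + QS.mk (g j 2) * QS.mk B.y) ∈ Id S (ν + B.q j))
    {i : ℕ} (h : B.q i0 ≤ B.q i) (hb : B.q i ≤ b) (hν : ν + B.q i ≤ 1) (he : e ≤ 1) (hνe : ν + e ≤ 1) (x w : TR S) :
    dgo B i x e ⊔ dgo B i (w - (g i 1 + g i 2 * x)) (ν + e) = dgo B i x e ⊔ dgo B i (w - (f 1 + f 2 * x)) (ν + e) := by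
  have key : ∀ a : Fin 3, a ≠ 0 → QS.mk (g i a) - QS.mk (f a) ∈ Id S ν := fun a ha =>
    slopes B (b := B.q i) (Dn_mono B hd hb) hν h l0 (fun j h1 h2 => hl j h1 (h2.trans hb)) m0
      (fun j h1 h2 => hm j h1 (h2.trans hb)) h le_rfl a ha
  have l : ∀ a, Lt (B.V i) (f a) := fun a => (l0 a).mono (B.nest i0 i h)
  have lg := hl i h hb
  have hν1 : ν ≤ 1 := by
    have := B.q0 i
    linarith
  apply le_antisymm
  · refine sup_le le_sup_left (dgo_le B (δ1 := f 1 - g i 1) (δ2 := f 2 - g i 2) ((l 1).sub (lg 1))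
      ((l 2).sub (lg 2)) ?_ he hν1 hνe ?_)
    · have h1 := (Id S ν).neg_mem (key 2 (by decide))
      rwa [neg_sub, ← map_sub] at h1
    · simp only [map_sub, map_add, map_mul]
      ring
  · refine sup_le le_sup_left (dgo_le B (δ1 := g i 1 - f 1) (δ2 := g i 2 - f 2) ((lg 1).sub (l 1))
      ((lg 2).sub (l 2)) ?_ he hν1 hνe ?_)
    · have h1 := key 2 (by decide)
      rwa [← map_sub] at h1
    · simp only [map_sub, map_add, map_mul]
      ring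

/-- the velocity of `R` relative to a frame of the window `i0` and to the slab of the window `i` -/
theorem vr_gen (D : LD B) {i0 i : ℕ} {b e ν : ℝ} (hd : B.Dn i0 b) (h : B.q i0 ≤ B.q i) (hb : B.q i ≤ b)
    (he : e ≤ 1) (hνe : ν + e ≤ 1) (hν : ν ≤ B.lam i0 - B.q i0) {f : Fin 3 → TR S} (l0 : ∀ a, Lt (B.V i0) (f a))
    (m0 : QS.mk B.R - (QS.mk (f 0) + QS.mk (f 1) * QS.mk B.t + QS.mk (f 2) * QS.mk B.y) ∈ Id S (ν + B.q i0)) :
    dgo B i (D.x 0) e ⊔ dgo B i (D.vr i) (ν + e) =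
      dgo B i (D.x 0) e ⊔ dgo B i (D.x 1 - (f 1 + f 2 * D.x 0)) (ν + e) := by
  have hlj : ∀ j, B.q i0 ≤ B.q j → ν + B.q j ≤ B.lam j := fun j hj => by
    have := B.slam i0 j hj
    linarith
  exact vel_eq B hd (Y := B.R) (g := B.r) l0 (fun j _ _ => B.lr j) m0 (fun j h1 _ => Id_anti (hlj j h1) (B.hr j)) h hb
    ((hlj i h).trans (B.lam1 i)) he hνe (D.x 0) (D.x 1)

/-- ROW A_R1: the velocity of `R` relative to the slabs of two windows. `Φ_j = h(x_e, (v_j)_(σ_j + e) | V_j)`: then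
`h_(V_i)(X_i0) ≥ Φ_i - (σ_i - σ_i0)`. -/
theorem vr_le (D : LD B) {i0 i : ℕ} {b e : ℝ} (hd : B.Dn i0 b) (h : B.q i0 ≤ B.q i) (hb : B.q i ≤ b)
    (he : e ≤ 1) (hσ : B.lam i0 - B.q i0 + e ≤ 1) :
    dgo B i (D.x 0) e ⊔ dgo B i (D.vr i) (B.lam i0 - B.q i0 + e) =
      dgo B i (D.x 0) e ⊔ dgo B i (D.vr i0) (B.lam i0 - B.q i0 + e) :=
  vr_gen B D hd h hb he hσ le_rfl (B.lr i0) (Id_anti (by linarith) (B.hr i0))

/-- digits beyond a level -/
theorem H_dgo_step {i : ℕ} {f : TR S} {X : (S.chg (B.V i) 1 one_pos).L} {r r' : ℝ} (h : r ≤ r') (h1 : r' ≤ 1) :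
    H (X ⊔ dgo B i f r') ≤ H (X ⊔ dgo B i f r) + (r' - r) := by
  have e1 : X ⊔ dgo B i f r' ≤ (X ⊔ dgo B i f r) ⊔ dgo B i f r' := sup_le (le_sup_left.trans le_sup_left) le_sup_right
  refine (H_mono e1).trans ?_
  rw [H_chain]
  have e2 : Pool.Agent.Helper31.EC.h (dgo B i f r') (X ⊔ dgo B i f r) ≤ Pool.Agent.Helper31.EC.h (dgo B i f r') (dgo B i f r) :=
    h_anti le_sup_right
  have e3 : Pool.Agent.Helper31.EC.h (dgo B i f r') (dgo B i f r) ≤ r' - r := by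
    rw [← dgo_eq B i f h1, ← dgo_eq B i f (h.trans h1)]
    exact QS.h_dg_dg _ h
  linarith

/-- ROW A_R1, entropies: `Φ_i ≤ h_(V_i)(X_i0) + (σ_i - σ_i0)` -/
theorem Phi_le (D : LD B) {i0 i : ℕ} {b e : ℝ} (hd : B.Dn i0 b) (h : B.q i0 ≤ B.q i) (hb : B.q i ≤ b)
    (he : e ≤ 1) (hσ : B.lam i - B.q i + e ≤ 1) :
    H (dgo B i (D.x 0) e ⊔ dgo B i (D.vr i) (B.lam i - B.q i + e)) ≤
      H (dgo B i (D.x 0) e ⊔ dgo B i (D.vr i0) (B.lam i0 - B.q i0 + e)) +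
        ((B.lam i - B.q i) - (B.lam i0 - B.q i0)) := by
  have h1 := B.slam i0 i h
  rw [← vr_le B D hd h hb he (by linarith)]
  have h2 := H_dgo_step B (i := i) (f := D.vr i) (X := dgo B i (D.x 0) e) (r := B.lam i0 - B.q i0 + e)
    (r' := B.lam i - B.q i + e) (by linarith) hσ
  linarith

/-- the velocity of `z` relative to a frame -/
def vf {B : BD S} (D : LD B) (f : Fin 4 → TR S) : TR S := D.x 2 - (f 1 + f 2 * D.x 0 + f 3 * D.x 1)

/-- the frame of the window `i` with the tilt of `f` -/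
def fw (f : Fin 4 → TR S) (i : ℕ) : Fin 4 → TR S := ![tf B (f 3) i 0, tf B (f 3) i 1, tf B (f 3) i 2, f 3]

theorem fw_lt {f : Fin 4 → TR S} {i : ℕ} (h : ∀ a, Lt (B.V i) (f a)) (a : Fin 4) : Lt (B.V i) (fw B f i a) := by
  fin_cases a
  · exact tf_lt B (h 3) 0
  · exact tf_lt B (h 3) 1
  · exact tf_lt B (h 3) 2
  · exact h 3

/-- forward transport of frames of `z`: depth -/
theorem fw_mem {i0 : ℕ} {b ν : ℝ} (hd : B.Dn i0 b) {f : Fin 4 → TR S} (lf : ∀ a, Lt (B.V i0) (f a))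
    (hν : ν + B.q i0 ≤ B.eta i0)
    (m0 : QS.mk B.z - (QS.mk (f 0) + QS.mk (f 1) * QS.mk B.t + QS.mk (f 2) * QS.mk B.y + QS.mk (f 3) * QS.mk B.R) ∈
      Id S (ν + B.q i0)) {i : ℕ} (h : B.q i0 ≤ B.q i) (hb : B.q i ≤ b) :
    QS.mk B.z - (QS.mk (fw B f i 0) + QS.mk (fw B f i 1) * QS.mk B.t + QS.mk (fw B f i 2) * QS.mk B.y +
      QS.mk (fw B f i 3) * QS.mk B.R) ∈ Id S (ν + B.q i) := by
  have h1 := tf_mem B hd lf hν m0 h hb
  have e : QS.mk (B.z - f 3 * B.R) - (QS.mk (tf B (f 3) i 0) + QS.mk (tf B (f 3) i 1) * QS.mk B.t +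
      QS.mk (tf B (f 3) i 2) * QS.mk B.y) = QS.mk B.z - (QS.mk (fw B f i 0) + QS.mk (fw B f i 1) * QS.mk B.t +
      QS.mk (fw B f i 2) * QS.mk B.y + QS.mk (fw B f i 3) * QS.mk B.R) := by
    have e0 : fw B f i 0 = tf B (f 3) i 0 := rfl
    have e1 : fw B f i 1 = tf B (f 3) i 1 := rfl
    have e2 : fw B f i 2 = tf B (f 3) i 2 := rfl
    have e3 : fw B f i 3 = f 3 := rfl
    rw [e0, e1, e2, e3, map_sub, map_mul]
    ring
  rwa [e] at h1

theorem ring_vf {A : Type*} [CommRing A] (x2 x1 x0 a b c : A) :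
    x2 - (a + b * x0 + c * x1) = (x2 - c * x1) - (a + b * x0) := by ring

/-- forward transport of frames of `z`: the velocity over the label of the fine window -/
theorem fw_vf (D : LD B) {i0 : ℕ} {b ν e : ℝ} (hd : B.Dn i0 b) {f : Fin 4 → TR S} (lf : ∀ a, Lt (B.V i0) (f a))
    (hν : ν + B.q i0 ≤ B.eta i0)
    (m0 : QS.mk B.z - (QS.mk (f 0) + QS.mk (f 1) * QS.mk B.t + QS.mk (f 2) * QS.mk B.y + QS.mk (f 3) * QS.mk B.R) ∈
      Id S (ν + B.q i0)) {i : ℕ} (h : B.q i0 ≤ B.q i) (hb : B.q i ≤ b) (he : e ≤ 1) (hνe : ν + e ≤ 1) :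
    dgo B i (D.x 0) e ⊔ dgo B i (vf D (fw B f i)) (ν + e) = dgo B i (D.x 0) e ⊔ dgo B i (vf D f) (ν + e) := by
  have hs := B.seta i0 i h
  have hη := B.eta1 i
  have e1 : vf D (fw B f i) = (D.x 2 - f 3 * D.x 1) - (tf B (f 3) i 1 + tf B (f 3) i 2 * D.x 0) :=
    ring_vf _ _ _ _ _ _
  have e2 : vf D f = (D.x 2 - f 3 * D.x 1) - (f (Fin.castSucc 1) + f (Fin.castSucc 2) * D.x 0) :=
    ring_vf _ _ _ _ _ _
  rw [e1, e2]
  refine vel_eq B hd (Y := B.z - f 3 * B.R) (f := fun a => f a.castSucc) (g := tf B (f 3)) (fun a => lf _)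
    (fun j h1 _ => tf_lt B ((lf 3).mono (B.nest i0 j h1))) ?_
    (fun j h1 h2 => tf_mem B hd lf hν m0 h1 h2) h hb (by linarith) he hνe (D.x 0) (D.x 2 - f 3 * D.x 1)
  have e : QS.mk (B.z - f 3 * B.R) - (QS.mk (f (Fin.castSucc 0)) + QS.mk (f (Fin.castSucc 1)) * QS.mk B.t +
      QS.mk (f (Fin.castSucc 2)) * QS.mk B.y) = QS.mk B.z - (QS.mk (f 0) + QS.mk (f 1) * QS.mk B.t +
      QS.mk (f 2) * QS.mk B.y + QS.mk (f 3) * QS.mk B.R) := by
    have e0 : f (Fin.castSucc 0) = f 0 := rfl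
    have e1 : f (Fin.castSucc 1) = f 1 := rfl
    have e2 : f (Fin.castSucc 2) = f 2 := rfl
    rw [e0, e1, e2, map_sub, map_mul]
    ring
  rw [e]
  exact m0

end

end Pool.Agent.Helper97.T1
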