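import Pool.Agent.Helper98.FR.Tr
import Pool.Agent.Helper97.T1.Dm
import Pool.Agent.Helper97.T1.Up

/-! Entropies over a dominating label; frames of `R` or `z` over a label; their transport to a box. -/

set_option autoImplicit false

namespace Pool.Agent.Helper97.T1

open Finset Filter Topology Pool.Agent.Helper69.RK Pool.Agent.Helper31.EC Pool.Agent.Helper60.CS
open Pool.Agent.Helper82.TP Pool.Agent.Helper40.EL Pool.Agent.Helper98.FR
open Pool.Agent.Helper42.NS Pool.Agent.Helper91.GR Pool.Agent.Helper52.KP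

noncomputable section

open Sp QS Pool.Agent.Helper80.MX

variable {S : Sp} {l l' : Lab S}

theorem e_phi {k : ℕ} (h : Dom.Pr l' l k) (A B : Setoid (l k).T.Ω) :
    (l' k).T.e (Setoid.comap (Dom.phi l' l k) A) (Setoid.comap (Dom.phi l' l k) B ⊓ (l' k).T.Z) =
      (l k).T.e A (B ⊓ (l k).T.Z) := by
  obtain ⟨r, h1, -⟩ := Dom.phi_eq l' l h
  rw [h1]
  exact r.e_comap_base A B

/-- ENTROPIES over a dominating label are smaller -/
theorem H_tr_le (hd : Dom l' l) (f g : TR l.sp) (r r' : ℝ) :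
    H (chgL (S := l'.sp) l'.V 1 one_pos (TR.dg (Dom.tr l' l f) r ⊔ TR.dg (Dom.tr l' l g) r')) ≤
      H (chgL (S := l.sp) l.V 1 one_pos (TR.dg f r ⊔ TR.dg g r')) := by
  obtain ⟨u1, h1⟩ := H_c2 (U := l'.sp) l'.V (Dom.tr l' l f) (Dom.tr l' l g) r r'
  obtain ⟨u2, h2⟩ := H_c2 (U := l.sp) l.V f g r r'
  rw [h1, h2]
  apply ul_mono u1 u2
  filter_upwards [hd] with k hk
  have e1 : (l'.sp.F k).n = (l.sp.F k).n := (l' k).hn.trans (l k).hn.symm
  rw [e1]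
  apply div_le_div_of_nonneg_right _ (l.sp.F k).pos.le
  have e2 : c2 (Dom.tr l' l f) (Dom.tr l' l g) r r' k = Setoid.comap (Dom.phi l' l k) (c2 f g r r' k) := by
    have e3 : ∀ (u : TR l.sp) (ρ : ℝ), Setoid.ker ((TR.vec (fun _ : Fin 1 => Dom.tr l' l u)).cellv ρ k) =
        Setoid.comap (Dom.phi l' l k) (Setoid.ker ((TR.vec (fun _ : Fin 1 => u)).cellv ρ k)) := by
      intro u ρ
      have e4 : (TR.vec (fun _ : Fin 1 => Dom.tr l' l u)).cellv ρ k =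
          fun ω => (TR.vec (fun _ : Fin 1 => u)).cellv ρ k (Dom.phi l' l k ω) := by
        funext ω i
        have e5 : l'.sp.dl ρ k = l.sp.dl ρ k := by
          unfold Sp.dl
          rw [e1]
        show ⌊(u.1 k (Dom.phi l' l k ω)) / l'.sp.dl ρ k⌋ = ⌊(u.1 k (Dom.phi l' l k ω)) / l.sp.dl ρ k⌋
        rw [e5]
      rw [e4]
      rfl
    unfold c2
    rw [e3, e3]
    rfl
  rw [e2]
  have e6 : (l' k).T.e (Setoid.comap (Dom.phi l' l k) (c2 f g r r' k)) (l'.V k ⊓ (l' k).T.Z) ≤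
      (l' k).T.e (Setoid.comap (Dom.phi l' l k) (c2 f g r r' k)) (Setoid.comap (Dom.phi l' l k) (l.V k) ⊓ (l' k).T.Z) := by
    apply (l' k).T.e_anti
    intro ω ω' _ _ h
    refine ⟨?_, h.2⟩
    obtain ⟨r, h3, h4, -⟩ := Dom.phi_eq l' l (show Dom.Pr l' l k from hk)
    rw [h3]
    exact h4 h.1
  exact e6.trans (e_phi hk _ _).le

/-! ### frames over labels -/

/-- `f` is a frame of depth `ρ` of the coordinate `j` over the label `l` (without tilt if `j = 1`) -/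
structure Frz (s : Sys S 3) (j : Fin 3) (ρ : ℝ) (l : Lab S) (f : Fin 4 → TR l.sp) : Prop where
  lt : ∀ a, Lt (S := l.sp) l.V (f a)
  tl : j = 1 → f 3 = 0
  mem : QS.mk (TR.cor (s.pull l.pj).P j) - (QS.mk (f 0) + QS.mk (f 1) * QS.mk (TR.cor (s.pull l.pj).t 0) +
    QS.mk (f 2) * QS.mk (TR.cor (s.pull l.pj).P 0) + QS.mk (f 3) * QS.mk (TR.cor (s.pull l.pj).P 1)) ∈ Id l.sp ρ

/-- the velocity of the coordinate `j` relative to a frame -/
def vl (s : Sys S 3) (j : Fin 3) (l : Lab S) (f : Fin 4 → TR l.sp) : TR l.sp :=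
  TR.cor (s.pull l.pj).x j - (f 1 + f 2 * TR.cor (s.pull l.pj).x 0 + f 3 * TR.cor (s.pull l.pj).x 1)

/-- entropy over the label of the digits of the direction and of the velocity -/
def Hv (s : Sys S 3) (j : Fin 3) (e r : ℝ) (l : Lab S) (f : Fin 4 → TR l.sp) : ℝ :=
  H (chgL (S := l.sp) l.V 1 one_pos (TR.dg (TR.cor (s.pull l.pj).x 0) e ⊔ TR.dg (vl s j l f) r))

theorem Hv_nonneg (s : Sys S 3) (j : Fin 3) (e r : ℝ) (l : Lab S) (f : Fin 4 → TR l.sp) : 0 ≤ Hv s j e r l f :=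
  H_nonneg _

/-- transport of frames -/
theorem Frz.tr {s : Sys S 3} {j : Fin 3} {ρ : ℝ} {f : Fin 4 → TR l.sp} (h : Frz s j ρ l f) (hd : Dom l' l) :
    Frz s j ρ l' (fun a => Dom.tr l' l (f a)) where
  lt := fun a => hd.tr_lt (h.lt a)
  tl := fun hj => by
    show Dom.tr l' l (f 3) = 0
    rw [h.tl hj, map_zero]
  mem := by
    have h1 := hd.qs_mem_Id h.mem
    have e1 : ∀ g : TR S, hd.qs (QS.mk (l.pj.tr g)) = QS.mk (l'.pj.tr g) := hd.qs_pj
    simp only [map_sub, map_add, map_mul, Dom.qs_mk] at h1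
    have e2 : QS.mk (Dom.tr l' l (TR.cor (s.pull l.pj).P j)) = QS.mk (TR.cor (s.pull l'.pj).P j) := e1 (TR.cor s.P j)
    have e3 : QS.mk (Dom.tr l' l (TR.cor (s.pull l.pj).t 0)) = QS.mk (TR.cor (s.pull l'.pj).t 0) := e1 (TR.cor s.t 0)
    have e4 : QS.mk (Dom.tr l' l (TR.cor (s.pull l.pj).P 0)) = QS.mk (TR.cor (s.pull l'.pj).P 0) := e1 (TR.cor s.P 0)
    have e5 : QS.mk (Dom.tr l' l (TR.cor (s.pull l.pj).P 1)) = QS.mk (TR.cor (s.pull l'.pj).P 1) := e1 (TR.cor s.P 1)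
    rw [e2, e3, e4, e5] at h1
    exact h1

/-- entropies decrease -/
theorem Hv_tr_le (s : Sys S 3) (j : Fin 3) {e r : ℝ} (he : e ≤ 1) (hr : r ≤ 1) (f : Fin 4 → TR l.sp) (hd : Dom l' l) :
    Hv s j e r l' (fun a => Dom.tr l' l (f a)) ≤ Hv s j e r l f := by
  have e1 : ∀ g : TR S, hd.qs (QS.mk (l.pj.tr g)) = QS.mk (l'.pj.tr g) := hd.qs_pj
  have e2 : QS.mk (Dom.tr l' l (TR.cor (s.pull l.pj).x 0)) = QS.mk (TR.cor (s.pull l'.pj).x 0) := e1 (TR.cor s.x 0)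
  have e3 : QS.mk (Dom.tr l' l (TR.cor (s.pull l.pj).x 1)) = QS.mk (TR.cor (s.pull l'.pj).x 1) := e1 (TR.cor s.x 1)
  have e4 : QS.mk (Dom.tr l' l (TR.cor (s.pull l.pj).x j)) = QS.mk (TR.cor (s.pull l'.pj).x j) := e1 (TR.cor s.x j)
  have e5 : QS.mk (Dom.tr l' l (vl s j l f)) = QS.mk (vl s j l' (fun a => Dom.tr l' l (f a))) := by
    unfold vl
    simp only [map_sub, map_add, map_mul]
    rw [e2, e3, e4]
  have k1 : TR.dg (TR.cor (s.pull l'.pj).x 0) e = TR.dg (Dom.tr l' l (TR.cor (s.pull l.pj).x 0)) e := by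
    rw [← dg_mk _ he, ← dg_mk _ he, e2]
  have k2 : TR.dg (vl s j l' (fun a => Dom.tr l' l (f a))) r = TR.dg (Dom.tr l' l (vl s j l f)) r := by
    rw [← dg_mk _ hr, ← dg_mk _ hr, e5]
  unfold Hv
  rw [k1, k2]
  exact H_tr_le hd _ _ e r

end

end Pool.Agent.Helper97.T1
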