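import Pool.Agent.Helper97.T1.Ae

/-! The fields `T1` of the corners (trimmed labels), and the passage of the joint versions to the diagonal. -/

set_option autoImplicit false

namespace Pool.Agent.Helper97.T1

open Finset Filter Topology Pool.Agent.Helper69.RK Pool.Agent.Helper31.EC Pool.Agent.Helper60.CS
open Pool.Agent.Helper82.TP Pool.Agent.Helper40.EL Pool.Agent.Helper98.FR Pool.Agent.Helper80.HCI
open Pool.Agent.Helper79.NF Pool.Agent.Helper31.NSB Pool.Agent.Helper52.KP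

noncomputable section

open Sp QS Pool.Agent.Helper80.MX

variable {S : Sp}

section fld

variable {s : Sys S 3} {q lamv etav : ℕ → ℝ} {L : ℕ → Lab S} (b : Bx s q lamv etav L) {i0 i : ℕ} {e : ℝ} (he : 0 < e)
  {ηn : ℝ} (hη : ηn ≤ b.bd.eta i0) (ix : ℝ → ℕ)

/-- trimmed labels of coarser windows are known over the window `i` -/
theorem kn_trm {r : ℝ} (hr : q (ix r) ≤ q i) {E : ∀ k, ((b.bd.Sj i0 e he).F k).Ω → Prop}
    (hb : Bdd (trm E ((b.ld.rd i0 e he ηn hη ix).K r))) :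
    kn b.bd i0 i he (io (trm E ((b.ld.rd i0 e he ηn hη ix).K r))) :=
  chg_trm (S := b.bd.Sj i0 e he) (zc (b.bd.V i0) he (b.bd.V i)) hb
    (Eventually.of_forall fun k _ _ _ _ _ h' => Quotient.sound (b.nest (ix r) i hr k h'))

/-- the label and the point are known over the window `i` -/
theorem kn_KB (h : q i0 + e ≤ q i) (hd : b.bd.Dn i0 (q i)) (h1 : lamv i0 + e ≤ 1) (h2 : ηn + e ≤ 1) {r : ℝ}
    (hr : q (ix r) ≤ q i) {E : ∀ k, ((b.bd.Sj i0 e he).F k).Ω → Prop}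
    (hb : Bdd (trm E ((b.ld.rd i0 e he ηn hη ix).K r))) :
    kn b.bd i0 i he (io (trm E ((b.ld.rd i0 e he ηn hη ix).K r)) ⊔ (b.ld.rd i0 e he ηn hη ix).B) :=
  kn_sup (kn_trm b he hη ix hr hb) (B_known b.bd b.ld (fin_bx b (by linarith)) he h hd hη h1 h2 ix)

variable {lam eta : ℝ → ℝ} {w1 w c ε : ℝ} {l : Lab S} {f : Fin 4 → TR l.sp} {η' : ℝ}

/-- THE FIELDS `T1` of the corner of a box with a good base label and frame -/
theorem T1_fld (T : T1d s lam eta w1 w c e ε l f η') (hl : ∀ i, lamv i = lam (q i)) (hη' : ∀ i, etav i ≤ eta (q i))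
    (h0 : q i0 = c) (hi : q i = c + e) (hd : b.bd.Dn i0 (c + e)) (hdom : Dom (b.M.lab i0) l) (he0 : etav i0 = η')
    (hc : b.c i0 = (fun a => Dom.tr (b.M.lab i0) l (f a))) (h1 : lamv i0 + e ≤ 1) (h2 : ηn + e ≤ 1) {r : ℝ}
    (hr : q (ix r) ≤ q i) {E : ∀ k, ((b.bd.Sj i0 e he).F k).Ω → Prop}
    (hb : Bdd (trm E ((b.ld.rd i0 e he ηn hη ix).K r))) :
    I (dg (b.ld.rd i0 e he ηn hη ix).x 1)
      (io (trm E ((b.ld.rd i0 e he ηn hη ix).K r)) ⊔ (b.ld.rd i0 e he ηn hη ix).B) ⊥ ≤ ε ∧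
    (w1 = 1 → I (dg (b.ld.rd i0 e he ηn hη ix).x 1 ⊔ dg (b.ld.rd i0 e he ηn hη ix).F 1)
      (io (trm E ((b.ld.rd i0 e he ηn hη ix).K r)) ⊔ (b.ld.rd i0 e he ηn hη ix).B) ⊥ ≤ ε) ∧
    (w = 1 → 1 < w1 → I (dg (b.ld.rd i0 e he ηn hη ix).x 1 ⊔ dg (b.ld.rd i0 e he ηn hη ix).v 1)
      (io (trm E ((b.ld.rd i0 e he ηn hη ix).K r)) ⊔ (b.ld.rd i0 e he ηn hη ix).B) ⊥ ≤ ε) :=
  T.ind q lamv etav L b i0 i hl hη' h0 hi hd hdom he0 hc he ηn hη ix _
    (kn_KB b he hη ix (by rw [h0, hi]) (by rw [hi]; exact hd) h1 h2 hr hb)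

/-- the windows of a box with a good base label and frame -/
theorem T1d.wnd (T : T1d s lam eta w1 w c e ε l f η') (b : Bx s q (fun i => lam (q i)) (Function.update (fun i => eta (q i)) i0 η') L)
    {e' σ tol : ℝ} (ht0 : 0 ≤ tol) (ht : ε * e ≤ tol) (h0 : q i0 = c)
    (hd : ∀ a a', c ≤ a → a < a' → a' ≤ c + e' * σ → ∃ j, a < q j ∧ q j < a')
    {ix : ℝ → ℕ} {Sc : Set ℝ} (hix : ∀ r ∈ Sc, q (ix r) = c + e' * r) (hnn : ∀ r ∈ Sc, 0 ≤ r) (hle : ∀ r ∈ Sc, r ≤ σ) :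
    Wnd b.bd i0 ix Sc lam eta c σ e' tol where
  q0 := h0
  lam := fun _ => rfl
  eta := fun i => by
    by_cases hi : i = i0
    · subst hi
      have e1 : b.bd.eta i = η' := by
        show Function.update (fun j => eta (q j)) i η' i = η'
        exact Function.update_self ..
      have e2 : b.bd.q i = c := h0
      rw [e1, e2]
      linarith [T.lo]
    · have e1 : b.bd.eta i = eta (q i) := by
        show Function.update (fun j => eta (q j)) i0 η' i = eta (q i)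
        exact Function.update_of_ne hi ..
      rw [e1]
      show eta (q i) - tol ≤ eta (q i)
      linarith
  dn := fun a a' h1 h2 h3 => hd a a' (by rw [← h0]; exact h1) h2 h3
  ix := hix
  nn := hnn
  le := hle
  tc := b.tc_dg
  yc := b.yc_dg

end fld

/-! ### the diagonal -/

section diag

variable {Sc : Set ℝ} {J : Inp Sc} {Λ : Type} {lv : Λ → ℝ} (s : Dg J lv)

/-- the joint version for `R` passes to the diagonal -/
theorem dg_T1F {ε : ℕ → ℝ} (hε : Tendsto ε atTop (𝓝 0)) {r : ℝ} (hr : r ∈ Sc)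
    (h : ∀ᶠ j in atTop, I (dg (J.H j).x 1 ⊔ dg (J.H j).F 1) ((J.H j).κ r ⊔ (J.H j).B) ⊥ ≤ ε j) :
    I (dg s.HT.x 1 ⊔ dg s.HT.F 1) (s.HT.κ r ⊔ s.HT.B) ⊥ = 0 :=
  (s.rx.dg1.sup s.rF.dg1).I_zero ((s.rK hr).sup s.rB) (Rp.bot s.toUni) hε h

/-- the joint version for `z` passes to the diagonal -/
theorem dg_T1v {ε : ℕ → ℝ} (hε : Tendsto ε atTop (𝓝 0)) {r : ℝ} (hr : r ∈ Sc)
    (h : ∀ᶠ j in atTop, I (dg (J.H j).x 1 ⊔ dg (J.H j).v 1) ((J.H j).κ r ⊔ (J.H j).B) ⊥ ≤ ε j) :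
    I (dg s.HT.x 1 ⊔ dg s.HT.v 1) (s.HT.κ r ⊔ s.HT.B) ⊥ = 0 :=
  (s.rx.dg1.sup s.rv.dg1).I_zero ((s.rK hr).sup s.rB) (Rp.bot s.toUni) hε h

end diag

end

end Pool.Agent.Helper97.T1
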