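import Pool.Agent.Helper97.T1.Kb

/-! INVARIANCE: over maximal labels the entropy of a function of the line does not depend on the label. -/

set_option autoImplicit false

namespace Pool.Agent.Helper97.T1

open Finset Filter Topology Pool.Agent.Helper69.RK Pool.Agent.Helper31.EC Pool.Agent.Helper60.CS
open Pool.Agent.Helper82.TP Pool.Agent.Helper40.EL Pool.Agent.Helper98.FR Pool.Agent.Helper80.HCI
open Pool.Agent.Helper71.AGR (Kg kg_of_Lt kg_of_le)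

noncomputable section

open Sp QS Pool.Agent.Helper80.MX

section fine

variable {S : Sp} {Z Z' : ∀ k, Setoid (S.F k).Ω}

/-- eventually finer -/
def Fev (Z Z' : ∀ k, Setoid (S.F k).Ω) : Prop := ∀ᶠ k in UF, ∀ ω ω', (S.F k).μ ω ≠ 0 → (S.F k).μ ω' ≠ 0 →
  (S.F k).Z ω ω' → Z' k ω ω' → Z k ω ω'

/-- conditional entropies over an eventually finer base -/
theorem h_fine_ev (hZ : Fev Z Z') (x y : S.L) :
    h (chgL Z' 1 one_pos x) (chgL Z' 1 one_pos y) ≤ h (chgL Z 1 one_pos x) (chgL Z 1 one_pos y) := by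
  induction x using Sp.cl_ind with | h A
  induction y using Sp.cl_ind with | h B
  rw [chgL_cl, chgL_cl, chgL_cl, chgL_cl, h_cl, h_cl]
  apply ul_mono (UB_rt _ _) (UB_rt _ _)
  filter_upwards [hZ] with k hk
  have h1 : (S.chg Z' 1 one_pos).rt (chgI Z' 1 one_pos A).1 (chgI Z' 1 one_pos B).1 k =
      (S.F k).e (A.1 k) (B.1 k ⊓ (Z' k ⊓ (S.F k).Z)) / (1 * (S.F k).n) := rfl
  have h2 : (S.chg Z 1 one_pos).rt (chgI Z 1 one_pos A).1 (chgI Z 1 one_pos B).1 k =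
      (S.F k).e (A.1 k) (B.1 k ⊓ (Z k ⊓ (S.F k).Z)) / (1 * (S.F k).n) := rfl
  rw [h1, h2, one_mul]
  apply div_le_div_of_nonneg_right _ (S.F k).pos.le
  apply (S.F k).e_anti
  intro ω ω' a b h
  exact ⟨h.1, hk ω ω' a b h.2.2 h.2.1, h.2.2⟩

/-- THE LOSS of entropy over a finer base is monotone -/
theorem dH_mono (hZ : Fev Z Z') {x y : S.L} (hxy : chgL Z 1 one_pos x ≤ chgL Z 1 one_pos y) :
    H (chgL Z 1 one_pos x) - H (chgL Z' 1 one_pos x) ≤ H (chgL Z 1 one_pos y) - H (chgL Z' 1 one_pos y) := by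
  have h1 : chgL Z' 1 one_pos x ≤ chgL Z' 1 one_pos y := by
    rw [← h_eq_zero_iff]
    apply le_antisymm _ (h_nonneg _ _)
    refine (h_fine_ev hZ x y).trans ?_
    rw [h_eq_zero_iff.mpr hxy]
  have h2 := H_chain (chgL Z 1 one_pos x) (chgL Z 1 one_pos y)
  have h3 := H_chain (chgL Z' 1 one_pos x) (chgL Z' 1 one_pos y)
  rw [sup_eq_right.mpr hxy] at h2
  rw [sup_eq_right.mpr h1] at h3
  have h4 := h_fine_ev hZ y x
  linarith

/-- entropies over a finer base -/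
theorem H_fine_ev (hZ : Fev Z Z') (x : S.L) : H (chgL Z' 1 one_pos x) ≤ H (chgL Z 1 one_pos x) := by
  have h1 := h_fine_ev hZ x ⊥
  rwa [chgL_bot, chgL_bot, h_bot, h_bot] at h1

end fine

variable {S : Sp} (l' l : Lab S)

/-- the label `l` on the space of a dominating label -/
def pull (k : ℕ) : Setoid (l'.sp.F k).Ω := Setoid.comap (Dom.phi l' l k) (l.V k)

variable {l' l}

theorem pull_fine (hd : Dom l' l) : Fev (S := l'.sp) (pull l' l) l'.V := by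
  filter_upwards [hd] with k hk ω ω' _ _ _ h
  obtain ⟨r, h3, h4, -⟩ := Dom.phi_eq l' l (show Dom.Pr l' l k from hk)
  have h5 : Setoid.comap r.π (l k).V ω ω' := h4 h
  show (l.V k) (Dom.phi l' l k ω) (Dom.phi l' l k ω')
  rw [h3]
  exact h5

theorem h_pull {I J : l.sp.Inf} {I' J' : l'.sp.Inf} (hd : Dom l' l)
    (hI : ∀ᶠ k in UF, ∀ ω ω', (l' k).T.μ ω ≠ 0 → (l' k).T.μ ω' ≠ 0 →
      (I'.1 k ω ω' ↔ I.1 k (Dom.phi l' l k ω) (Dom.phi l' l k ω')))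
    (hJ : ∀ᶠ k in UF, ∀ ω ω', (l' k).T.μ ω ≠ 0 → (l' k).T.μ ω' ≠ 0 →
      (J'.1 k ω ω' ↔ J.1 k (Dom.phi l' l k ω) (Dom.phi l' l k ω'))) :
    h (chgL (S := l'.sp) (pull l' l) 1 one_pos (cl I')) (chgL (S := l'.sp) (pull l' l) 1 one_pos (cl J')) =
      h (chgL (S := l.sp) l.V 1 one_pos (cl I)) (chgL (S := l.sp) l.V 1 one_pos (cl J)) := by
  rw [chgL_cl, chgL_cl, chgL_cl, chgL_cl, h_cl, h_cl]
  apply ul_congr
  filter_upwards [hd, hI, hJ] with k hk hI hJ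
  have h1 : (l'.sp.chg (pull l' l) 1 one_pos).rt (chgI (S := l'.sp) (pull l' l) 1 one_pos I').1
      (chgI (S := l'.sp) (pull l' l) 1 one_pos J').1 k =
      (l' k).T.e (I'.1 k) (J'.1 k ⊓ (pull l' l k ⊓ (l' k).T.Z)) / (1 * (l' k).T.n) := rfl
  have h2 : (l.sp.chg l.V 1 one_pos).rt (chgI (S := l.sp) l.V 1 one_pos I).1 (chgI (S := l.sp) l.V 1 one_pos J).1 k =
      (l k).T.e (I.1 k) (J.1 k ⊓ (l.V k ⊓ (l k).T.Z)) / (1 * (l k).T.n) := rfl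
  have hn : (l' k).T.n = (l k).T.n := (l' k).hn.trans (l k).hn.symm
  rw [h1, h2, hn]
  congr 1
  have h3 := e_phi (l' := l') (l := l) (show Dom.Pr l' l k from hk) (I.1 k) (J.1 k ⊓ l.V k)
  have h4 : (l k).T.e (I.1 k) (J.1 k ⊓ l.V k ⊓ (l k).T.Z) = (l k).T.e (I.1 k) (J.1 k ⊓ (l.V k ⊓ (l k).T.Z)) :=
    congrArg ((l k).T.e (I.1 k)) (inf_assoc (J.1 k) (l.V k) (l k).T.Z)
  rw [← h4, ← h3]
  apply le_antisymm
  · refine ((l' k).T.e_mono (A' := Setoid.comap (Dom.phi l' l k) (I.1 k)) fun ω ω' a b c _ => (hI ω ω' a b).mpr c).trans ?_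
    apply (l' k).T.e_anti
    intro ω ω' a b c
    exact ⟨⟨(hJ ω ω' a b).mp c.1, c.2.1⟩, c.2.2⟩
  · refine ((l' k).T.e_mono (A' := I'.1 k) fun ω ω' a b c _ => (hI ω ω' a b).mp c).trans ?_
    apply (l' k).T.e_anti
    intro ω ω' a b c
    exact ⟨(hJ ω ω' a b).mpr c.1.1, c.1.2, c.2⟩

theorem H_pull {I : l.sp.Inf} {I' : l'.sp.Inf} (hd : Dom l' l)
    (hI : ∀ᶠ k in UF, ∀ ω ω', (l' k).T.μ ω ≠ 0 → (l' k).T.μ ω' ≠ 0 →
      (I'.1 k ω ω' ↔ I.1 k (Dom.phi l' l k ω) (Dom.phi l' l k ω'))) :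
    H (chgL (S := l'.sp) (pull l' l) 1 one_pos (cl I')) = H (chgL (S := l.sp) l.V 1 one_pos (cl I)) := by
  have h1 := h_pull (J := Inf.bot (S := l.sp)) (J' := Inf.bot (S := l'.sp)) hd hI
    (Eventually.of_forall fun k ω ω' _ _ => ⟨fun _ => trivial, fun _ => trivial⟩)
  have e1 : ∀ (U : Sp) (Z : ∀ k, Setoid (U.F k).Ω), chgL Z 1 one_pos (cl (Inf.bot (S := U))) = ⊥ := fun U Z => by
    rw [cl_bot, chgL_bot]
  rw [e1, e1, h_bot, h_bot] at h1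
  exact h1

/-- partitions of digits of two functions -/
def XI {U : Sp} (f g : TR U) (r r' : ℝ) : U.Inf :=
  Inf.sup ((TR.vec (fun _ : Fin 1 => f)).bdd r).toInf ((TR.vec (fun _ : Fin 1 => g)).bdd r').toInf

theorem XI_cl {U : Sp} (f g : TR U) (r r' : ℝ) : TR.dg f r ⊔ TR.dg g r' = cl (XI f g r r') := by
  have e1 : TR.dg f r = cl ((TR.vec (fun _ : Fin 1 => f)).bdd r).toInf := io_eq _
  have e2 : TR.dg g r' = cl ((TR.vec (fun _ : Fin 1 => g)).bdd r').toInf := io_eq _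
  rw [e1, e2, ← cl_sup]
  rfl

theorem XI_pull (f g : TR l.sp) (r r' : ℝ) :
    ∀ᶠ k in UF, ∀ ω ω', (l' k).T.μ ω ≠ 0 → (l' k).T.μ ω' ≠ 0 →
      ((XI (Dom.tr l' l f) (Dom.tr l' l g) r r').1 k ω ω' ↔
        (XI f g r r').1 k (Dom.phi l' l k ω) (Dom.phi l' l k ω')) := by
  filter_upwards with k ω ω' _ _
  have e1 : (l'.sp.F k).n = (l.sp.F k).n := (l' k).hn.trans (l k).hn.symm
  have e4 : ∀ (u : TR l.sp) (ρ : ℝ), (TR.vec (fun _ : Fin 1 => Dom.tr l' l u)).cellv ρ k =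
      fun ω => (TR.vec (fun _ : Fin 1 => u)).cellv ρ k (Dom.phi l' l k ω) := by
    intro u ρ
    funext ω i
    have e5 : l'.sp.dl ρ k = l.sp.dl ρ k := by
      unfold Sp.dl
      rw [e1]
    show ⌊(u.1 k (Dom.phi l' l k ω)) / l'.sp.dl ρ k⌋ = ⌊(u.1 k (Dom.phi l' l k ω)) / l.sp.dl ρ k⌋
    rw [e5]
  show ((TR.vec (fun _ : Fin 1 => Dom.tr l' l f)).cellv r k ω = (TR.vec (fun _ : Fin 1 => Dom.tr l' l f)).cellv r k ω' ∧
    (TR.vec (fun _ : Fin 1 => Dom.tr l' l g)).cellv r' k ω = (TR.vec (fun _ : Fin 1 => Dom.tr l' l g)).cellv r' k ω') ↔ _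
  rw [e4, e4]
  exact Iff.rfl

/-- INVARIANCE: the entropy over a maximal label of a function of the line and of the label does not change over
dominating maximal labels -/
theorem inv_tr {m : ℕ} {s : Sys S m} {c : ℝ} (hl : IsKap s c l) (hl' : IsKap s c l') (hd : Dom l' l) {f g : TR l.sp}
    {r r' : ℝ} (hX : chgL (S := l.sp) l.V 1 one_pos (TR.dg f r ⊔ TR.dg g r') ≤
      chgL (S := l.sp) l.V 1 one_pos (l.pj.map (s.xi 1))) :
    H (chgL (S := l'.sp) l'.V 1 one_pos (TR.dg (Dom.tr l' l f) r ⊔ TR.dg (Dom.tr l' l g) r')) =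
      H (chgL (S := l.sp) l.V 1 one_pos (TR.dg f r ⊔ TR.dg g r')) := by
  obtain ⟨A, hA⟩ : ∃ A : S.Inf, s.xi 1 = cl A := by
    induction s.xi 1 using Sp.cl_ind with | h A
    exact ⟨A, rfl⟩
  have hpA : ∀ᶠ k in UF, ∀ ω ω', (l' k).T.μ ω ≠ 0 → (l' k).T.μ ω' ≠ 0 →
      ((l'.pj.mapI A).1 k ω ω' ↔ (l.pj.mapI A).1 k (Dom.phi l' l k ω) (Dom.phi l' l k ω')) := by
    filter_upwards [hd] with k hk ω ω' a b
    obtain ⟨q, h3, -, h4⟩ := Dom.phi_eq l' l (show Dom.Pr l' l k from hk)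
    show A.1 k ((l' k).p.π ω) ((l' k).p.π ω') ↔ A.1 k ((l k).p.π (Dom.phi l' l k ω)) ((l k).p.π (Dom.phi l' l k ω'))
    rw [h3, h4 ω a, h4 ω' b]
  have k1 : h (chgL (S := l'.sp) (pull l' l) 1 one_pos (TR.dg (Dom.tr l' l f) r ⊔ TR.dg (Dom.tr l' l g) r'))
      (chgL (S := l'.sp) (pull l' l) 1 one_pos (l'.pj.map (s.xi 1))) =
      h (chgL (S := l.sp) l.V 1 one_pos (TR.dg f r ⊔ TR.dg g r')) (chgL (S := l.sp) l.V 1 one_pos (l.pj.map (s.xi 1))) := by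
    rw [XI_cl, XI_cl, hA]
    exact h_pull hd (XI_pull f g r r') hpA
  have k2 : H (chgL (S := l'.sp) (pull l' l) 1 one_pos (TR.dg (Dom.tr l' l f) r ⊔ TR.dg (Dom.tr l' l g) r')) =
      H (chgL (S := l.sp) l.V 1 one_pos (TR.dg f r ⊔ TR.dg g r')) := by
    rw [XI_cl, XI_cl]
    exact H_pull hd (XI_pull f g r r')
  have k3 : H (chgL (S := l'.sp) (pull l' l) 1 one_pos (l'.pj.map (s.xi 1))) =
      H (chgL (S := l.sp) l.V 1 one_pos (l.pj.map (s.xi 1))) := by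
    rw [hA]
    exact H_pull hd hpA
  have k4 : chgL (S := l'.sp) (pull l' l) 1 one_pos (TR.dg (Dom.tr l' l f) r ⊔ TR.dg (Dom.tr l' l g) r') ≤
      chgL (S := l'.sp) (pull l' l) 1 one_pos (l'.pj.map (s.xi 1)) := by
    rw [← h_eq_zero_iff, k1]
    exact h_eq_zero_iff.mpr hX
  have k5 := dH_mono (pull_fine hd) k4
  have k6 := H_fine_ev (pull_fine hd) (TR.dg (Dom.tr l' l f) r ⊔ TR.dg (Dom.tr l' l g) r')
  have k7 : H (chgL (S := l'.sp) l'.V 1 one_pos (l'.pj.map (s.xi 1))) =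
      H (chgL (S := l.sp) l.V 1 one_pos (l.pj.map (s.xi 1))) := by
    have h1 : H (up1 l' (s.xi 1)) = H (up1 l (s.xi 1)) := hl'.H_eq hl _
    exact h1
  rw [k3, k7, sub_self] at k5
  rw [k2] at k5 k6
  linarith

/-- INVARIANCE for velocities -/
theorem inv_Hv {s : Sys S 3} {j : Fin 3} {c e r ρ : ℝ} (hl : IsKap s c l) (hl' : IsKap s c l') (hd : Dom l' l)
    {f : Fin 4 → TR l.sp} (hf : Frz s j ρ l f) (he : e ≤ 1) (hr : r ≤ 1) :
    Hv s j e r l' (fun a => Dom.tr l' l (f a)) = Hv s j e r l f := by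
  have e1 : ∀ g : TR S, hd.qs (QS.mk (l.pj.tr g)) = QS.mk (l'.pj.tr g) := hd.qs_pj
  have e2 : QS.mk (Dom.tr l' l (TR.cor (s.pull l.pj).x 0)) = QS.mk (TR.cor (s.pull l'.pj).x 0) := e1 (TR.cor s.x 0)
  have e3 : QS.mk (Dom.tr l' l (TR.cor (s.pull l.pj).x 1)) = QS.mk (TR.cor (s.pull l'.pj).x 1) := e1 (TR.cor s.x 1)
  have e4 : QS.mk (Dom.tr l' l (TR.cor (s.pull l.pj).x j)) = QS.mk (TR.cor (s.pull l'.pj).x j) := e1 (TR.cor s.x j)
  have e5 : QS.mk (Dom.tr l' l (vl s j l f)) = QS.mk (vl s j l' (fun a => Dom.tr l' l (f a))) := by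
    unfold vl
    simp only [map_sub, map_add, map_mul]
    rw [e2, e3, e4]
  have k1 : TR.dg (TR.cor (s.pull l'.pj).x 0) e = TR.dg (Dom.tr l' l (TR.cor (s.pull l.pj).x 0)) e := by
    rw [← dg_mk _ he, ← dg_mk _ he, e2]
  have k2 : TR.dg (vl s j l' (fun a => Dom.tr l' l (f a))) r = TR.dg (Dom.tr l' l (vl s j l f)) r := by
    rw [← dg_mk _ hr, ← dg_mk _ hr, e5]
  have kx : ∀ i, Kg (S := l.sp) l.V (l.pj.map (s.xi 1)) (TR.cor (s.pull l.pj).x i) := fun i => by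
    refine kg_of_le ?_
    have h1 : TR.dg (TR.cor (s.pull l.pj).x i) 1 = l.pj.map (TR.dg (TR.cor s.x i) 1) := Pj.tr_dg l.pj (TR.cor s.x i) 1
    rw [h1]
    exact l.pj.map_mono ((TR.cor_dg_le s.x i 1).trans (s.x_le_xi le_rfl))
  have kv : Kg (S := l.sp) l.V (l.pj.map (s.xi 1)) (vl s j l f) :=
    (kx j).sub (((kg_of_Lt (hf.lt 1)).add ((kg_of_Lt (hf.lt 2)).mul (kx 0))).add ((kg_of_Lt (hf.lt 3)).mul (kx 1)))
  unfold Hv
  rw [k1, k2]
  refine inv_tr hl hl' hd ?_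
  rw [chgL_sup]
  exact sup_le (kx 0 e he) (kv r hr)

end

end Pool.Agent.Helper97.T1
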