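import Pool.Agent.Helper97.T1.Pot
import Pool.Agent.Helper71.AGR.Fld

/-! The digits of the point in the box of `i0` are known over the label of the window `i`, `q i ≥ q i0 + e`; the
information of the direction and of the velocities. -/

set_option autoImplicit false

namespace Pool.Agent.Helper97.T1

open Finset Filter Topology Pool.Agent.Helper69.RK Pool.Agent.Helper31.EC Pool.Agent.Helper60.CS
open Pool.Agent.Helper82.TP Pool.Agent.Helper40.EL Pool.Agent.Helper98.FR Pool.Agent.Helper80.HCI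
open Pool.Agent.Helper79.NF Pool.Agent.Helper31.NSB

noncomputable section

open Sp QS Pool.Agent.Helper80.MX

variable {S : Sp} (B : BD S)

/-- digits of functions which are close to literal functions -/
theorem dgo_known {i : ℕ} {f κ : TR S} (hκ : Lt (B.V i) κ) {ρ r : ℝ} (hm : QS.mk f - QS.mk κ ∈ Id S ρ) (hr : r ≤ ρ)
    (h1 : r ≤ 1) : dgo B i f r = ⊥ := by
  rw [← dgo_eq B i f h1]
  have h2 : qc (B.V i) (QS.mk f) - qc (B.V i) (QS.mk κ) ∈ Id _ ρ := by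
    rw [← map_sub]
    exact (qc_mem_Id (B.V i)).mpr hm
  rw [dg_eq_of_sub_mem h2 hr h1]
  exact hκ.qc_bot (B.V i) r

/-- the residual of a frame of the window `i0` is known over the label of the window `i` up to its depth there -/
theorem known {i0 i : ℕ} (h : B.q i0 ≤ B.q i) (hd : B.Dn i0 (B.q i)) {ν : ℝ} (hν : ν + B.q i ≤ 1) {Y : TR S}
    {f : Fin 3 → TR S} {g : ℕ → Fin 3 → TR S} (l0 : ∀ a, Lt (B.V i0) (f a))
    (hl : ∀ j, B.q i0 ≤ B.q j → B.q j ≤ B.q i → ∀ a, Lt (B.V j) (g j a))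
    (m0 : QS.mk Y - (QS.mk (f 0) + QS.mk (f 1) * QS.mk B.t + QS.mk (f 2) * QS.mk B.y) ∈ Id S (ν + B.q i0))
    (hm : ∀ j, B.q i0 ≤ B.q j → B.q j ≤ B.q i →
      QS.mk Y - (QS.mk (g j 0) + QS.mk (g j 1) * QS.mk B.t + QS.mk (g j 2) * QS.mk B.y) ∈ Id S (ν + B.q j)) :
    ∃ κ : TR S, Lt (B.V i) κ ∧
      QS.mk Y - (QS.mk (f 0) + QS.mk (f 1) * QS.mk B.t + QS.mk (f 2) * QS.mk B.y) - QS.mk κ ∈ Id S (ν + B.q i) := by
  have key : ∀ a : Fin 3, a ≠ 0 → QS.mk (g i a) - QS.mk (f a) ∈ Id S ν := fun a ha =>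
    slopes B hd hν h l0 hl m0 hm h le_rfl a ha
  have lf : ∀ a, Lt (B.V i) (f a) := fun a => (l0 a).mono (B.nest i0 i h)
  have lg := hl i h le_rfl
  have hν1 : ν ≤ 1 := by
    have := B.q0 i
    linarith
  refine ⟨(g i 0 - f 0) + (g i 1 - f 1) * B.tc i + (g i 2 - f 2) * B.yc i, ?_, ?_⟩
  · exact ((((lg 0).sub (lf 0))).add (((lg 1).sub (lf 1)).mul (B.lt i))).add (((lg 2).sub (lf 2)).mul (B.ly i))
  · have m1 := Id_mul hν1 (B.q1 i) (key 1 (by decide)) (B.ht i)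
    have m2 := Id_mul hν1 (B.q1 i) (key 2 (by decide)) (B.hy i)
    have m3 := (Id S _).add_mem ((Id S _).add_mem (hm i h le_rfl) m1) m2
    have e : QS.mk Y - (QS.mk (g i 0) + QS.mk (g i 1) * QS.mk B.t + QS.mk (g i 2) * QS.mk B.y) +
        (QS.mk (g i 1) - QS.mk (f 1)) * (QS.mk B.t - QS.mk (B.tc i)) +
        (QS.mk (g i 2) - QS.mk (f 2)) * (QS.mk B.y - QS.mk (B.yc i)) =
        QS.mk Y - (QS.mk (f 0) + QS.mk (f 1) * QS.mk B.t + QS.mk (f 2) * QS.mk B.y) -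
        QS.mk ((g i 0 - f 0) + (g i 1 - f 1) * B.tc i + (g i 2 - f 2) * B.yc i) := by
      simp only [map_sub, map_add, map_mul]
      ring
    rwa [e] at m3

variable {i0 i : ℕ}

/-- the residual of `R` -/
theorem Rr_known (h : B.q i0 ≤ B.q i) (hd : B.Dn i0 (B.q i)) : ∃ κ : TR S, Lt (B.V i) κ ∧
    QS.mk (B.Rr i0) - QS.mk κ ∈ Id S (B.lam i0 - B.q i0 + B.q i) := by
  have hs : ∀ j, B.q i0 ≤ B.q j → B.lam i0 - B.q i0 + B.q j ≤ B.lam j := fun j hj => by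
    have := B.slam i0 j hj
    linarith
  obtain ⟨κ, h1, h2⟩ := known B h hd (ν := B.lam i0 - B.q i0) ((hs i h).trans (B.lam1 i)) (Y := B.R) (f := B.r i0)
    (g := B.r) (B.lr i0) (fun j _ _ => B.lr j) (by rw [sub_add_cancel]; exact B.hr i0)
    (fun j hj _ => Id_anti (hs j hj) (B.hr j))
  refine ⟨κ, h1, ?_⟩
  have e : QS.mk (B.Rr i0) = QS.mk B.R - (QS.mk (B.r i0 0) + QS.mk (B.r i0 1) * QS.mk B.t + QS.mk (B.r i0 2) * QS.mk B.y) := by
    unfold BD.Rr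
    simp only [map_sub, map_add, map_mul]
  rw [e]
  exact h2

/-- the residual of `z` -/
theorem Zr_known {ηn : ℝ} (hη : ηn ≤ B.eta i0) (h : B.q i0 ≤ B.q i) (hd : B.Dn i0 (B.q i)) : ∃ κ : TR S,
    Lt (B.V i) κ ∧ QS.mk (B.Zr i0) - QS.mk κ ∈ Id S (ηn - B.q i0 + B.q i) := by
  have hs : ∀ j, B.q i0 ≤ B.q j → ηn - B.q i0 + B.q j ≤ B.eta j := fun j hj => by
    have := B.seta i0 j hj
    linarith
  have m0 : QS.mk B.z - (QS.mk (B.c i0 0) + QS.mk (B.c i0 1) * QS.mk B.t + QS.mk (B.c i0 2) * QS.mk B.y +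
      QS.mk (B.c i0 3) * QS.mk B.R) ∈ Id S (ηn - B.q i0 + B.q i0) := by
    rw [sub_add_cancel]
    exact Id_anti hη (B.hc i0)
  have hν : ηn - B.q i0 + B.q i0 ≤ B.eta i0 := by rw [sub_add_cancel]; exact hη
  obtain ⟨κ, h1, h2⟩ := known B h hd (ν := ηn - B.q i0) ((hs i h).trans (B.eta1 i)) (Y := B.z - B.c i0 3 * B.R)
    (f := fun a => B.c i0 a.castSucc) (g := tf B (B.c i0 3)) (fun a => B.lc i0 _)
    (fun j hj _ => tf_lt B ((B.lc i0 3).mono (B.nest i0 j hj))) (by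
      have e : QS.mk (B.z - B.c i0 3 * B.R) - (QS.mk (B.c i0 (Fin.castSucc 0)) + QS.mk (B.c i0 (Fin.castSucc 1)) * QS.mk B.t +
          QS.mk (B.c i0 (Fin.castSucc 2)) * QS.mk B.y) = QS.mk B.z - (QS.mk (B.c i0 0) + QS.mk (B.c i0 1) * QS.mk B.t +
          QS.mk (B.c i0 2) * QS.mk B.y + QS.mk (B.c i0 3) * QS.mk B.R) := by
        have e0 : (Fin.castSucc 0 : Fin 4) = 0 := rfl
        have e1 : (Fin.castSucc 1 : Fin 4) = 1 := rfl
        have e2 : (Fin.castSucc 2 : Fin 4) = 2 := rfl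
        rw [e0, e1, e2, map_sub, map_mul]
        ring
      rw [e]
      exact m0)
    (fun j h1 h2 => tf_mem B hd (B.lc i0) hν m0 h1 h2)
  refine ⟨κ, h1, ?_⟩
  have e : QS.mk (B.Zr i0) = QS.mk (B.z - B.c i0 3 * B.R) - (QS.mk (B.c i0 (Fin.castSucc 0)) +
      QS.mk (B.c i0 (Fin.castSucc 1)) * QS.mk B.t + QS.mk (B.c i0 (Fin.castSucc 2)) * QS.mk B.y) := by
    have e0 : (Fin.castSucc 0 : Fin 4) = 0 := rfl
    have e1 : (Fin.castSucc 1 : Fin 4) = 1 := rfl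
    have e2 : (Fin.castSucc 2 : Fin 4) = 2 := rfl
    unfold BD.Zr
    rw [e0, e1, e2]
    simp only [map_sub, map_add, map_mul]
    ring
  rw [e]
  exact h2

/-- the residuals of `t`, `y` -/
theorem T_known (h : B.q i0 ≤ B.q i) : ∃ κ : TR S, Lt (B.V i) κ ∧ QS.mk (B.t - B.tc i0) - QS.mk κ ∈ Id S (B.q i) := by
  refine ⟨B.tc i - B.tc i0, (B.lt i).sub ((B.lt i0).mono (B.nest i0 i h)), ?_⟩
  have e : QS.mk (B.t - B.tc i0) - QS.mk (B.tc i - B.tc i0) = QS.mk B.t - QS.mk (B.tc i) := by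
    simp only [map_sub]
    ring
  rw [e]
  exact B.ht i

theorem Y_known (h : B.q i0 ≤ B.q i) : ∃ κ : TR S, Lt (B.V i) κ ∧ QS.mk (B.y - B.yc i0) - QS.mk κ ∈ Id S (B.q i) := by
  refine ⟨B.yc i - B.yc i0, (B.ly i).sub ((B.ly i0).mono (B.nest i0 i h)), ?_⟩
  have e : QS.mk (B.y - B.yc i0) - QS.mk (B.yc i - B.yc i0) = QS.mk B.y - QS.mk (B.yc i) := by
    simp only [map_sub]
    ring
  rw [e]
  exact B.hy i

/-- literally finer -/
def Fin' (B : BD S) (i0 i : ℕ) : Prop :=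
  ∀ k ω ω', (S.F k).μ ω ≠ 0 → (S.F k).μ ω' ≠ 0 → (S.F k).Z ω ω' → B.V i k ω ω' → B.V i0 k ω ω'

/-- known over the window `i` -/
def kn (B : BD S) (i0 i : ℕ) {e : ℝ} (he : 0 < e) (x : (B.Sj i0 e he).L) : Prop :=
  chgL (S := B.Sj i0 e he) (zc (B.V i0) he (B.V i)) 1 one_pos x = ⊥

theorem kn_sup {B : BD S} {e : ℝ} {he : 0 < e} {x y : (B.Sj i0 e he).L} (hx : kn B i0 i he x) (hy : kn B i0 i he y) :
    kn B i0 i he (x ⊔ y) := chg_bot_sup _ hx hy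

theorem kn_of (hf : Fin' B i0 i) {e : ℝ} (he : 0 < e) {x : S.L} (hx : chgL (B.V i) 1 one_pos x = ⊥) :
    kn B i0 i he (chgL (B.V i0) e he x) := chg_chg_bot hf he hx

/-- THE POINT is known over the window `i` -/
theorem B_known (D : LD B) (hf : Fin' B i0 i) {e : ℝ} (he : 0 < e) (h : B.q i0 + e ≤ B.q i) (hd : B.Dn i0 (B.q i))
    {ηn : ℝ} (hη : ηn ≤ B.eta i0) (h1 : B.lam i0 + e ≤ 1) (h2 : ηn + e ≤ 1) (ix : ℝ → ℕ) :
    kn B i0 i he (D.rd i0 e he ηn hη ix).B := by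
  have hq : B.q i0 ≤ B.q i := by linarith
  have hqi := B.q1 i
  have k0 : kn B i0 i he (dg (D.rd i0 e he ηn hη ix).t 1) := by
    have e0 : dg (D.rd i0 e he ηn hη ix).t 1 = chgL (B.V i0) e he (TR.dg (B.t - B.tc i0) (B.q i0 + e * 1)) :=
      (dg_mk _ le_rfl).trans (B.tT_dg 1)
    rw [e0, mul_one]
    obtain ⟨κ, k1, k2⟩ := T_known B hq
    exact kn_of B hf he (dgo_known B k1 k2 h (by linarith))
  have k1 : kn B i0 i he (dg (D.rd i0 e he ηn hη ix).y 1) := by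
    have e0 : dg (D.rd i0 e he ηn hη ix).y 1 = chgL (B.V i0) e he (TR.dg (B.y - B.yc i0) (B.q i0 + e * 1)) :=
      (dg_mk _ le_rfl).trans (B.yT_dg 1)
    rw [e0, mul_one]
    obtain ⟨κ, k1, k2⟩ := Y_known B hq
    exact kn_of B hf he (dgo_known B k1 k2 h (by linarith))
  have k2 : kn B i0 i he (dg (D.rd i0 e he ηn hη ix).R 1) := by
    have e0 : dg (D.rd i0 e he ηn hη ix).R 1 = chgL (B.V i0) e he (TR.dg (B.Rr i0) (B.lam i0 + e * 1)) :=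
      (dg_mk _ le_rfl).trans (B.RT_dg 1)
    rw [e0, mul_one]
    obtain ⟨κ, k1, k2⟩ := Rr_known B hq hd
    exact kn_of B hf he (dgo_known B k1 k2 (by linarith) h1)
  have k3 : kn B i0 i he (dg (D.rd i0 e he ηn hη ix).z 1) := by
    have e0 : dg (D.rd i0 e he ηn hη ix).z 1 = chgL (B.V i0) e he (TR.dg (B.Zr i0) (ηn + e * 1)) :=
      (dg_mk _ le_rfl).trans (B.zT_dg 1)
    rw [e0, mul_one]
    obtain ⟨κ, k1, k2⟩ := Zr_known B hη hq hd
    exact kn_of B hf he (dgo_known B k1 k2 (by linarith) h2)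
  exact kn_sup (kn_sup (kn_sup k0 k1) k2) k3

/-! ### informations -/

/-- digits of the direction and of the velocity of `z` -/
theorem xv_le (D : LD B) {e : ℝ} (he : 0 < e) {ηn ν : ℝ} (hη : ηn ≤ B.eta i0) (hν : ηn - B.q i0 ≤ ν) (ix : ℝ → ℕ) :
    dg (D.rd i0 e he ηn hη ix).x 1 ⊔ dg (D.rd i0 e he ηn hη ix).v 1 ≤
      chgL (B.V i0) e he (TR.dg (D.x 0) e ⊔ TR.dg (D.vz i0) (ν + e)) := by
  have e0 : dg (D.rd i0 e he ηn hη ix).x 1 = chgL (B.V i0) e he (TR.dg (D.x 0) (e * 1)) :=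
    (dg_mk _ le_rfl).trans (trc_dg _ _ _ _ _)
  have e1 : dg (D.rd i0 e he ηn hη ix).v 1 = chgL (B.V i0) e he (TR.dg (D.vz i0) (ηn - B.q i0 + e * 1)) :=
    (dg_mk _ le_rfl).trans (nf_dg _)
  rw [e0, e1, mul_one, chgL_sup]
  exact sup_le_sup_left (chgL_mono _ _ _ (TR.dg_mono _ (by linarith))) _

/-- digits of the direction -/
theorem x_le (D : LD B) {e : ℝ} (he : 0 < e) {ηn : ℝ} (hη : ηn ≤ B.eta i0) (ix : ℝ → ℕ) :
    dg (D.rd i0 e he ηn hη ix).x 1 = chgL (B.V i0) e he (TR.dg (D.x 0) e) := by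
  have e0 : dg (D.rd i0 e he ηn hη ix).x 1 = chgL (B.V i0) e he (TR.dg (D.x 0) (e * 1)) :=
    (dg_mk _ le_rfl).trans (trc_dg _ _ _ _ _)
  rw [e0, mul_one]

/-- INFORMATION of the direction and of the velocity of `z` -/
theorem I_xv (D : LD B) (hf : Fin' B i0 i) {e : ℝ} (he : 0 < e) {ηn ν : ℝ} (hη : ηn ≤ B.eta i0)
    (hν : ηn - B.q i0 ≤ ν) (ix : ℝ → ℕ) {K : (B.Sj i0 e he).L} (hK : kn B i0 i he K) :
    I (dg (D.rd i0 e he ηn hη ix).x 1 ⊔ dg (D.rd i0 e he ηn hη ix).v 1) K ⊥ ≤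
      (H (chgL (B.V i0) 1 one_pos (TR.dg (D.x 0) e ⊔ TR.dg (D.vz i0) (ν + e))) -
        H (chgL (B.V i) 1 one_pos (TR.dg (D.x 0) e ⊔ TR.dg (D.vz i0) (ν + e)))) / e :=
  (I_mono_left ((xv_le B D he hη hν ix).trans le_sup_left)).trans (I_fine (B.V i0) hf he _ hK)

/-- units do not matter -/
theorem chg_eq_of {Z : ∀ k, Setoid (S.F k).Ω} {e : ℝ} (he : 0 < e) {x y : S.L}
    (h : chgL Z 1 one_pos x = chgL Z 1 one_pos y) : chgL Z e he x = chgL Z e he y :=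
  le_antisymm ((Pool.Agent.Helper71.AGR.chg_le_iff Z he x y).mpr h.le)
    ((Pool.Agent.Helper71.AGR.chg_le_iff Z he y x).mpr h.ge)

/-- INFORMATION of the direction and of the velocity of `R`, from a frame of smaller depth -/
theorem I_xF (D : LD B) (hf : Fin' B i0 i) {e : ℝ} (he : 0 < e) {ηn ν : ℝ} (hη : ηn ≤ B.eta i0)
    (hν : ν ≤ B.lam i0 - B.q i0) (ix : ℝ → ℕ) {w : TR S}
    (hw : dgo B i0 (D.x 0) e ⊔ dgo B i0 (D.vr i0) (ν + e) = dgo B i0 (D.x 0) e ⊔ dgo B i0 w (ν + e))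
    {K : (B.Sj i0 e he).L} (hK : kn B i0 i he K) :
    I (dg (D.rd i0 e he ηn hη ix).x 1 ⊔ dg (D.rd i0 e he ηn hη ix).F 1) K ⊥ ≤
      (H (chgL (B.V i0) 1 one_pos (TR.dg (D.x 0) e ⊔ TR.dg w (ν + e))) -
        H (chgL (B.V i) 1 one_pos (TR.dg (D.x 0) e ⊔ TR.dg w (ν + e)))) / e + (B.lam i0 - B.q i0 - ν) / e := by
  obtain ⟨X, hX⟩ : ∃ X, X = chgL (B.V i0) e he (TR.dg (D.x 0) e ⊔ TR.dg w (ν + e)) := ⟨_, rfl⟩
  have h1 : I X K ⊥ ≤ (H (chgL (B.V i0) 1 one_pos (TR.dg (D.x 0) e ⊔ TR.dg w (ν + e))) -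
        H (chgL (B.V i) 1 one_pos (TR.dg (D.x 0) e ⊔ TR.dg w (ν + e)))) / e := by
    rw [hX]
    exact I_fine (B.V i0) hf he _ hK
  obtain ⟨u, hu⟩ : ∃ u, u = (ν + e - (B.lam i0 - B.q i0)) / e := ⟨_, rfl⟩
  have hu' : B.lam i0 - B.q i0 + e * u = ν + e := by
    rw [hu]
    field_simp
    ring
  have hu1 : u ≤ 1 := by
    rw [hu, div_le_one he]
    linarith
  have e1 : X = dg (D.rd i0 e he ηn hη ix).x 1 ⊔ dg (D.rd i0 e he ηn hη ix).F u := by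
    have e2 : dg (D.rd i0 e he ηn hη ix).F u = chgL (B.V i0) e he (TR.dg (D.vr i0) (ν + e)) := by
      have e3 : dg (D.rd i0 e he ηn hη ix).F u = chgL (B.V i0) e he (TR.dg (D.vr i0) (B.lam i0 - B.q i0 + e * u)) :=
        (dg_mk _ hu1).trans (nf_dg _)
      rw [e3, hu']
    rw [e2, x_le, ← chgL_sup, hX]
    apply chg_eq_of he
    rw [chgL_sup, chgL_sup]
    exact hw.symm
  have h2 : I (dg (D.rd i0 e he ηn hη ix).x 1 ⊔ dg (D.rd i0 e he ηn hη ix).F 1) K ⊥ ≤ I X K ⊥ + (1 - u) := by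
    have h3 : dg (D.rd i0 e he ηn hη ix).x 1 ⊔ dg (D.rd i0 e he ηn hη ix).F 1 = X ⊔ dg (D.rd i0 e he ηn hη ix).F 1 := by
      rw [e1, sup_assoc, sup_eq_right.mpr (QS.dg_mono _ hu1)]
    rw [h3]
    have h4 : I (X ⊔ dg (D.rd i0 e he ηn hη ix).F 1) K ⊥ ≤ I X K ⊥ + I (dg (D.rd i0 e he ηn hη ix).F 1) K X := by
      rw [I_eq, I_eq, I_eq]
      have a1 := h_chain X (dg (D.rd i0 e he ηn hη ix).F 1) ⊥
      have a2 := h_chain X (dg (D.rd i0 e he ηn hη ix).F 1) (K ⊔ ⊥)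
      have a3 : X ⊔ ⊥ = X := sup_bot_eq X
      have a4 : X ⊔ (K ⊔ ⊥) = K ⊔ X := by rw [sup_bot_eq, sup_comm]
      rw [a3] at a1
      rw [a4] at a2
      linarith
    have h5 : I (dg (D.rd i0 e he ηn hη ix).F 1) K X ≤ 1 - u := by
      rw [I_eq]
      have b1 := h_nonneg (dg (D.rd i0 e he ηn hη ix).F 1) (K ⊔ X)
      have b2 : h (dg (D.rd i0 e he ηn hη ix).F 1) X ≤ h (dg (D.rd i0 e he ηn hη ix).F 1) (dg (D.rd i0 e he ηn hη ix).F u) := by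
        apply h_anti
        rw [e1]
        exact le_sup_right
      have b3 := QS.h_dg_dg (D.rd i0 e he ηn hη ix).F hu1
      linarith
    linarith
  have h6 : 1 - u = (B.lam i0 - B.q i0 - ν) / e := by
    rw [hu]
    field_simp
    ring
  linarith

end

end Pool.Agent.Helper97.T1
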