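import Pool.Agent.Helper54.NS.Levels

/-! Monotone functions close to a monotone function: where the derivative of the limit is zero, the increments at the
scale of the error are negligible, for almost every point along a subsequence. -/

namespace Pool.Agent.Helper97.T1

open MeasureTheory Set Filter Topology
open scoped ENNReal NNReal
open Pool.Agent.Helper54.NS

/-- Markov inequality for the increments of a monotone function on a block -/
theorem block {g : ℝ → ℝ} (hg : Monotone g) {p L ω τ : ℝ} (hL : 0 ≤ L) (hω : 0 ≤ ω) (hτ : 0 < τ) :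
    volume {c | c ∈ Icc p (p + L) ∧ τ ≤ g (c + ω) - g (c - ω)} ≤
      ENNReal.ofReal (2 * ω * (g (p + L + ω) - g (p - ω)) / τ) := by
  set H : ℝ → ℝ := fun r => g (max (p - ω) (min (p + L + ω) (r - ω))) - g (p - ω) with hH
  have hHm : Monotone H := fun r r' h => by
    apply sub_le_sub_right
    exact hg (max_le_max le_rfl (min_le_min le_rfl (by linarith)))
  have h0 : ∀ r, 0 ≤ H r := fun r => sub_nonneg.2 (hg (le_max_left _ _))
  have h1 : ∀ r, H r ≤ g (p + L + ω) - g (p - ω) := fun r =>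
    sub_le_sub_right (hg (max_le (by linarith) (min_le_left _ _))) _
  have h2 := shift_int (p := p) (q := p + L) hHm h0 h1 (show 0 ≤ 2 * ω by linarith) (by linarith)
  have hpL : p ≤ p + L := by linarith
  have hii : IntervalIntegrable (fun r => H (r + 2 * ω) - H r) volume p (p + L) := by
    have i1 : IntervalIntegrable H volume p (p + L) := (hHm.monotoneOn _).intervalIntegrable
    have i2 : IntervalIntegrable (fun r => H (r + 2 * ω)) volume p (p + L) :=
      ((hHm.comp (fun _ _ h => by gcongr)).monotoneOn _).intervalIntegrable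
    exact i2.sub i1
  have hint : IntegrableOn (fun r => H (r + 2 * ω) - H r) (Icc p (p + L)) := by
    rw [← intervalIntegrable_iff_integrableOn_Icc_of_le hpL]
    exact hii
  have hnn : ∀ r, 0 ≤ H (r + 2 * ω) - H r := fun r => sub_nonneg.2 (hHm (by linarith))
  have h3 := mul_meas_ge_le_integral_of_nonneg (μ := volume.restrict (Icc p (p + L)))
    (f := fun r => H (r + 2 * ω) - H r) (Eventually.of_forall hnn) hint τ
  rw [integral_Icc_eq_integral_Ioc, ← intervalIntegral.integral_of_le hpL] at h3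
  have h4 : {c | c ∈ Icc p (p + L) ∧ τ ≤ g (c + ω) - g (c - ω)} =
      {x | τ ≤ (fun r => H (r + 2 * ω) - H r) x} ∩ Icc p (p + L) := by
    ext c
    simp only [mem_ofPred_eq, mem_inter_iff]
    constructor
    · rintro ⟨a, b⟩
      refine ⟨?_, a⟩
      have e1 : max (p - ω) (min (p + L + ω) (c + 2 * ω - ω)) = c + ω := by
        rw [min_eq_right (by linarith [a.2]), max_eq_right (by linarith [a.1])]
        ring
      have e2 : max (p - ω) (min (p + L + ω) (c - ω)) = c - ω := by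
        rw [min_eq_right (by linarith [a.2]), max_eq_right (by linarith [a.1])]
      simp only [hH, e1, e2]
      linarith
    · rintro ⟨b, a⟩
      refine ⟨a, ?_⟩
      have e1 : max (p - ω) (min (p + L + ω) (c + 2 * ω - ω)) = c + ω := by
        rw [min_eq_right (by linarith [a.2]), max_eq_right (by linarith [a.1])]
        ring
      have e2 : max (p - ω) (min (p + L + ω) (c - ω)) = c - ω := by
        rw [min_eq_right (by linarith [a.2]), max_eq_right (by linarith [a.1])]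
      simp only [hH, e1, e2] at b
      linarith
  rw [h4, ← Measure.restrict_apply' measurableSet_Icc]
  have h5 : (volume.restrict (Icc p (p + L))).real {x | τ ≤ (fun r => H (r + 2 * ω) - H r) x} ≤
      2 * ω * (g (p + L + ω) - g (p - ω)) / τ := by
    rw [le_div_iff₀ hτ, mul_comm]
    exact h3.trans h2
  rw [← ofReal_measureReal (by
    apply ne_top_of_le_ne_top _ (measure_mono (subset_univ _))
    rw [Measure.restrict_apply_univ, Real.volume_Icc]
    exact ENNReal.ofReal_ne_top)]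
  exact ENNReal.ofReal_le_ofReal h5

/-- points at which `σ` moves slowly, up to the distance `δ` -/
def Zs (σ : ℝ → ℝ) (η δ : ℝ) : Set ℝ := {c | ∀ c', |c' - c| < δ → |σ c' - σ c| ≤ η * |c' - c|}

theorem Zs_closed (σ : ℝ → ℝ) {η δ : ℝ} (hδ : 0 < δ) : IsClosed (Zs σ η δ) := by
  rw [← isSeqClosed_iff_isClosed]
  intro u c hu hc c' hc'
  have h1 : Tendsto (fun n => σ (u n)) atTop (𝓝 (σ c)) := by
    rw [tendsto_iff_dist_tendsto_zero]
    have h2 : Tendsto (fun n => η * |c - u n|) atTop (𝓝 0) := by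
      have h3 : Tendsto (fun n => |c - u n|) atTop (𝓝 |c - c|) := (tendsto_const_nhds.sub hc).abs
      rw [sub_self, abs_zero] at h3
      simpa using h3.const_mul η
    refine squeeze_zero' (Eventually.of_forall fun n => dist_nonneg) ?_ h2
    have h4 : ∀ᶠ n in atTop, |c - u n| < δ := by
      have h3 : Tendsto (fun n => |c - u n|) atTop (𝓝 |c - c|) := (tendsto_const_nhds.sub hc).abs
      rw [sub_self, abs_zero] at h3
      exact h3.eventually (gt_mem_nhds hδ)
    filter_upwards [h4] with n hn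
    rw [Real.dist_eq, abs_sub_comm]
    exact hu n c hn
  have h2 : Tendsto (fun n => |σ c' - σ (u n)|) atTop (𝓝 |σ c' - σ c|) := (tendsto_const_nhds.sub h1).abs
  have h3 : Tendsto (fun n => η * |c' - u n|) atTop (𝓝 (η * |c' - c|)) :=
    ((tendsto_const_nhds.sub hc).abs).const_mul η
  refine le_of_tendsto_of_tendsto h2 h3 ?_
  have h4 : ∀ᶠ n in atTop, |c' - u n| < δ :=
    ((tendsto_const_nhds.sub hc).abs).eventually (gt_mem_nhds hc')
  filter_upwards [h4] with n hn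
  exact hu n c' hn

theorem Zs_mono (σ : ℝ → ℝ) (η : ℝ) {δ δ' : ℝ} (h : δ ≤ δ') : Zs σ η δ' ⊆ Zs σ η δ := fun _ hc c' hc' =>
  hc c' (hc'.trans_le h)

theorem mem_Zs_of_deriv {σ : ℝ → ℝ} {c : ℝ} (h : HasDerivAt σ 0 c) {η : ℝ} (hη : 0 < η) :
    ∃ n : ℕ, c ∈ Zs σ η (1 / ((n : ℝ) + 1)) := by
  rw [hasDerivAt_iff_isLittleO] at h
  have h1 := h.def hη
  rw [Metric.eventually_nhds_iff] at h1
  obtain ⟨d, hd, h2⟩ := h1
  obtain ⟨n, hn⟩ := exists_nat_one_div_lt hd
  refine ⟨n, fun c' hc' => ?_⟩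
  have h3 := h2 (y := c') (by rw [Real.dist_eq]; exact hc'.trans hn)
  simpa [Real.norm_eq_abs] using h3

/-- the bad points of one scale -/
def Bd (g : ℝ → ℝ) (ω τ : ℝ) : Set ℝ := {c | τ ≤ g (c + ω) - g (c - ω)}

/-- one block -/
theorem block_Zs {g σ : ℝ → ℝ} (hg : Monotone g) {N K η δ : ℝ} (hN : 0 ≤ N)
    (hgσ : ∀ c, |g c - N * σ c| ≤ K) {p L ω τ : ℝ} (hL : 0 ≤ L) (hω : 0 ≤ ω) (hτ : 0 < τ) (hδ : L + ω < δ) (hη : 0 ≤ η) :
    volume (Icc p (p + L) ∩ (Zs σ η δ ∩ Bd g ω τ)) ≤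
      ENNReal.ofReal (2 * ω * (2 * N * η * (L + ω) + 2 * K) / τ) := by
  by_cases hne : ∃ c ∈ Icc p (p + L), c ∈ Zs σ η δ
  · obtain ⟨c, hc, hcZ⟩ := hne
    have h1 : g (p + L + ω) - g (p - ω) ≤ 2 * N * η * (L + ω) + 2 * K := by
      have a1 := hcZ (p + L + ω) (by rw [abs_of_nonneg (by linarith [hc.2])]; linarith [hc.1])
      have a2 := hcZ (p - ω) (by rw [abs_of_nonpos (by linarith [hc.1])]; linarith [hc.2])
      rw [abs_of_nonneg (show 0 ≤ p + L + ω - c by linarith [hc.2])] at a1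
      rw [abs_of_nonpos (show p - ω - c ≤ 0 by linarith [hc.1])] at a2
      have b1 := (le_abs_self _).trans a1
      have b2 := (neg_abs_le _).trans' (neg_le_neg a2)
      have c1 := hgσ (p + L + ω)
      have c2 := hgσ (p - ω)
      have d1 := (le_abs_self _).trans c1
      have d2 := (neg_abs_le _).trans' (neg_le_neg c2)
      have e1 : σ (p + L + ω) - σ (p - ω) ≤ η * (L + ω) + η * (L + ω) := by
        have f1 : η * (p + L + ω - c) ≤ η * (L + ω) := mul_le_mul_of_nonneg_left (by linarith [hc.1]) hη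
        have f2 : η * (-(p - ω - c)) ≤ η * (L + ω) := mul_le_mul_of_nonneg_left (by linarith [hc.2]) hη
        linarith
      have e2 := mul_le_mul_of_nonneg_left e1 hN
      linarith
    refine (measure_mono ?_).trans ((block hg hL hω hτ (p := p)).trans (ENNReal.ofReal_le_ofReal ?_))
    · exact fun x hx => ⟨hx.1, hx.2.2⟩
    · exact div_le_div_of_nonneg_right (mul_le_mul_of_nonneg_left h1 (by linarith)) hτ.le
  · have : Icc p (p + L) ∩ (Zs σ η δ ∩ Bd g ω τ) = ∅ := by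
      rw [eq_empty_iff_forall_notMem]
      rintro c ⟨h1, h2, -⟩
      exact hne ⟨c, h1, h2⟩
    rw [this, measure_empty]
    exact bot_le

/-- all blocks of an interval -/
theorem blocks {g σ : ℝ → ℝ} (hg : Monotone g) {N K η δ : ℝ} (hN : 0 ≤ N) (hK : 0 ≤ K)
    (hgσ : ∀ c, |g c - N * σ c| ≤ K) {a b L ω τ : ℝ} (hab : a ≤ b) (hL : 0 < L) (hω : 0 ≤ ω) (hτ : 0 < τ)
    (hδ : L + ω < δ) (hη : 0 ≤ η) :
    volume (Icc a b ∩ (Zs σ η δ ∩ Bd g ω τ)) ≤
      ENNReal.ofReal (((b - a) / L + 1) * (2 * ω * (2 * N * η * (L + ω) + 2 * K) / τ)) := by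
  set X : ℝ := 2 * ω * (2 * N * η * (L + ω) + 2 * K) / τ with hX
  have hX0 : 0 ≤ X := by rw [hX]; positivity
  set M : ℕ := ⌈(b - a) / L⌉₊ with hM
  have hM1 : (b - a) / L ≤ M := Nat.le_ceil _
  have hM2 : (M : ℝ) ≤ (b - a) / L + 1 := (Nat.ceil_lt_add_one (div_nonneg (by linarith) hL.le)).le
  rcases Nat.eq_zero_or_pos M with h0 | h0
  · have hba : b - a ≤ 0 := by
      rw [h0, Nat.cast_zero] at hM1
      by_contra h
      push Not at h
      exact absurd hM1 (not_le.2 (div_pos h hL))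
    have h1 : volume (Icc a b ∩ (Zs σ η δ ∩ Bd g ω τ)) ≤ volume (Icc a b) := measure_mono inter_subset_left
    rw [Real.volume_Icc, ENNReal.ofReal_of_nonpos hba] at h1
    exact h1.trans bot_le
  have hcov : Icc a b ∩ (Zs σ η δ ∩ Bd g ω τ) ⊆
      ⋃ i ∈ Finset.range M, (Icc (a + i * L) (a + i * L + L) ∩ (Zs σ η δ ∩ Bd g ω τ)) := by
    rintro c ⟨hc, hc'⟩
    have e0 : 0 ≤ (c - a) / L := div_nonneg (by linarith [hc.1]) hL.le
    set i : ℕ := min ⌊(c - a) / L⌋₊ (M - 1) with hi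
    have hiM : i < M := lt_of_le_of_lt (min_le_right _ _) (Nat.sub_lt h0 one_pos)
    refine mem_iUnion₂.2 ⟨i, Finset.mem_range.2 hiM, ⟨?_, ?_⟩, hc'⟩
    · have h1 : (i : ℝ) ≤ (c - a) / L := by
        have : i ≤ ⌊(c - a) / L⌋₊ := min_le_left _ _
        exact (Nat.cast_le.2 this).trans (Nat.floor_le e0)
      rw [le_div_iff₀ hL] at h1
      linarith
    · rcases le_total ⌊(c - a) / L⌋₊ (M - 1) with h | h
      · have h1 : (c - a) / L < i + 1 := by
          rw [hi, min_eq_left h]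
          exact Nat.lt_floor_add_one _
        rw [div_lt_iff₀ hL] at h1
        linarith
      · have h1 : (i : ℝ) + 1 = M := by
          rw [hi, min_eq_right h]
          have : ((M - 1 : ℕ) : ℝ) = (M : ℝ) - 1 := by
            rw [Nat.cast_sub h0, Nat.cast_one]
          rw [this]
          ring
        have h2 : (b - a) ≤ M * L := by
          rwa [div_le_iff₀ hL] at hM1
        have h3 : a + i * L + L = a + M * L := by rw [← h1]; ring
        rw [h3]
        linarith [hc.2]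
  refine (measure_mono hcov).trans ((measure_biUnion_finset_le _ _).trans ?_)
  calc ∑ i ∈ Finset.range M, volume (Icc (a + i * L) (a + i * L + L) ∩ (Zs σ η δ ∩ Bd g ω τ))
      ≤ ∑ _i ∈ Finset.range M, ENNReal.ofReal X := Finset.sum_le_sum fun i _ =>
        block_Zs hg hN hgσ hL.le hω hτ hδ hη
    _ = ENNReal.ofReal (M * X) := by
        rw [Finset.sum_const, Finset.card_range, nsmul_eq_mul, ENNReal.ofReal_mul (Nat.cast_nonneg _),
          ENNReal.ofReal_natCast]
    _ ≤ _ := ENNReal.ofReal_le_ofReal (mul_le_mul_of_nonneg_right hM2 hX0)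

/-- IN MEASURE: the bad sets of the scale `E j` on the set of the zeros of the derivative -/
theorem in_measure {σ : ℝ → ℝ} {g : ℕ → ℝ → ℝ} {E : ℕ → ℝ} {N C : ℝ} (hg : ∀ j, Monotone (g j)) (hN : 0 ≤ N) (hC : 0 ≤ C)
    (hE : ∀ j, 0 < E j) (hE0 : Tendsto E atTop (𝓝 0)) (hgσ : ∀ j c, |g j c - N * σ c| ≤ C * E j)
    {a b : ℝ} (hab : a ≤ b) {A τ : ℝ} (hA : 0 ≤ A) (hτ : 0 < τ) {ϑ : ℝ} (hϑ : 0 < ϑ) :
    ∀ᶠ j in atTop, volume (Icc a b ∩ ({c | HasDerivAt σ 0 c} ∩ Bd (g j) (A * E j) (τ * E j))) ≤ ENNReal.ofReal ϑ := by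
  -- the constants
  have hba : 0 ≤ b - a := by linarith
  obtain ⟨η, hη0, hη⟩ : ∃ η : ℝ, 0 < η ∧ (b - a + 1) * (2 * A * (2 * N * η * 2) / τ) ≤ ϑ / 4 := by
    refine ⟨ϑ / 4 * τ / ((b - a + 1) * (8 * A * N) + 1), by positivity, ?_⟩
    have h1 : 0 < (b - a + 1) * (8 * A * N) + 1 := by positivity
    rw [mul_div_assoc', div_le_iff₀ hτ]
    have h2 : (b - a + 1) * (2 * A * (2 * N * (ϑ / 4 * τ / ((b - a + 1) * (8 * A * N) + 1)) * 2)) =
        ((b - a + 1) * (8 * A * N)) * (ϑ / 4 * τ) / ((b - a + 1) * (8 * A * N) + 1) := by ring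
    rw [h2, div_le_iff₀ h1]
    have h3 : 0 < ϑ / 4 * τ := by positivity
    nlinarith
  obtain ⟨ℓ, hℓ1, hℓA, hℓ⟩ : ∃ ℓ : ℝ, 1 ≤ ℓ ∧ A ≤ ℓ ∧ (b - a + 1) * (2 * A * (2 * C / ℓ) / τ) ≤ ϑ / 4 := by
    refine ⟨max (max 1 A) ((b - a + 1) * (4 * A * C) / (ϑ / 4 * τ)), (le_max_left _ _).trans (le_max_left _ _),
      (le_max_right _ _).trans (le_max_left _ _), ?_⟩
    set ℓ := max (max 1 A) ((b - a + 1) * (4 * A * C) / (ϑ / 4 * τ)) with hl
    have h1 : 1 ≤ ℓ := (le_max_left _ _).trans (le_max_left _ _)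
    have h2 : (b - a + 1) * (4 * A * C) / (ϑ / 4 * τ) ≤ ℓ := le_max_right _ _
    have hℓ0 : 0 < ℓ := by linarith
    rw [div_le_iff₀ (by positivity)] at h2
    have h3 : (b - a + 1) * (2 * A * (2 * C / ℓ) / τ) = ((b - a + 1) * (4 * A * C)) / (ℓ * τ) := by
      field_simp
      ring
    rw [h3, div_le_iff₀ (by positivity)]
    linarith
  -- the exceptional part of the zeros of the derivative
  set U : ℕ → Set ℝ := fun n => Icc a b ∩ ((⋃ m : ℕ, Zs σ η (1 / ((m : ℝ) + 1))) \ Zs σ η (1 / ((n : ℝ) + 1))) with hU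
  have hmZ : ∀ n : ℕ, MeasurableSet (Zs σ η (1 / ((n : ℝ) + 1))) := fun n =>
    (Zs_closed σ (by positivity)).measurableSet
  have hUm : ∀ n, NullMeasurableSet (U n) volume := fun n =>
    (measurableSet_Icc.inter ((MeasurableSet.iUnion hmZ).diff (hmZ n))).nullMeasurableSet
  have hUa : Antitone U := by
    intro n n' h x hx
    refine ⟨hx.1, hx.2.1, fun hx' => hx.2.2 (Zs_mono σ η ?_ hx')⟩
    apply one_div_le_one_div_of_le (by positivity)
    have : (n : ℝ) ≤ n' := Nat.cast_le.2 h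
    linarith
  have hUt : Tendsto (fun n => volume (U n)) atTop (𝓝 0) := by
    have h1 := tendsto_measure_iInter_atTop hUm hUa ⟨0, by
      apply ne_top_of_le_ne_top _ (measure_mono (inter_subset_left : U 0 ⊆ Icc a b))
      rw [Real.volume_Icc]
      exact ENNReal.ofReal_ne_top⟩
    have h2 : ⋂ n, U n = ∅ := by
      rw [eq_empty_iff_forall_notMem]
      intro x hx
      rw [mem_iInter] at hx
      obtain ⟨m, hm⟩ := mem_iUnion.1 (hx 0).2.1
      exact (hx m).2.2 hm
    rw [h2, measure_empty] at h1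
    exact h1
  obtain ⟨n, hn⟩ := (hUt.eventually (ge_mem_nhds (show (0 : ℝ≥0∞) < ENNReal.ofReal (ϑ / 4) from
    ENNReal.ofReal_pos.2 (by linarith)))).exists
  -- small scales
  have hev : ∀ᶠ j in atTop, (ℓ + A) * E j < 1 / ((n : ℝ) + 1) := by
    have h1 : Tendsto (fun j => (ℓ + A) * E j) atTop (𝓝 0) := by simpa using hE0.const_mul (ℓ + A)
    exact h1.eventually (gt_mem_nhds (by positivity))
  have hev2 : ∀ᶠ j in atTop, ℓ * E j < 1 := by
    have h1 : Tendsto (fun j => ℓ * E j) atTop (𝓝 0) := by simpa using hE0.const_mul ℓ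
    exact h1.eventually (gt_mem_nhds one_pos)
  filter_upwards [hev, hev2] with j hj hj2
  have hEj := hE j
  have hsub : Icc a b ∩ ({c | HasDerivAt σ 0 c} ∩ Bd (g j) (A * E j) (τ * E j)) ⊆
      U n ∪ (Icc a b ∩ (Zs σ η (1 / ((n : ℝ) + 1)) ∩ Bd (g j) (A * E j) (τ * E j))) := by
    rintro c ⟨h1, h2, h3⟩
    by_cases h : c ∈ Zs σ η (1 / ((n : ℝ) + 1))
    · exact Or.inr ⟨h1, h, h3⟩
    · obtain ⟨m, hm⟩ := mem_Zs_of_deriv h2 hη0
      exact Or.inl ⟨h1, mem_iUnion.2 ⟨m, hm⟩, h⟩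
  refine (measure_mono hsub).trans ((measure_union_le _ _).trans ?_)
  have h5 := blocks (g := g j) (σ := σ) (hg j) hN (K := C * E j) (by positivity) (hgσ j) (a := a) (b := b)
    (L := ℓ * E j) (ω := A * E j) (τ := τ * E j) (η := η) (δ := 1 / ((n : ℝ) + 1)) hab (by positivity) (by positivity)
    (by positivity) (by rw [← add_mul]; exact hj) hη0.le
  refine (add_le_add hn (h5.trans (ENNReal.ofReal_le_ofReal (q := 3 * ϑ / 4) ?_))).trans ?_
  · have hℓ0 : 0 < ℓ := by linarith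
    have e1 : ((b - a) / (ℓ * E j) + 1) * (2 * (A * E j) * (2 * N * η * (ℓ * E j + A * E j) + 2 * (C * E j)) / (τ * E j)) =
        ((b - a) + ℓ * E j) * (2 * A * (2 * N * η * ((ℓ + A) / ℓ) + 2 * C / ℓ) / τ) := by
      field_simp
    rw [e1]
    have e2 : (ℓ + A) / ℓ ≤ 2 := by
      rw [div_le_iff₀ hℓ0]
      linarith
    have e3 : 2 * A * (2 * N * η * ((ℓ + A) / ℓ) + 2 * C / ℓ) / τ ≤ 2 * A * (2 * N * η * 2 + 2 * C / ℓ) / τ := by
      apply div_le_div_of_nonneg_right _ hτ.le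
      apply mul_le_mul_of_nonneg_left _ (by linarith)
      apply add_le_add_left
      exact mul_le_mul_of_nonneg_left e2 (by positivity)
    have e4 : 0 ≤ 2 * A * (2 * N * η * ((ℓ + A) / ℓ) + 2 * C / ℓ) / τ := by positivity
    calc ((b - a) + ℓ * E j) * (2 * A * (2 * N * η * ((ℓ + A) / ℓ) + 2 * C / ℓ) / τ)
        ≤ (b - a + 1) * (2 * A * (2 * N * η * 2 + 2 * C / ℓ) / τ) :=
          mul_le_mul (by linarith) e3 e4 (by linarith)
      _ = (b - a + 1) * (2 * A * (2 * N * η * 2) / τ) + (b - a + 1) * (2 * A * (2 * C / ℓ) / τ) := by ring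
      _ ≤ 3 * ϑ / 4 := by linarith
  · rw [← ENNReal.ofReal_add (by linarith) (by linarith)]
    apply ENNReal.ofReal_le_ofReal
    linarith

/-- clamping -/
def cl (a b r : ℝ) : ℝ := max a (min b r)

theorem cl_mem {a b : ℝ} (hab : a ≤ b) (r : ℝ) : cl a b r ∈ Icc a b := ⟨le_max_left _ _, max_le hab (min_le_left _ _)⟩

theorem cl_mono {a b : ℝ} : Monotone (cl a b) := fun _ _ h => max_le_max le_rfl (min_le_min le_rfl h)

theorem cl_eq {a b r : ℝ} (h : r ∈ Icc a b) : cl a b r = r := by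
  unfold cl
  rw [min_eq_right h.2, max_eq_right h.1]

/-- **R1OFF.** Countably many families `g i j` of monotone functions with `|g i j - N i σ i| ≤ C i * E j`. Along one
subsequence of the scales, at almost every window the increments of `g i j` at the scale `E j` are negligible as soon as
the derivative of `σ i` is zero. -/
theorem r1off {ι : Type*} [Countable ι] {σ : ι → ℝ → ℝ} {g : ι → ℕ → ℝ → ℝ} {E : ℕ → ℝ} {N C : ι → ℝ} {a b : ℝ} (hab : a ≤ b)
    (hg : ∀ i j, MonotoneOn (g i j) (Icc a b)) (hN : ∀ i, 0 ≤ N i) (hC : ∀ i, 0 ≤ C i)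
    (hE : ∀ j, 0 < E j) (hE0 : Tendsto E atTop (𝓝 0))
    (hgσ : ∀ i j, ∀ c ∈ Icc a b, |g i j c - N i * σ i c| ≤ C i * E j) :
    ∃ φ : ℕ → ℕ, StrictMono φ ∧ (Summable fun j => E (φ j)) ∧ ∀ᵐ c : ℝ, c ∈ Ioo a b → ∀ i, HasDerivAt (σ i) 0 c →
      ∀ A : ℕ, Tendsto (fun j => (g i (φ j) (c + A * E (φ j)) - g i (φ j) (c - A * E (φ j))) / E (φ j)) atTop (𝓝 0) := by
  classical
  -- the clamped functions
  set G : ι → ℕ → ℝ → ℝ := fun i j r => g i j (cl a b r) with hG
  set σc : ι → ℝ → ℝ := fun i r => σ i (cl a b r) with hσc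
  have hGm : ∀ i j, Monotone (G i j) := fun i j r r' h => hg i j (cl_mem hab r) (cl_mem hab r') (cl_mono h)
  have hGσ : ∀ i j c, |G i j c - N i * σc i c| ≤ C i * E j := fun i j c => hgσ i j _ (cl_mem hab c)
  obtain ⟨cd, hcd⟩ := exists_injective_nat (ι × ℕ)
  have hfin : ∀ n : ℕ, {p : ι × ℕ | cd p ≤ n}.Finite := fun n =>
    (Set.finite_le_nat n).preimage hcd.injOn
  set BB : ι × ℕ → ℕ → ℕ → Set ℝ := fun p n k =>
    Icc a b ∩ ({c | HasDerivAt (σc p.1) 0 c} ∩ Bd (G p.1 k) (p.2 * E k) (1 / ((n : ℝ) + 1) * E k)) with hBB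
  have hP : ∀ n : ℕ, ∀ᶠ k in atTop, E k ≤ (1 / 2 : ℝ) ^ n ∧
      ∀ p ∈ {p : ι × ℕ | cd p ≤ n}, volume (BB p n k) ≤ ENNReal.ofReal ((1 / 2 : ℝ) ^ n) := by
    intro n
    apply Filter.Eventually.and
    · exact hE0.eventually (ge_mem_nhds (by positivity))
    · rw [Filter.eventually_all_finite (hfin n)]
      rintro ⟨i, A⟩ -
      exact in_measure (hGm i) (hN i) (hC i) hE hE0 (hGσ i) hab (Nat.cast_nonneg A) (by positivity) (by positivity)
  obtain ⟨φ, hφ, hφP⟩ := extraction_forall_of_eventually hP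
  have hsE : Summable fun j => E (φ j) :=
    Summable.of_nonneg_of_le (fun j => (hE _).le) (fun j => (hφP j).1) summable_geometric_two
  have hae : ∀ᵐ c : ℝ, ∀ p : ι × ℕ, ∀ᶠ n in atTop, c ∉ (if cd p ≤ n then BB p n (φ n) else ∅) := by
    rw [ae_all_iff]
    intro p
    apply ae_eventually_notMem
    refine ne_top_of_le_ne_top ?_ (ENNReal.tsum_le_tsum (g := fun n => ENNReal.ofReal ((1 / 2 : ℝ) ^ n)) fun n => ?_)
    · rw [← ENNReal.ofReal_tsum_of_nonneg (fun n => by positivity) summable_geometric_two]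
      exact ENNReal.ofReal_ne_top
    · split_ifs with h
      · exact (hφP n).2 p h
      · rw [measure_empty]
        exact bot_le
  refine ⟨φ, hφ, hsE, ?_⟩
  filter_upwards [hae] with c hc hcI i hd A
  have h1 := hc (i, A)
  have hd' : HasDerivAt (σc i) 0 c := by
    apply hd.congr_of_eventuallyEq
    filter_upwards [Ioo_mem_nhds hcI.1 hcI.2] with x hx
    show σ i (cl a b x) = σ i x
    rw [cl_eq ⟨hx.1.le, hx.2.le⟩]
  have hEφ : Tendsto (fun j => (A : ℝ) * E (φ j)) atTop (𝓝 0) := by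
    simpa using (hE0.comp hφ.tendsto_atTop).const_mul (A : ℝ)
  have e1 : ∀ᶠ j in atTop, (A : ℝ) * E (φ j) < c - a := hEφ.eventually (gt_mem_nhds (by linarith [hcI.1]))
  have e2 : ∀ᶠ j in atTop, (A : ℝ) * E (φ j) < b - c := hEφ.eventually (gt_mem_nhds (by linarith [hcI.2]))
  have hsq : ∀ᶠ j : ℕ in atTop, 0 ≤ (g i (φ j) (c + A * E (φ j)) - g i (φ j) (c - A * E (φ j))) / E (φ j) ∧
      (g i (φ j) (c + A * E (φ j)) - g i (φ j) (c - A * E (φ j))) / E (φ j) ≤ 1 / ((j : ℝ) + 1) := by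
    filter_upwards [h1, e1, e2, eventually_ge_atTop (cd (i, A))] with j h1 h2 h3 h4
    have hAE : 0 ≤ (A : ℝ) * E (φ j) := mul_nonneg (Nat.cast_nonneg A) (hE _).le
    have m1 : c + A * E (φ j) ∈ Icc a b := ⟨by linarith [hcI.1], by linarith⟩
    have m2 : c - A * E (φ j) ∈ Icc a b := ⟨by linarith, by linarith [hcI.2]⟩
    refine ⟨div_nonneg (sub_nonneg.2 (hg i _ m2 m1 (by linarith))) (hE _).le, ?_⟩
    rw [if_pos h4] at h1
    by_contra h5
    push Not at h5
    refine h1 ⟨⟨hcI.1.le, hcI.2.le⟩, hd', ?_⟩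
    show 1 / ((j : ℝ) + 1) * E (φ j) ≤ g i (φ j) (cl a b (c + A * E (φ j))) - g i (φ j) (cl a b (c - A * E (φ j)))
    rw [cl_eq m1, cl_eq m2]
    rw [lt_div_iff₀ (hE _)] at h5
    exact h5.le
  refine tendsto_of_tendsto_of_tendsto_of_le_of_le' tendsto_const_nhds tendsto_one_div_add_atTop_nhds_zero_nat
    (hsq.mono fun j h => h.1) (hsq.mono fun j h => h.2)

end Pool.Agent.Helper97.T1
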