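import Pool.Agent.Helper97.T1.Bt
import Pool.Agent.Helper97.T1.Ra

/-! TYPICAL WINDOWS: along one subsequence of the scales, for almost every window the direction (and the velocity of `R`
or `z` at flat windows) is independent of the labels of the nearby windows and of the point. -/

set_option autoImplicit false

namespace Pool.Agent.Helper97.T1

open Finset Filter Topology Pool.Agent.Helper69.RK Pool.Agent.Helper31.EC Pool.Agent.Helper60.CS
open Pool.Agent.Helper82.TP Pool.Agent.Helper40.EL Pool.Agent.Helper98.FR Pool.Agent.Helper80.HCI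
open Pool.Agent.Helper79.NF Pool.Agent.Helper31.NSB

noncomputable section

open Sp QS Pool.Agent.Helper80.MX

variable {S : Sp}

/-- TYPICAL WINDOW for the scales `E` and the depths `lam`, `eta` -/
structure TCw (s : Sys S 3) (lam eta : ℝ → ℝ) (E : ℕ → ℝ) (c : ℝ) : Prop where
  x : ∀ A : ℕ, Tendsto (fun n => (fx s (E n) (c - A * E n) - fx s (E n) (c + A * E n)) / E n) atTop (𝓝 0)
  ic : DifferentiableAt ℝ (Helper40.EL.ic s) c
  m : ∀ a b, Adm s lam eta a b → 0 < a → c ∈ Set.Ioo a b → ∀ j : Fin 3, (j = 1 ∨ j = 2) →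
    HasDerivAt (fun x => dep lam eta j x - x) 0 c → ∀ N A : ℕ,
    Tendsto (fun n => (Mf s (dep lam eta j) j N (E n) (c + A * E n) - Mf s (dep lam eta j) j N (E n) (c - A * E n)) / E n)
      atTop (𝓝 0)

namespace TCw

variable {s : Sys S 3} {lam eta : ℝ → ℝ} {E : ℕ → ℝ} {c : ℝ}

theorem sub (T : TCw s lam eta E c) {φ : ℕ → ℕ} (hφ : Tendsto φ atTop atTop) : TCw s lam eta (fun n => E (φ n)) c :=
  ⟨fun A => (T.x A).comp hφ, T.ic, fun a b hA ha hc j hj hd N A => (T.m a b hA ha hc j hj hd N A).comp hφ⟩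

theorem x1 (T : TCw s lam eta E c) (hE : ∀ n, 0 < E n) :
    Tendsto (fun n => (fx s (E n) c - fx s (E n) (c + E n)) / E n) atTop (𝓝 0) := by
  have h1 := T.x 1
  refine tendsto_of_tendsto_of_tendsto_of_le_of_le tendsto_const_nhds h1 (fun n => ?_) (fun n => ?_)
  · have h5 := fx_anti s (E n) (show c ≤ c + E n by linarith [hE n])
    exact div_nonneg (by linarith) (hE _).le
  · apply div_le_div_of_nonneg_right _ (hE _).le
    have h5 := fx_anti s (E n) (show c - E n ≤ c by linarith [hE n])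
    rw [Nat.cast_one, one_mul]
    linarith

/-- windows near a typical window -/
theorem ev_near {a b : ℝ} (ha : 0 < a) (hc : c ∈ Set.Ioo a b) (hE0 : Tendsto E atTop (𝓝 0)) (A : ℕ) :
    ∀ᶠ n in atTop, E n ≤ a ∧ c + A * E n ≤ b ∧ a ≤ c - A * E n := by
  have h1 : Tendsto (fun n => (A : ℝ) * E n) atTop (𝓝 0) := by
    have := hE0.const_mul (A : ℝ)
    rwa [mul_zero] at this
  filter_upwards [hE0.eventually (gt_mem_nhds ha), h1.eventually (gt_mem_nhds (show 0 < b - c by linarith [hc.2])),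
    h1.eventually (gt_mem_nhds (show 0 < c - a by linarith [hc.1]))] with n g1 g2 g3
  exact ⟨g1.le, by linarith, by linarith⟩

/-- increments of the potential between windows near a typical window -/
theorem m_inc (T : TCw s lam eta E c) {a b : ℝ} (hA : Adm s lam eta a b) (ha : 0 < a) (hc : c ∈ Set.Ioo a b)
    (hE : ∀ n, 0 < E n) (hE0 : Tendsto E atTop (𝓝 0)) {j : Fin 3} (hj : j = 1 ∨ j = 2)
    (hd : HasDerivAt (fun x => dep lam eta j x - x) 0 c) (N A : ℕ) {ε : ℝ} (hε : 0 < ε) :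
    ∀ᶠ n in atTop, ∀ x x' : ℝ, c - A * E n ≤ x → x ≤ x' → x' ≤ c + A * E n →
      Mf s (dep lam eta j) j N (E n) x' - Mf s (dep lam eta j) j N (E n) x ≤ ε * E n := by
  filter_upwards [(T.m a b hA ha hc j hj hd N A).eventually (gt_mem_nhds hε), ev_near ha hc hE0 A] with n h1 h2 x x' g1 g2 g3
  have hEn := hE n
  have hAE : 0 ≤ A * E n := by positivity
  rw [div_lt_iff₀ hEn] at h1
  have h3 := Mf_mono hA hj (N := (N : ℝ)) (Nat.cast_nonneg _) hEn.le h2.1 (show c - A * E n ∈ Set.Icc a b from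
    ⟨h2.2.2, by linarith⟩) (show x ∈ Set.Icc a b from ⟨by linarith, by linarith⟩) g1
  have h4 := Mf_mono hA hj (N := (N : ℝ)) (Nat.cast_nonneg _) hEn.le h2.1 (show x' ∈ Set.Icc a b from
    ⟨by linarith, by linarith⟩) (show c + A * E n ∈ Set.Icc a b from ⟨by linarith, h2.2.1⟩) g3
  linarith

end TCw

/-- GOOD BASE LABEL AND FRAME at the window `c`, unit `e` -/
structure T1d (s : Sys S 3) (lam eta : ℝ → ℝ) (w1 w c e ε : ℝ) (l : Lab S) (f : Fin 4 → TR l.sp) (η' : ℝ) : Prop where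
  kap : IsKap s c l
  fr : Frz s 2 η' l f
  lo : eta c - ε * e ≤ η'
  hi : η' ≤ eta c
  ind : ∀ (q lamv etav : ℕ → ℝ) (L : ℕ → Lab S) (b : Bx s q lamv etav L) (i0 i : ℕ), (∀ i, lamv i = lam (q i)) →
    (∀ i, etav i ≤ eta (q i)) → q i0 = c → q i = c + e → b.bd.Dn i0 (c + e) → Dom (b.M.lab i0) l → etav i0 = η' →
    b.c i0 = (fun a => Dom.tr (b.M.lab i0) l (f a)) → ∀ (he : 0 < e) (ηn : ℝ) (hηn : ηn ≤ b.bd.eta i0) (ix : ℝ → ℕ)
    (K : (b.bd.Sj i0 e he).L), kn b.bd i0 i he K →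
      I (dg (b.ld.rd i0 e he ηn hηn ix).x 1) K ⊥ ≤ ε ∧
      (w1 = 1 → I (dg (b.ld.rd i0 e he ηn hηn ix).x 1 ⊔ dg (b.ld.rd i0 e he ηn hηn ix).F 1) K ⊥ ≤ ε) ∧
      (w = 1 → 1 < w1 → I (dg (b.ld.rd i0 e he ηn hηn ix).x 1 ⊔ dg (b.ld.rd i0 e he ηn hηn ix).v 1) K ⊥ ≤ ε)

section base

variable {s : Sys S 3} {lam eta : ℝ → ℝ} {a b : ℝ}

/-- a label which dominates two labels -/
theorem exists_join {c : ℝ} {l l' : Lab S} (h : IsKap s c l) (h' : DMc s c l') :
    ∃ l'' : Lab S, IsKap s c l'' ∧ Dom l'' l ∧ Dom l'' l' :=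
  ⟨_, join_kap h h', Dom.left l l', Dom.right l l'⟩

/-- EXISTENCE of good base labels and frames at typical windows -/
theorem exists_T1d (A : Adm s lam eta a b) (ha : 0 < a) {c : ℝ} (hc : c ∈ Set.Ioo a b) {E : ℕ → ℝ} (hE : ∀ n, 0 < E n)
    (hE0 : Tendsto E atTop (𝓝 0)) (T : TCw s lam eta E c) {w1 w : ℝ} (h1 : HasDerivAt lam w1 c) (h2 : HasDerivAt eta w c)
    {ε : ℝ} (hε : 0 < ε) : ∀ᶠ n in atTop, ∀ l0 : Lab S, DMc s c l0 → ∃ (l : Lab S) (f : Fin 4 → TR l.sp) (η' : ℝ),
      Dom l l0 ∧ T1d s lam eta w1 w c (E n) ε l f η' := by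
  have hcI : c ∈ Set.Icc a b := ⟨hc.1.le, hc.2.le⟩
  obtain ⟨N, hN⟩ := exists_nat_gt (12 / ε)
  have hN0 : (0 : ℝ) < N := lt_trans (by positivity) hN
  have hN3 : 3 / (N : ℝ) ≤ ε / 4 := by
    rw [div_lt_iff₀ hε] at hN
    rw [div_le_iff₀ hN0]
    linarith
  have hx := (T.x1 hE).eventually (gt_mem_nhds hε)
  have hsm : ∀ᶠ n in atTop, E n ≤ c := (hE0.eventually (gt_mem_nhds (show 0 < c by linarith [hc.1]))).mono fun n h => h.le
  have hM : ∀ j : Fin 3, (j = 1 ∨ j = 2) → HasDerivAt (fun x => dep lam eta j x - x) 0 c → ∀ᶠ n in atTop,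
      (Mf s (dep lam eta j) j N (E n) (c + E n) - Mf s (dep lam eta j) j N (E n) c) / E n ≤ ε / 4 := fun j hj hd => by
    filter_upwards [T.m_inc A ha hc hE hE0 hj hd N 1 (show 0 < ε / 4 by positivity)] with n hn
    have hEn := hE n
    rw [div_le_iff₀ hEn]
    exact hn c (c + E n) (by rw [Nat.cast_one]; linarith) (by linarith) (by rw [Nat.cast_one]; linarith)
  obtain ⟨δ0, hδ0, hδ1, hδε⟩ : ∃ δ0 : ℝ, 0 < δ0 ∧ δ0 ≤ 1 ∧ δ0 ≤ ε / 4 :=
    ⟨min 1 (ε / 4), lt_min one_pos (by positivity), min_le_left _ _, min_le_right _ _⟩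
  by_cases hw1 : w1 = 1
  · -- the velocity of `R`
    have hd : HasDerivAt (fun x => dep lam eta 1 x - x) 0 c := by
      have e1 : (fun x => dep lam eta 1 x - x) = fun x => lam x - x := by
        funext x
        show (if (1 : Fin 3) = 1 then lam x else eta x) - x = _
        rw [if_pos rfl]
      rw [e1]
      have h3 := h1.sub (hasDerivAt_id c)
      rw [hw1, sub_self] at h3
      exact h3
    filter_upwards [hx, hsm, hM 1 (Or.inl rfl) hd] with n k1 k2 k3 l0 hl0
    have hEn := hE n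
    obtain ⟨ν, l1, f1, m1, m2, m3, m4, m5⟩ := near_max A (Or.inl rfl) hcI hN0 hEn.le k2 (δ := δ0 * E n) (by positivity)
    obtain ⟨l2, p1, p2, p3⟩ := exists_join m3 hl0
    obtain ⟨l, f, r1, r2, r3, -⟩ := exists_fr A (Or.inr rfl) hcI hEn.le k2 p1.dm
    have e2 : dep lam eta 2 c = eta c := if_neg (by decide)
    have e3 : dep lam eta 1 c = lam c := if_pos rfl
    rw [e2] at r3
    rw [e3] at m1 m2
    refine ⟨l, f, eta c, r2.trans p3, r1, r3, by linarith [mul_pos hε hEn], le_rfl, ?_⟩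
    intro q lamv etav L B i0 i g1 g2 g3 g4 g5 g6 g7 g8 he ηn hηn ix K hK
    have hqq : q i0 ≤ q i := by rw [g3, g4]; linarith
    have hei : E n ≤ q i0 := by rw [g3]; exact k2
    refine ⟨?_, fun _ => ?_, fun _ h => absurd h (by rw [hw1]; exact lt_irrefl 1)⟩
    · have t1 := T1x_bx B hqq he hηn ix hK
      rw [g3, g4] at t1
      exact t1.trans k1.le
    · have hdom : Dom (B.M.lab i0) l1 := g6.trans (r2.trans p2)
      have hF : Frz s 1 (ν + q i0) (B.M.lab i0) (fun a => Dom.tr (B.M.lab i0) l1 (f1 a)) := by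
        rw [g3]
        exact m4.tr hdom
      have hlam1 := A.lam1 c hcI
      have hHv := Hv_tr_le s 1 (e := E n) (r := ν + E n) (by linarith [hc.2, A.b1]) (by linarith) f1 hdom
      have hd' : B.bd.Dn i0 (q i) := by rw [g4]; exact g5
      have t1 := T1F_bx B (lam := lam) (eta := eta) (fun i => (g1 i).le) g2 hqq hd' hN0.le he hei
        (F := fun a => Dom.tr (B.M.lab i0) l1 (f1 a)) hF (by rw [g1, g3]; linarith) (δ := δ0 * E n) (by
          rw [g3]
          linarith) hηn ix hK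
      rw [g3, g4, g1, g3] at t1
      refine t1.trans ?_
      have t2 : (Mf s (dep lam eta 1) 1 N (E n) (c + E n) - Mf s (dep lam eta 1) 1 N (E n) c + δ0 * E n) / E n =
          (Mf s (dep lam eta 1) 1 N (E n) (c + E n) - Mf s (dep lam eta 1) 1 N (E n) c) / E n + δ0 := by
        field_simp
      have t3 : (lam c - c - ν) / E n ≤ 3 / N := by
        rw [div_le_iff₀ hEn]
        have t4 : (2 * E n + δ0 * E n) / N ≤ 3 / N * E n := by
          rw [div_mul_eq_mul_div]
          apply div_le_div_of_nonneg_right _ hN0.le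
          nlinarith
        linarith
      rw [t2]
      linarith
  · by_cases hw : w = 1
    · -- the velocity of `z`
      have hd : HasDerivAt (fun x => dep lam eta 2 x - x) 0 c := by
        have e1 : (fun x => dep lam eta 2 x - x) = fun x => eta x - x := by
          funext x
          show (if (2 : Fin 3) = 1 then lam x else eta x) - x = _
          rw [if_neg (by decide)]
        rw [e1]
        have h3 := h2.sub (hasDerivAt_id c)
        rw [hw, sub_self] at h3
        exact h3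
      filter_upwards [hx, hsm, hM 2 (Or.inr rfl) hd] with n k1 k2 k3 l0 hl0
      have hEn := hE n
      obtain ⟨ν, l1, f1, m1, m2, m3, m4, m5⟩ := near_max A (Or.inr rfl) hcI hN0 hEn.le k2 (δ := δ0 * E n) (by positivity)
      obtain ⟨l, p1, p2, p3⟩ := exists_join m3 hl0
      have e3 : dep lam eta 2 c = eta c := if_neg (by decide)
      rw [e3] at m1 m2
      have t4 : (2 * E n + δ0 * E n) / N ≤ 3 / N * E n := by
        rw [div_mul_eq_mul_div]
        apply div_le_div_of_nonneg_right _ hN0.le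
        nlinarith
      have t5 : 3 / N * E n ≤ ε / 4 * E n := mul_le_mul_of_nonneg_right hN3 hEn.le
      refine ⟨l, fun a => Dom.tr l l1 (f1 a), ν + c, p3, p1, m4.tr p2, by nlinarith, by linarith, ?_⟩
      intro q lamv etav L B i0 i g1 g2 g3 g4 g5 g6 g7 g8 he ηn hηn ix K hK
      have hqq : q i0 ≤ q i := by rw [g3, g4]; linarith
      have hei : E n ≤ q i0 := by rw [g3]; exact k2
      refine ⟨?_, fun h => absurd h hw1, fun _ _ => ?_⟩
      · have t1 := T1x_bx B hqq he hηn ix hK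
        rw [g3, g4] at t1
        exact t1.trans k1.le
      · have heta1 := A.eta1 c hcI
        have hHv := Hv_tr_le s 2 (e := E n) (r := ν + E n) (by linarith [hc.2, A.b1]) (by linarith) f1 p2
        have hHv' := Hv_tr_le s 2 (e := E n) (r := ν + E n) (by linarith [hc.2, A.b1]) (by linarith)
          (fun a => Dom.tr l l1 (f1 a)) g6
        have hd' : B.bd.Dn i0 (q i) := by rw [g4]; exact g5
        have hνe : etav i0 - q i0 = ν := by rw [g7, g3]; ring
        have hHc : Hv s 2 (E n) (ν + E n) (B.M.lab i0) (B.c i0) =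
            Hv s 2 (E n) (ν + E n) (B.M.lab i0) (fun a => Dom.tr (B.M.lab i0) l (Dom.tr l l1 (f1 a))) :=
          congrArg (Hv s 2 (E n) (ν + E n) (B.M.lab i0)) g8
        have t1 := T1v_bx B (lam := lam) (eta := eta) (fun i => (g1 i).le) g2 hqq hd' hN0.le he hei
          (δ := δ0 * E n) (by
            rw [hνe, g3]
            rw [hHc]
            linarith) hηn ix hK
        rw [g3, g4] at t1
        refine t1.trans ?_
        have t2 : (Mf s (dep lam eta 2) 2 N (E n) (c + E n) - Mf s (dep lam eta 2) 2 N (E n) c + δ0 * E n) / E n =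
            (Mf s (dep lam eta 2) 2 N (E n) (c + E n) - Mf s (dep lam eta 2) 2 N (E n) c) / E n + δ0 := by
          field_simp
        rw [t2]
        linarith
    · filter_upwards [hx, hsm] with n k1 k2 l0 hl0
      have hEn := hE n
      obtain ⟨l, f, r1, r2, r3, -⟩ := exists_fr A (Or.inr rfl) hcI hEn.le k2 hl0
      have e2 : dep lam eta 2 c = eta c := if_neg (by decide)
      rw [e2] at r3
      refine ⟨l, f, eta c, r2, r1, r3, by linarith [mul_pos hε hEn], le_rfl, ?_⟩
      intro q lamv etav L B i0 i g1 g2 g3 g4 g5 g6 g7 g8 he ηn hηn ix K hK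
      have hqq : q i0 ≤ q i := by rw [g3, g4]; linarith
      refine ⟨?_, fun h => absurd h hw1, fun h => absurd h hw⟩
      have t1 := T1x_bx B hqq he hηn ix hK
      rw [g3, g4] at t1
      exact t1.trans k1.le

/-- BOXES with a good base label and frame -/
theorem T1d.box (A : Adm s lam eta a b) {w1 w c e ε : ℝ} {l : Lab S} {f : Fin 4 → TR l.sp} {η' : ℝ}
    (T : T1d s lam eta w1 w c e ε l f η') (q : ℕ → ℝ) (hq : ∀ i, q i ∈ Set.Icc a b) {i0 : ℕ} (h0 : q i0 = c)
    (hq0 : ∀ i, i ≠ i0 → q i0 < q i) (L0 : ℕ → Lab S) (hL : ∀ i, DMc s (q i) (L0 i)) :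
    ∃ (L : ℕ → Lab S) (B : Bx s q (fun i => lam (q i)) (Function.update (fun i => eta (q i)) i0 η') L),
      Dom (B.M.lab i0) l ∧ B.c i0 = (fun a => Dom.tr (B.M.lab i0) l (f a)) ∧ ∀ i, i ≠ i0 → Dom (B.M.lab i) (L0 i) := by
  classical
  obtain ⟨L, hLL⟩ : ∃ L : ℕ → Lab S, L = Function.update L0 i0 l := ⟨_, rfl⟩
  have hL1 : L i0 = l := by rw [hLL, Function.update_self]
  have hL2 : ∀ i, i ≠ i0 → L i = L0 i := fun i hi => by rw [hLL, Function.update_of_ne hi]
  have hL' : ∀ i, DMc s (q i) (L i) := by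
    intro i
    by_cases hi : i = i0
    · subst hi
      rw [hL1, h0]
      exact T.kap.dm
    · rw [hL2 i hi]
      exact hL i
  obtain ⟨B⟩ := A.box q hq L hL'
  have hd : Dom (B.M.lab i0) l := by
    rw [← hL1]
    exact B.dom i0
  have hF := T.fr.tr hd
  have hη : η' ≤ eta (q i0) := by rw [h0]; exact T.hi
  refine ⟨L, setf B i0 hF hη hq0, hd, setf_c B hF hη hq0, fun i hi => ?_⟩
  rw [← hL2 i hi]
  exact B.dom i

end base

end

end Pool.Agent.Helper97.T1
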